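import Pool.Agent.H24FD.Grp

/-!
# The action of the isometries on tensors
-/

set_option autoImplicit false
set_option linter.unusedSectionVars false

namespace Pool.Agent.H24FD

open scoped ComplexOrder MatrixOrder
open Matrix

section Act

variable {ι : Type} [Fintype ι] [DecidableEq ι] {sd : Std ι}
  {α β : Type} [Fintype α] [DecidableEq α] [Fintype β] [DecidableEq β]

lemma act_ten (g : Matrix ι ι ℂ) (x : (α → ι) → ℂ) (y : (β → ι) → ℂ) :
    act g (ten x y) = ten (act g x) (act g y) := by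
  funext k
  unfold act ten
  rw [sum_sum, Finset.sum_mul_sum]
  apply Finset.sum_congr rfl
  intro i _
  apply Finset.sum_congr rfl
  intro j _
  rw [Fintype.prod_sum_type]
  simp only [Sum.elim_inl, Sum.elim_inr]
  ring

lemma act_re (g : Matrix ι ι ℂ) (e : α ≃ β) (x : (α → ι) → ℂ) :
    act g (re e x) = re e (act g x) := by
  funext k
  unfold act re
  rw [sum_re e]
  apply Finset.sum_congr rfl
  intro i _
  rw [← e.prod_comp]
  simp

lemma act_empty (g : Matrix ι ι ℂ) (x : (Empty → ι) → ℂ) : act g x = x := by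
  funext k
  unfold act
  rw [Fintype.sum_eq_single k]
  · simp
  · intro l hl
    exact absurd (Subsingleton.elim l k) hl

lemma Sm_sum (F : ι → ι → ℂ) :
    ∑ i, ∑ j, (Sm sd : Matrix ι ι ℂ) i j * F i j = ∑ i, (sd.sg i : ℂ) * F i (sd.st i) := by
  apply Finset.sum_congr rfl
  intro i _
  rw [Finset.sum_eq_single (sd.st i)]
  · rw [Sm, Matrix.of_apply, if_pos rfl]
  · intro j _ hj
    rw [Sm, Matrix.of_apply, if_neg hj, zero_mul]
  · intro h
    exact absurd (Finset.mem_univ _) h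

lemma InG.sum_sg {g : Matrix ι ι ℂ} (hg : InG sd g) (a b : ι) :
    ∑ i, (sd.sg i : ℂ) * (g i a * g (sd.st i) b) = if b = sd.st a then (sd.sg a : ℂ) else 0 := by
  have h1 := inG_transpose sd ((inG_iff sd g).1 hg).1
  have h2 : (Sm sd : Matrix ι ι ℂ) a b = if b = sd.st a then (sd.sg a : ℂ) else 0 := rfl
  rw [← h2]
  conv_rhs => rw [← h1]
  rw [← Sm_sum (fun i j => g i a * g j b), Matrix.mul_apply, Finset.sum_comm]
  apply Finset.sum_congr rfl
  intro j _
  rw [Matrix.mul_apply, Finset.sum_mul]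
  apply Finset.sum_congr rfl
  intro i _
  rw [Matrix.transpose_apply]
  ring

lemma InG.act_ctr {g : Matrix ι ι ℂ} (hg : InG sd g) (x : (Bool ⊕ β → ι) → ℂ) :
    ctr sd (act g x) = act g (ctr sd x) := by
  funext k
  unfold ctr act
  simp only [Finset.mul_sum]
  rw [Finset.sum_comm, sum_sum, Finset.sum_comm]
  apply Finset.sum_congr rfl
  intro j _
  rw [← (Equiv.boolArrowEquivProd ι).symm.sum_comp, Fintype.sum_prod_type]
  have h1 : ∀ a b : ι, ∑ i, (sd.sg i : ℂ) * ((∏ c, g (cons2 i (sd.st i) k c)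
      (Sum.elim ((Equiv.boolArrowEquivProd ι).symm (a, b)) j c)) *
      x (Sum.elim ((Equiv.boolArrowEquivProd ι).symm (a, b)) j)) =
      if b = sd.st a then (sd.sg a : ℂ) * ((∏ c, g (k c) (j c)) *
        x (cons2 a (sd.st a) j)) else 0 := by
    intro a b
    have h2 : ∀ i, (sd.sg i : ℂ) * ((∏ c, g (cons2 i (sd.st i) k c)
      (Sum.elim ((Equiv.boolArrowEquivProd ι).symm (a, b)) j c)) *
      x (Sum.elim ((Equiv.boolArrowEquivProd ι).symm (a, b)) j)) =
      ((sd.sg i : ℂ) * (g i a * g (sd.st i) b)) * ((∏ c, g (k c) (j c)) *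
      x (Sum.elim ((Equiv.boolArrowEquivProd ι).symm (a, b)) j)) := by
      intro i
      rw [Fintype.prod_sum_type, Fintype.prod_bool]
      simp only [Sum.elim_inl, Sum.elim_inr, Equiv.boolArrowEquivProd_symm_apply, cons2, if_true,
        Bool.false_eq_true, if_false]
      ring
    rw [Finset.sum_congr rfl (fun i _ => h2 i), ← Finset.sum_mul, hg.sum_sg]
    by_cases h : b = sd.st a
    · rw [if_pos h, if_pos h]
      subst h
      have h5 : (Sum.elim ((Equiv.boolArrowEquivProd ι).symm (a, sd.st a)) j : Bool ⊕ β → ι) =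
          cons2 a (sd.st a) j := by
        funext c
        rcases c with (_ | _) | b <;> simp [cons2]
      rw [h5]
    · rw [if_neg h, if_neg h, zero_mul]
  simp only [h1, Finset.sum_ite_eq', Finset.mem_univ, if_true]
  apply Finset.sum_congr rfl
  intro a _
  ring

/-- The action as a linear map. -/
noncomputable def actL (g : Matrix ι ι ℂ) (α : Type) [Fintype α] [DecidableEq α] :
    ((α → ι) → ℂ) →ₗ[ℝ] ((α → ι) → ℂ) where
  toFun x := act g x
  map_add' x y := act_add g x y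
  map_smul' r x := by
    have h : ∀ y : (α → ι) → ℂ, r • y = (r : ℂ) • y := fun y => by funext l; simp
    rw [h, act_smul, RingHom.id_apply, h]

lemma InG.isSys_map {g : Matrix ι ι ℂ} (hg : InG sd g)
    {S : ∀ (α : Type) [Fintype α] [DecidableEq α], Submodule ℝ ((α → ι) → ℂ)}
    (h : IsSys sd ℝ S) : IsSys sd ℝ (fun α _ _ => (S α).map (actL g α)) where
  one := ⟨_, h.one, act_empty g (fun _ => 1)⟩
  re {α β _ _ _ _} e x hx := by
    obtain ⟨y, hy, rfl⟩ := hx
    exact ⟨_, h.re e hy, act_re g e y⟩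
  ten {α β _ _ _ _ x y} hx hy := by
    obtain ⟨x, hx, rfl⟩ := hx
    obtain ⟨y, hy, rfl⟩ := hy
    exact ⟨_, h.ten hx hy, act_ten g x y⟩
  ctr {β _ _ x} hx := by
    obtain ⟨x, hx, rfl⟩ := hx
    exact ⟨_, h.ctr hx, (hg.act_ctr x).symm⟩
  cp p := by
    refine ⟨cp sd p, h.cp p, ?_⟩
    exact hg p

lemma InG.isSys_comap {g : Matrix ι ι ℂ} (hg : InG sd g)
    {S : ∀ (α : Type) [Fintype α] [DecidableEq α], Submodule ℝ ((α → ι) → ℂ)}
    (h : IsSys sd ℝ S) : IsSys sd ℝ (fun α _ _ => (S α).comap (actL g α)) where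
  one := by
    change act g (fun _ => 1) ∈ S Empty
    rw [act_empty]
    exact h.one
  re {α β _ _ _ _} e x hx := by
    change act g _ ∈ S β
    rw [act_re]
    exact h.re e hx
  ten {α β _ _ _ _ x y} hx hy := by
    change act g _ ∈ S (α ⊕ β)
    rw [act_ten]
    exact h.ten hx hy
  ctr {β _ _ x} hx := by
    change act g _ ∈ S β
    rw [← hg.act_ctr]
    exact h.ctr hx
  cp p := by
    change act g (cp sd p) ∈ S Bool
    rw [hg p]
    exact h.cp p

/-- The graph of the action. -/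
noncomputable def grS (g : Matrix ι ι ℂ) (α : Type) [Fintype α] [DecidableEq α] :
    Submodule ℝ ((α → ι) → ℂ × ℂ) where
  carrier := {x | f2 x = act g (f1 x)}
  add_mem' {x y} hx hy := by
    change f2 x + f2 y = act g (f1 x + f1 y)
    rw [act_add, hx, hy]
  zero_mem' := by
    change f2 (0 : (α → ι) → ℂ × ℂ) = act g (0 : (α → ι) → ℂ)
    rw [act_zero]
    rfl
  smul_mem' r x hx := by
    have h1 : f1 (r • x) = (r : ℂ) • f1 x := by funext l; simp [f1]
    have h2 : f2 (r • x) = (r : ℂ) • f2 x := by funext l; simp [f2]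
    change f2 (r • x) = act g (f1 (r • x))
    rw [h1, h2, act_smul, hx]

lemma InG.isSys_gr {g : Matrix ι ι ℂ} (hg : InG sd g) : IsSys sd ℝ (fun α _ _ => grS g α) where
  one := (act_empty g (fun _ => 1)).symm
  re {α β _ _ _ _} e x hx := by
    change re e (f2 x) = act g (re e (f1 x))
    rw [act_re, hx]
  ten {α β _ _ _ _ x y} hx hy := by
    change ten (f2 x) (f2 y) = act g (ten (f1 x) (f1 y))
    rw [act_ten, hx, hy]
  ctr {β _ _ x} hx := by
    have h1 : f1 (ctr sd x) = ctr sd (f1 x) := map_ctr (AlgHom.fst ℝ ℂ ℂ) x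
    have h2 : f2 (ctr sd x) = ctr sd (f2 x) := map_ctr (AlgHom.snd ℝ ℂ ℂ) x
    change f2 (ctr sd x) = act g (f1 (ctr sd x))
    rw [h1, h2, ← hg.act_ctr, hx]
  cp p := by
    have h1 : f1 (cp sd p) = cp sd p := map_cp (AlgHom.fst ℝ ℂ ℂ) p
    have h2 : f2 (cp sd p) = cp sd p := map_cp (AlgHom.snd ℝ ℂ ℂ) p
    change f2 (cp sd p) = act g (f1 (cp sd p))
    rw [h1, h2, hg p]

lemma InG.bf_act {g : Matrix ι ι ℂ} (hg : InG sd g) (x y : (α → ι) → ℂ) :
    bf sd (act g x) (act g y) = bf sd x y := by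
  let X : (α → ι) → ℂ × ℂ := fun l => (x l, act g x l)
  let Y : (α → ι) → ℂ × ℂ := fun l => (y l, act g y l)
  have hX : X ∈ grS g α := rfl
  have hY : Y ∈ grS g α := rfl
  have h1 := hg.isSys_gr.bf hX hY
  have h2 : f2 (fun _ : (Empty → ι) => bf sd X Y) = act g (f1 (fun _ => bf sd X Y)) := h1
  rw [act_empty] at h2
  have h3 : (bf sd X Y).2 = (bf sd X Y).1 := congrFun h2 Empty.elim
  rw [bf_f1, bf_f2] at h3
  exact h3

/-- The conjugate of a matrix. -/
noncomputable def tau (sd : Std ι) (g : Matrix ι ι ℂ) : Matrix ι ι ℂ := Matrix.of fun i j =>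
  ((sd.sg (sd.st i) * sd.sg (sd.st j) : ℤ) : ℂ) * starRingEnd ℂ (g (sd.st i) (sd.st j))

lemma cj_act (g : Matrix ι ι ℂ) (x : (α → ι) → ℂ) :
    cj sd (act g x) = act (tau sd g) (cj sd x) := by
  funext i
  unfold cj act
  rw [map_sum, Finset.mul_sum, ← (stE sd α).sum_comp]
  apply Finset.sum_congr rfl
  intro j _
  rw [stE_apply, map_mul, map_prod]
  unfold tau
  simp only [Matrix.of_apply]
  rw [Finset.prod_mul_distrib]
  have h1 : ((∏ a, sd.sg (sd.st (j a)) : ℤ) : ℂ) * ((∏ a, sd.sg (sd.st (j a)) : ℤ) : ℂ) = 1 := by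
    have := prod_sg_sq (sd := sd) (fun a => sd.st (j a))
    exact_mod_cast congrArg (Int.cast : ℤ → ℂ) this
  have h2 : ∏ a, ((sd.sg (sd.st (i a)) * sd.sg (sd.st (j a)) : ℤ) : ℂ) =
      ((∏ a, sd.sg (sd.st (i a)) : ℤ) : ℂ) * ((∏ a, sd.sg (sd.st (j a)) : ℤ) : ℂ) := by
    rw [← Int.cast_mul, ← Finset.prod_mul_distrib]
    push_cast
    rfl
  rw [h2]
  linear_combination (-((∏ a, sd.sg (sd.st (i a)) : ℤ) : ℂ) *
    ((∏ a, starRingEnd ℂ (g (sd.st (i a)) (sd.st (j a)))) *
      starRingEnd ℂ (x fun a => sd.st (j a)))) * h1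

lemma tau_mul {h : Matrix ι ι ℂ} (hh : h * Sm sd * hᵀ = Sm sd) : tau sd h * hᴴ = 1 := by
  ext i j
  have hst : Function.Bijective sd.st := ⟨fun i j h => by rw [← sd.st_st i, h, sd.st_st],
    fun i => ⟨sd.st i, sd.st_st i⟩⟩
  have h2 : (tau sd h * hᴴ) i j = starRingEnd ℂ ((sd.sg (sd.st i) : ℂ) *
      (h * (Sm sd : Matrix ι ι ℂ) * hᵀ) (sd.st i) j) := by
    have h3 : (h * (Sm sd : Matrix ι ι ℂ) * hᵀ) (sd.st i) j =
        ∑ k, (sd.sg k : ℂ) * (h (sd.st i) k * h j (sd.st k)) := by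
      rw [← Sm_sum (fun k l => h (sd.st i) k * h j l), Matrix.mul_apply, Finset.sum_comm]
      apply Finset.sum_congr rfl
      intro l _
      rw [Matrix.mul_apply, Finset.sum_mul]
      apply Finset.sum_congr rfl
      intro k _
      rw [Matrix.transpose_apply]
      ring
    rw [h3, Matrix.mul_apply, map_mul, map_sum, Finset.mul_sum,
      ← (Equiv.ofBijective sd.st hst).sum_comp]
    apply Finset.sum_congr rfl
    intro k _
    rw [Equiv.ofBijective_apply, tau, Matrix.of_apply, Matrix.conjTranspose_apply, sd.st_st,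
      map_mul, map_mul, map_intCast, map_intCast]
    push_cast
    simp only [RCLike.star_def]
    ring
  rw [h2, hh, Sm, Matrix.of_apply, sd.st_st, Matrix.one_apply]
  by_cases hij : i = j
  · rw [if_pos hij, if_pos hij.symm]
    have := congrArg (Int.cast : ℤ → ℂ) (sd.sg_sq (sd.st i))
    push_cast at this
    rw [this, map_one]
  · rw [if_neg hij, if_neg (fun h => hij h.symm), mul_zero, map_zero]

lemma tau_tau {g : Matrix ι ι ℂ} (hg : InG sd g) : tau sd (tau sd g) = g := by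
  have h1 := ((inG_iff sd g).1 hg).2 true
  ext i j
  unfold tau
  simp only [Matrix.of_apply, sd.st_st, map_mul, map_intCast, Complex.conj_conj]
  have h2 := congrFun (congrFun h1 i) j
  rw [Pm, Matrix.mul_diagonal, Matrix.diagonal_mul] at h2
  rw [sd.sg_st, sd.sg_st]
  have h3 : (sd.sg i : ℂ) * sd.sg i = 1 := by
    exact_mod_cast congrArg (Int.cast : ℤ → ℂ) (sd.sg_sq i)
  have h4 : (sd.sg j : ℂ) * sd.sg j = 1 := by
    exact_mod_cast congrArg (Int.cast : ℤ → ℂ) (sd.sg_sq j)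
  cases hi : sd.par i <;> cases hj : sd.par j <;> simp [hi, hj] at h2 ⊢
  · linear_combination (g i j) * (sd.sg j : ℂ) * sd.sg j * h3 + (g i j) * h4
  · simp [h2]
  · simp [← h2]
  · linear_combination (g i j) * (sd.sg j : ℂ) * sd.sg j * h3 + (g i j) * h4

end Act

end Pool.Agent.H24FD
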