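import Pool.Agent.H24FD.Proj

/-!
# Parity and the real structure
-/

set_option autoImplicit false
set_option linter.unusedSectionVars false

namespace Pool.Agent.H24FD

section Par

variable {ι : Type} [Fintype ι] [DecidableEq ι] (sd : Std ι) {R : Type*} [CommRing R]
  {α β : Type} [Fintype α] [DecidableEq α] [Fintype β] [DecidableEq β]

/-- The total sign of the parities. -/
def ps (k : α → ι) : ℤ := ∏ a, if sd.par (k a) then -1 else 1

/-- The parity projector on a slot. -/
def pp (a : α) (p : Bool) (x : (α → ι) → R) : (α → ι) → R :=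
  fun k => if sd.par (k a) = p then x k else 0

lemma pp_eq (a : α) (p : Bool) (x : (α → ι) → R) :
    pp sd a p x = ctr sd (re (Equiv.swap (Sum.inl false) (Sum.inr a)) (ten (cp sd p) x)) := by
  funext k
  unfold ctr re
  have h1 : ∀ i, ten (cp sd p) x (fun c => cons2 i (sd.st i) k
      (Equiv.swap (Sum.inl false) (Sum.inr a) c)) =
      cp sd p (fun b => if b then sd.st i else k a) * x (Function.update k a i) := by
    intro i
    have e1 : (fun b : Bool => cons2 i (sd.st i) k
        (Equiv.swap (Sum.inl false) (Sum.inr a) (Sum.inl b))) =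
        fun b => if b then sd.st i else k a := by
      funext b
      cases b
      · rw [Equiv.swap_apply_left]
        rfl
      · rw [Equiv.swap_apply_of_ne_of_ne (by simp) (by simp)]
        rfl
    have e2 : (fun b : α => cons2 i (sd.st i) k
        (Equiv.swap (Sum.inl false) (Sum.inr a) (Sum.inr b))) = Function.update k a i := by
      funext b
      by_cases hb : b = a
      · subst hb
        rw [Equiv.swap_apply_right, Function.update_self]
        rfl
      · rw [Equiv.swap_apply_of_ne_of_ne (by simp) (by simpa using hb),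
          Function.update_of_ne hb]
        rfl
    rw [← e1, ← e2]
    rfl
  rw [Finset.sum_congr rfl (fun i _ => by rw [h1 i]), Finset.sum_eq_single (k a)]
  · unfold pp cp
    simp only [if_true, Bool.false_eq_true, if_false, and_true, Function.update_eq_self]
    by_cases hp : sd.par (k a) = p
    · rw [if_pos hp, if_pos hp, ← mul_assoc, ← Int.cast_mul, sd.sg_sq, Int.cast_one, one_mul]
    · rw [if_neg hp, if_neg hp, zero_mul, mul_zero]
  · intro i _ hi
    unfold cp
    rw [if_neg, zero_mul, mul_zero]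
    rintro ⟨-, h2⟩
    simp only [if_true, Bool.false_eq_true, if_false] at h2
    exact hi (by rw [← sd.st_st i, h2, sd.st_st])
  · intro h
    exact absurd (Finset.mem_univ _) h

variable {sd} {k : Type*} [CommRing k] [Algebra k R]
  {S : ∀ (α : Type) [Fintype α] [DecidableEq α], Submodule k ((α → ι) → R)}

lemma IsSys.pp (h : IsSys sd k S) {x : (α → ι) → R} (hx : x ∈ S α) (a : α) (p : Bool) :
    pp sd a p x ∈ S α := by
  rw [pp_eq]
  exact h.ctr (h.re _ (h.ten (h.cp p) hx))

lemma IsSys.ppat (h : IsSys sd k S) {x : (α → ι) → R} (hx : x ∈ S α) (π : α → Bool)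
    (s : Finset α) : (fun l => if ∀ a ∈ s, sd.par (l a) = π a then x l else 0) ∈ S α := by
  induction s using Finset.induction_on with
  | empty => simpa using hx
  | insert a s _ ih =>
    have h1 := h.pp ih a (π a)
    convert h1 using 1
    funext l
    unfold H24FD.pp
    by_cases h2 : sd.par (l a) = π a
    · simp [h2]
    · rw [if_neg h2, if_neg]
      intro h3
      exact h2 (h3 a (Finset.mem_insert_self a s))

/-- A system is stable under the multiplication by functions of the parities. -/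
lemma IsSys.par_mul (h : IsSys sd k S) {x : (α → ι) → R} (hx : x ∈ S α)
    (w : (α → Bool) → ℤ) : (fun l => (w (fun a => sd.par (l a)) : R) * x l) ∈ S α := by
  have h1 : (fun l => (w (fun a => sd.par (l a)) : R) * x l) =
      ∑ π : α → Bool, (w π : k) • (fun l => if ∀ a ∈ (Finset.univ : Finset α),
        sd.par (l a) = π a then x l else 0) := by
    funext l
    rw [Finset.sum_apply, Finset.sum_eq_single (fun a => sd.par (l a))]
    · simp [Algebra.smul_def]
    · intro π _ hπ
      rw [Pi.smul_apply, if_neg, smul_zero]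
      intro h2
      exact hπ (funext fun a => (h2 a (Finset.mem_univ a)).symm)
    · intro h2
      exact absurd (Finset.mem_univ _) h2
  rw [h1]
  exact Submodule.sum_mem _ fun π _ => Submodule.smul_mem _ _ (h.ppat hx π _)

lemma IsSys.ps_mul (h : IsSys sd k S) {x : (α → ι) → R} (hx : x ∈ S α) :
    (fun l => (ps sd l : R) * x l) ∈ S α :=
  h.par_mul hx (fun π => ∏ a, if π a then -1 else 1)

lemma ps_sum (i : α → ι) (j : β → ι) : ps sd (Sum.elim i j) = ps sd i * ps sd j := by
  unfold ps
  rw [Fintype.prod_sum_type]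
  rfl

lemma ps_sq (i : α → ι) : ps sd i * ps sd i = 1 := by
  unfold ps
  rw [← Finset.prod_mul_distrib]
  apply Finset.prod_eq_one
  intro a _
  split_ifs <;> norm_num

lemma ps_cons2 (i : ι) (l : β → ι) : ps sd (cons2 i (sd.st i) l) = ps sd l := by
  unfold ps cons2
  rw [Fintype.prod_sum_type, Fintype.prod_bool]
  simp only [Sum.elim_inl, Sum.elim_inr, if_true, Bool.false_eq_true, if_false, sd.par_st]
  rw [show ∀ c : ℤ, ((if sd.par i = true then -1 else 1) * if sd.par i = true then -1 else 1) * c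
    = c by intro c; split_ifs <;> ring]
  rfl

variable (sd) in
/-- The tensors of even total degree. -/
def Ev (x : (α → ι) → R) : Prop := ∀ l, (ps sd l : R) * x l = x l

variable (sd k) in
/-- The system of the tensors of even total degree. -/
def evS (α : Type) [Fintype α] [DecidableEq α] : Submodule k ((α → ι) → R) where
  carrier := {x | Ev sd x}
  add_mem' {x y} hx hy l := by rw [Pi.add_apply, mul_add, hx, hy]
  zero_mem' l := by simp
  smul_mem' r x hx l := by rw [Pi.smul_apply, Algebra.mul_smul_comm, hx]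

lemma isSys_ev : IsSys sd k (R := R) (fun α _ _ => evS sd k α) where
  one l := by simp [ps]
  re {α β _ _ _ _} e x hx l := by
    have h1 := hx (fun a => l (e a))
    have h2 : ps sd (fun a => l (e a)) = ps sd l := by
      unfold ps
      exact e.prod_comp (fun b => if sd.par (l b) then (-1 : ℤ) else 1)
    rw [h2] at h1
    exact h1
  ten {α β _ _ _ _ x y} hx hy l := by
    have h1 : l = Sum.elim (fun a => l (Sum.inl a)) (fun b => l (Sum.inr b)) := by
      funext c; rcases c with a | b <;> rfl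
    rw [h1, ps_sum, ten_apply]
    have h2 := hx (fun a => l (Sum.inl a))
    have h3 := hy (fun b => l (Sum.inr b))
    push_cast
    calc _ = ((ps sd (fun a => l (Sum.inl a)) : R) * x (fun a => l (Sum.inl a))) *
        ((ps sd (fun b => l (Sum.inr b)) : R) * y (fun b => l (Sum.inr b))) := by ring
      _ = _ := by rw [h2, h3]
  ctr {β _ _ x} hx l := by
    unfold H24FD.ctr
    rw [Finset.mul_sum]
    apply Finset.sum_congr rfl
    intro i _
    have h1 := hx (cons2 i (sd.st i) l)
    rw [ps_cons2] at h1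
    rw [mul_left_comm, h1]
  cp p l := by
    unfold H24FD.cp
    split_ifs with h1
    · have h2 : ps sd l = 1 := by
        unfold ps
        rw [Fintype.prod_bool, h1.2, sd.par_st]
        split_ifs <;> norm_num
      rw [h2]; simp
    · simp

lemma prod_sg_st (i : α → ι) : (∏ a, sd.sg (sd.st (i a))) = ps sd i * ∏ a, sd.sg (i a) := by
  unfold ps
  rw [← Finset.prod_mul_distrib]
  apply Finset.prod_congr rfl
  intro a _
  rw [sd.sg_st]

lemma prod_sg_sq (i : α → ι) : (∏ a, sd.sg (i a)) * (∏ a, sd.sg (i a)) = 1 := by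
  rw [← Finset.prod_mul_distrib]
  apply Finset.prod_eq_one
  intro a _
  exact sd.sg_sq _

variable (sd) in
/-- The duality of the indices. -/
def stE (α : Type) : (α → ι) ≃ (α → ι) where
  toFun i a := sd.st (i a)
  invFun i a := sd.st (i a)
  left_inv i := by funext a; exact sd.st_st _
  right_inv i := by funext a; exact sd.st_st _

lemma stE_apply (i : α → ι) : stE sd α i = fun a => sd.st (i a) := rfl

lemma bf_comm {x y : (α → ι) → R} (hx : Ev sd x) : bf sd x y = bf sd y x := by
  unfold bf
  rw [← (stE sd α).sum_comp]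
  apply Finset.sum_congr rfl
  intro i _
  rw [stE_apply]
  simp only [sd.st_st]
  rw [prod_sg_st]
  have h1 := hx (fun a => sd.st (i a))
  have h2 : ps sd (fun a => sd.st (i a)) = ps sd i := by
    unfold ps
    simp only [sd.par_st]
  rw [h2] at h1
  push_cast
  linear_combination ((∏ a, (sd.sg (i a) : R)) * y i) * h1

end Par

section Conj

variable {ι : Type} [Fintype ι] [DecidableEq ι] (sd : Std ι)
  {α β : Type} [Fintype α] [DecidableEq α] [Fintype β] [DecidableEq β]

/-- The real structure on the tensors. -/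
noncomputable def cj (x : (α → ι) → ℂ) : (α → ι) → ℂ := fun i =>
  ((∏ a, sd.sg (sd.st (i a)) : ℤ) : ℂ) * starRingEnd ℂ (x (fun a => sd.st (i a)))

lemma cj_add (x y : (α → ι) → ℂ) : cj sd (x + y) = cj sd x + cj sd y := by
  funext i; simp [cj, mul_add]

lemma cj_smul (r : ℂ) (x : (α → ι) → ℂ) : cj sd (r • x) = (starRingEnd ℂ r) • cj sd x := by
  funext i; simp [cj]; ring

lemma cj_zero : cj sd (0 : (α → ι) → ℂ) = 0 := by
  funext i; simp [cj]

lemma cj_ten (x : (α → ι) → ℂ) (y : (β → ι) → ℂ) :
    cj sd (ten x y) = ten (cj sd x) (cj sd y) := by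
  funext l
  have h1 : l = Sum.elim (fun a => l (Sum.inl a)) (fun b => l (Sum.inr b)) := by
    funext c; rcases c with a | b <;> rfl
  rw [h1, ten_apply]
  unfold cj ten
  rw [Fintype.prod_sum_type]
  simp only [Sum.elim_inl, Sum.elim_inr, map_mul]
  push_cast
  ring

lemma cj_re (e : α ≃ β) (x : (α → ι) → ℂ) : cj sd (re e x) = re e (cj sd x) := by
  funext l
  have h := e.prod_comp (fun b => sd.sg (sd.st (l b)))
  change ((∏ b, sd.sg (sd.st (l b)) : ℤ) : ℂ) * _ =
    ((∏ a, sd.sg (sd.st (l (e a))) : ℤ) : ℂ) * _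
  rw [h]
  rfl

lemma cj_ctr (x : (Bool ⊕ β → ι) → ℂ) : cj sd (ctr sd x) = ctr sd (cj sd x) := by
  funext l
  unfold cj ctr
  rw [map_sum, Finset.mul_sum]
  have hst : Function.Bijective sd.st := ⟨fun i j h => by rw [← sd.st_st i, h, sd.st_st],
    fun i => ⟨sd.st i, sd.st_st i⟩⟩
  conv_rhs => rw [← (Equiv.ofBijective sd.st hst).sum_comp]
  apply Finset.sum_congr rfl
  intro i _
  beta_reduce
  rw [Fintype.prod_sum_type, Fintype.prod_bool]
  simp only [Equiv.ofBijective_apply, sd.st_st, cons2, Sum.elim_inl, Sum.elim_inr, if_true,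
    Bool.false_eq_true, if_false]
  have h1 : (fun a => sd.st (Sum.elim (fun b : Bool => if b = true then i else sd.st i) l a)) =
      Sum.elim (fun b : Bool => if b = true then sd.st i else i) (fun b => sd.st (l b)) := by
    funext c
    rcases c with (_ | _) | b
    · simp [sd.st_st]
    · simp
    · rfl
  rw [h1, map_mul, map_intCast]
  have h2 : (sd.sg (sd.st i) : ℂ) * (sd.sg (sd.st i) : ℂ) = 1 := by
    exact_mod_cast congrArg (Int.cast : ℤ → ℂ) (sd.sg_sq (sd.st i))
  push_cast
  linear_combination (-((sd.sg i : ℂ) * (∏ x, (sd.sg (sd.st (l x)) : ℂ)) * (starRingEnd ℂ)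
    (x (Sum.elim (fun b => if b = true then sd.st i else i) fun b => sd.st (l b))))) * h2

lemma cj_cp (p : Bool) : cj sd (cp sd p) = cp sd p := by
  funext l
  unfold cj cp
  rw [Fintype.prod_bool]
  simp only [sd.par_st, sd.st_st]
  by_cases h1 : sd.par (l false) = p ∧ sd.st (l true) = l false
  · rw [if_pos h1, if_pos ⟨h1.1, by rw [← h1.2, sd.st_st]⟩, map_intCast, h1.2]
    have h2 : l true = sd.st (l false) := by rw [← h1.2, sd.st_st]
    have h3 : (sd.sg (sd.st (l false)) : ℂ) * (sd.sg (sd.st (l false)) : ℂ) = 1 := by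
      exact_mod_cast congrArg (Int.cast : ℤ → ℂ) (sd.sg_sq (sd.st (l false)))
    push_cast
    linear_combination (sd.sg (l false) : ℂ) * h3
  · rw [if_neg h1, if_neg, map_zero, mul_zero]
    rintro ⟨h2, h3⟩
    exact h1 ⟨h2, by rw [h3, sd.st_st]⟩

lemma bf_cj (x y : (α → ι) → ℂ) : bf sd x (cj sd y) = ∑ i, x i * starRingEnd ℂ (y i) := by
  unfold bf cj
  apply Finset.sum_congr rfl
  intro i _
  simp only [sd.st_st]
  have h : ((∏ a, sd.sg (i a) : ℤ) : ℂ) * ((∏ a, sd.sg (i a) : ℤ) : ℂ) = 1 := by
    exact_mod_cast congrArg (Int.cast : ℤ → ℂ) (prod_sg_sq (sd := sd) i)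
  linear_combination (x i * (starRingEnd ℂ) (y i)) * h

lemma cj_cj {x : (α → ι) → ℂ} (hx : Ev sd x) : cj sd (cj sd x) = x := by
  funext i
  unfold cj
  simp only [sd.st_st, map_mul, map_intCast, Complex.conj_conj]
  rw [prod_sg_st]
  have h : ((∏ a, sd.sg (i a) : ℤ) : ℂ) * ((∏ a, sd.sg (i a) : ℤ) : ℂ) = 1 := by
    exact_mod_cast congrArg (Int.cast : ℤ → ℂ) (prod_sg_sq (sd := sd) i)
  have h2 := hx i
  push_cast at h ⊢
  linear_combination ((ps sd i : ℂ) * x i) * h + h2

lemma Ev.cj {x : (α → ι) → ℂ} (hx : Ev sd x) : Ev sd (cj sd x) := by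
  intro i
  unfold H24FD.cj
  have h1 := congrArg (starRingEnd ℂ) (hx (fun a => sd.st (i a)))
  have h2 : ps sd (fun a => sd.st (i a)) = ps sd i := by
    unfold ps
    simp only [sd.par_st]
  rw [h2, map_mul, map_intCast] at h1
  linear_combination (((∏ a, sd.sg (sd.st (i a)) : ℤ) : ℂ)) * h1

/-- The norm. -/
noncomputable def nrm (x : (α → ι) → ℂ) : ℝ := ∑ i, ‖x i‖ ^ 2

lemma bf_cj_self (x : (α → ι) → ℂ) : bf sd x (cj sd x) = (nrm x : ℂ) := by
  rw [bf_cj, nrm]
  push_cast
  apply Finset.sum_congr rfl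
  intro i _
  rw [Complex.mul_conj, Complex.normSq_eq_norm_sq]
  push_cast
  rfl

lemma nrm_nonneg (x : (α → ι) → ℂ) : 0 ≤ nrm x :=
  Finset.sum_nonneg fun _ _ => by positivity

lemma nrm_eq_zero {x : (α → ι) → ℂ} : nrm x = 0 ↔ x = 0 := by
  unfold nrm
  rw [Finset.sum_eq_zero_iff_of_nonneg (fun _ _ => by positivity)]
  constructor
  · intro h
    funext i
    have := h i (Finset.mem_univ i)
    simpa using this
  · rintro rfl i _
    simp

/-- The system of the real tensors of even total degree, as a system of pairs. -/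
noncomputable def rlS (α : Type) [Fintype α] [DecidableEq α] :
    Submodule ℝ ((α → ι) → ℂ × ℂ) where
  carrier := {x | f1 x = f2 x ∧ cj sd (f1 x) = f1 x ∧ Ev sd (f1 x)}
  add_mem' {x y} hx hy := by
    have h1 : f1 (x + y) = f1 x + f1 y := rfl
    have h2 : f2 (x + y) = f2 x + f2 y := rfl
    refine ⟨by rw [h1, h2, hx.1, hy.1], by rw [h1, cj_add, hx.2.1, hy.2.1], ?_⟩
    intro l
    rw [h1, Pi.add_apply, mul_add, hx.2.2, hy.2.2]
  zero_mem' := ⟨rfl, by
    have : f1 (0 : (α → ι) → ℂ × ℂ) = 0 := rfl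
    rw [this, cj_zero], fun l => by simp [f1]⟩
  smul_mem' r x hx := by
    have h1 : f1 (r • x) = (r : ℂ) • f1 x := by funext l; simp [f1]
    have h2 : f2 (r • x) = (r : ℂ) • f2 x := by funext l; simp [f2]
    refine ⟨by rw [h1, h2, hx.1], by rw [h1, cj_smul, hx.2.1, Complex.conj_ofReal], ?_⟩
    intro l
    rw [h1, Pi.smul_apply, smul_eq_mul, mul_left_comm, hx.2.2]

lemma isSys_rl : IsSys sd ℝ (fun α _ _ => rlS sd α) where
  one := by
    refine ⟨rfl, ?_, fun l => by simp [f1, ps]⟩
    funext l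
    simp [cj, f1]
  re {α β _ _ _ _} e x hx := by
    refine ⟨?_, ?_, (isSys_ev (sd := sd) (k := ℝ)).re e hx.2.2⟩
    · change re e (f1 x) = re e (f2 x)
      rw [hx.1]
    · change cj sd (re e (f1 x)) = re e (f1 x)
      rw [cj_re, hx.2.1]
  ten {α β _ _ _ _ x y} hx hy := by
    refine ⟨?_, ?_, (isSys_ev (sd := sd) (k := ℝ)).ten hx.2.2 hy.2.2⟩
    · change ten (f1 x) (f1 y) = ten (f2 x) (f2 y)
      rw [hx.1, hy.1]
    · change cj sd (ten (f1 x) (f1 y)) = ten (f1 x) (f1 y)
      rw [cj_ten, hx.2.1, hy.2.1]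
  ctr {β _ _ x} hx := by
    have h1 : f1 (ctr sd x) = ctr sd (f1 x) := map_ctr (AlgHom.fst ℝ ℂ ℂ) x
    have h2 : f2 (ctr sd x) = ctr sd (f2 x) := map_ctr (AlgHom.snd ℝ ℂ ℂ) x
    refine ⟨by rw [h1, h2, hx.1], by rw [h1, cj_ctr, hx.2.1], ?_⟩
    rw [h1]
    exact (isSys_ev (sd := sd) (k := ℝ)).ctr hx.2.2
  cp p := by
    have h1 : f1 (cp sd p) = cp sd p := map_cp (AlgHom.fst ℝ ℂ ℂ) p
    have h2 : f2 (cp sd p) = cp sd p := map_cp (AlgHom.snd ℝ ℂ ℂ) p
    refine ⟨by rw [h1, h2], by rw [h1, cj_cp], ?_⟩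
    rw [h1]
    exact (isSys_ev (sd := sd) (k := ℝ)).cp p

/-- The system generated by the form alone. -/
noncomputable def br (α : Type) [Fintype α] [DecidableEq α] :
    Submodule ℝ ((α → ι) → ℂ × ℂ) :=
  gen sd ℝ (I := Empty) (A := fun _ => Empty) (fun i => i.elim) α

lemma br_le {α : Type} [Fintype α] [DecidableEq α] {x : (α → ι) → ℂ × ℂ}
    (hx : x ∈ br sd α) : x ∈ rlS sd α := gen_le (isSys_rl sd) (fun i => i.elim) hx

lemma npair_br : NPair sd (fun α _ _ => br sd α) where
  sys := isSys_gen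
  real x hx := by
    obtain ⟨h1, h2, -⟩ := br_le sd hx
    have h3 := congrFun h2 Empty.elim
    unfold cj at h3
    have h4 : (fun a : Empty => sd.st ((Empty.elim : Empty → ι) a)) = Empty.elim := by
      funext a; exact a.elim
    rw [h4] at h3
    simp only [Finset.univ_eq_empty, Finset.prod_empty, Int.cast_one, one_mul] at h3
    obtain ⟨r, hr⟩ := Complex.conj_eq_iff_real.1 h3
    refine ⟨r, ?_⟩
    funext l
    have h5 : l = Empty.elim := by funext a; exact a.elim
    subst h5
    refine Prod.ext hr ?_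
    have := congrFun h1 Empty.elim
    exact this.symm.trans hr
  nd α _ _ x hx hy := by
    obtain ⟨h1, h2, -⟩ := br_le sd hx
    have h3 := hy x hx
    have h4 : bf sd (f1 x) (f1 x) = (nrm (f1 x) : ℂ) := by
      conv_lhs => rw [← h2]
      rw [← bf_cj_self sd, h2]
    rw [h4] at h3
    have h5 : f1 x = 0 := nrm_eq_zero.1 (by exact_mod_cast h3)
    funext l
    exact Prod.ext (congrFun h5 l) (by
      have := congrFun (h1.symm.trans h5) l
      exact this)
  symm α _ _ x hx y _ := bf_comm (br_le sd hx).2.2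

end Conj

end Pool.Agent.H24FD
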