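import Pool.Agent.H24FD.SysG

/-!
# Ordered products of vectors placed in slots
-/

set_option autoImplicit false
set_option linter.unusedSectionVars false

universe v w

namespace Pool.Agent.H24FD

section Sums

variable {ι : Type} [Fintype ι] [DecidableEq ι] {α β : Type} [Fintype α] [DecidableEq α]
  [Fintype β] [DecidableEq β] {M : Type*} [AddCommMonoid M]

lemma sumM_sum (f : (α ⊕ β → ι) → M) :
    ∑ k, f k = ∑ i : α → ι, ∑ j : β → ι, f (Sum.elim i j) := by
  rw [← (Equiv.sumArrowEquivProdArrow α β ι).symm.sum_comp, Fintype.sum_prod_type]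
  rfl

lemma sumM_re (e : α ≃ β) (f : (β → ι) → M) :
    ∑ k : β → ι, f k = ∑ i : α → ι, f (fun b => i (e.symm b)) := by
  rw [← (e.arrowCongr (Equiv.refl ι)).sum_comp]
  rfl

lemma sumM_option (f : (Option α → ι) → M) :
    ∑ k, f k = ∑ i : α → ι, ∑ j : ι, f (fun o => o.elim j i) := by
  let e : (Option α → ι) ≃ (α → ι) × ι :=
    { toFun := fun k => (fun a => k (some a), k none)
      invFun := fun p o => o.elim p.2 p.1
      left_inv := fun k => by funext o; cases o <;> rfl
      right_inv := fun p => rfl }
  rw [← e.symm.sum_comp, Fintype.sum_prod_type]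
  rfl

end Sums

section Cle

variable {K : Type v} [Field K] {H : Type w} [Ring H] [Algebra K H] {ι κ : Type}
  {α β γ : Type}

/-- The ordered product. -/
def mono (E : α → ι → H) (L : List α) (r : α → ι) : H := (L.map fun a => E a (r a)).prod

/-- The element with the given coefficients. -/
def cle [Fintype ι] [Fintype α] [DecidableEq α] (E : α → ι → H) (L : List α)
    (x : (α → ι) → K) : H :=
  ∑ r : α → ι, x r • mono E L r

lemma mono_nil (E : α → ι → H) (r : α → ι) : mono E [] r = 1 := rfl

lemma mono_cons (E : α → ι → H) (a : α) (L : List α) (r : α → ι) :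
    mono E (a :: L) r = E a (r a) * mono E L r := by
  simp [mono]

lemma mono_append (E : α → ι → H) (L L' : List α) (r : α → ι) :
    mono E (L ++ L') r = mono E L r * mono E L' r := by
  simp [mono]

lemma mono_map (E : β → ι → H) (g : α → β) (L : List α) (r : β → ι) :
    mono E (L.map g) r = mono (fun a => E (g a)) L (fun a => r (g a)) := by
  simp [mono, List.map_map, Function.comp_def]

lemma mono_congr {E : α → ι → H} {L : List α} {r r' : α → ι} (h : ∀ a ∈ L, r a = r' a) :
    mono E L r = mono E L r' := by
  unfold mono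
  congr 1
  apply List.map_congr_left
  intro a ha
  rw [h a ha]

variable {H' : Type*} [Ring H'] [Algebra K H']

lemma map_mono (φ : H →ₐ[K] H') (E : α → ι → H) (L : List α) (r : α → ι) :
    φ (mono E L r) = mono (fun a i => φ (E a i)) L r := by
  unfold mono
  rw [map_list_prod, List.map_map]
  rfl

variable [Fintype ι] [DecidableEq ι] [Fintype α] [DecidableEq α] [Fintype β] [DecidableEq β]

lemma map_cle (φ : H →ₐ[K] H') (E : α → ι → H) (L : List α) (x : (α → ι) → K) :
    φ (cle E L x) = cle (fun a i => φ (E a i)) L x := by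
  unfold cle
  rw [map_sum]
  apply Finset.sum_congr rfl
  intro r _
  rw [map_smul, map_mono]

lemma cle_add (E : α → ι → H) (L : List α) (x y : (α → ι) → K) :
    cle E L (x + y) = cle E L x + cle E L y := by
  simp only [cle, Pi.add_apply, add_smul, Finset.sum_add_distrib]

lemma cle_smul (E : α → ι → H) (L : List α) (c : K) (x : (α → ι) → K) :
    cle E L (c • x) = c • cle E L x := by
  simp only [cle, Pi.smul_apply, Finset.smul_sum, smul_smul, smul_eq_mul]

lemma cle_zero (E : α → ι → H) (L : List α) : cle E L (0 : (α → ι) → K) = 0 := by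
  simp [cle]

lemma cle_sum {T : Type*} (s : Finset T) (E : α → ι → H) (L : List α)
    (x : T → (α → ι) → K) : cle E L (∑ t ∈ s, x t) = ∑ t ∈ s, cle E L (x t) := by
  classical
  induction s using Finset.induction_on with
  | empty => simp [cle_zero]
  | insert a s ha ih => rw [Finset.sum_insert ha, Finset.sum_insert ha, cle_add, ih]

lemma cle_re (e : α ≃ β) (E : β → ι → H) (L : List α) (x : (α → ι) → K) :
    cle E (L.map e) (re e x) = cle (fun a => E (e a)) L x := by
  unfold cle
  rw [sumM_re e]
  apply Finset.sum_congr rfl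
  intro r _
  rw [mono_map]
  simp [re]

lemma cle_ten (E : α ⊕ β → ι → H) (L : List α) (L' : List β) (x : (α → ι) → K)
    (y : (β → ι) → K) : cle E (L.map Sum.inl ++ L'.map Sum.inr) (ten x y) =
      cle (fun a => E (Sum.inl a)) L x * cle (fun b => E (Sum.inr b)) L' y := by
  unfold cle
  rw [sumM_sum, Finset.sum_mul_sum]
  apply Finset.sum_congr rfl
  intro i _
  apply Finset.sum_congr rfl
  intro j _
  rw [mono_append, mono_map, mono_map, ten_apply, smul_mul_smul_comm]
  rfl

/-- Vectors which commute up to the sign given by the parities. -/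
def SC (K : Type v) [Field K] [Algebra K H] (p : ι → Bool) (E : α → ι → H) : Prop :=
  ∀ a a' i i', E a i * E a' i' = (if p i && p i' then (-1 : K) else 1) • (E a' i' * E a i)

/-- The dependence on the order. -/
lemma exists_perm [CharZero K] {L L' : List α} (h : L.Perm L') : ∃ w : (α → Bool) → ℚ,
    (∀ q, w q * w q = 1) ∧ ∀ {H : Type w} [Ring H] [Algebra K H] (p : ι → Bool)
      (E : α → ι → H), SC K p E → ∀ r : α → ι, mono E L r =
        (w (fun a => p (r a)) : K) • mono E L' r := by
  induction h with
  | nil => exact ⟨fun _ => 1, fun _ => by norm_num, fun _ _ _ _ => by simp [mono_nil]⟩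
  | cons a _ ih =>
    obtain ⟨w, hw, hw'⟩ := ih
    refine ⟨w, hw, fun p E hE r => ?_⟩
    rw [mono_cons, mono_cons, hw' p E hE r, mul_smul_comm]
  | swap a b L =>
    refine ⟨fun q => if q b && q a then -1 else 1, fun q => by beta_reduce; split_ifs <;> norm_num,
      fun p E hE r => ?_⟩
    rw [mono_cons, mono_cons, mono_cons, mono_cons, ← mul_assoc, ← mul_assoc, hE b a,
      smul_mul_assoc]
    congr 1
    beta_reduce
    split_ifs
    · rw [Rat.cast_neg, Rat.cast_one]
    · rw [Rat.cast_one]
  | trans _ _ ih1 ih2 =>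
    obtain ⟨w, hw, hw'⟩ := ih1
    obtain ⟨u, hu, hu'⟩ := ih2
    refine ⟨fun q => w q * u q, fun q => ?_, fun p E hE r => ?_⟩
    · linear_combination hw q * (u q * u q) + hu q
    · rw [hw' p E hE r, hu' p E hE r, smul_smul, Rat.cast_mul]

end Cle

end Pool.Agent.H24FD
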