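import Mathlib

/-!
# Functions killed by enough derivations

Let `𝔞` be an ideal of a polynomial ring over a field of characteristic zero which is stable under
derivations that span the tangent space of the scheme of zeros of `𝔞` at a point `h`. Then a
function which vanishes at `h` and is mapped by the derivations to `𝔞` lies in the sum of `𝔞` and
any power of the maximal ideal of `h`. This is the argument of Cartier's theorem.
-/

set_option autoImplicit false
set_option linter.unusedSectionVars false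

namespace Pool.Agent.H24FD

open MvPolynomial

section Euler

variable {σ : Type} [Fintype σ] [DecidableEq σ] (h : σ → ℂ)

/-- The maximal ideal of a point. -/
noncomputable def mx : Ideal (MvPolynomial σ ℂ) := RingHom.ker (eval h)

lemma mem_mx {a : MvPolynomial σ ℂ} : a ∈ mx h ↔ eval h a = 0 := RingHom.mem_ker

lemma t_mem (s : σ) : (X s - C (h s) : MvPolynomial σ ℂ) ∈ mx h := by
  rw [mem_mx, map_sub, eval_X, eval_C, sub_self]

lemma sub_mem_mx (a : MvPolynomial σ ℂ) : a - C (eval h a) ∈ mx h := by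
  rw [mem_mx, map_sub, eval_C, sub_self]

/-- The expansion to the first order. -/
lemma taylor (a : MvPolynomial σ ℂ) : a - C (eval h a) -
    ∑ s, C (eval h (pderiv s a)) * (X s - C (h s)) ∈ mx h ^ 2 := by
  induction a using MvPolynomial.induction_on with
  | C c => simp
  | add p q hp hq =>
    have := Ideal.add_mem _ hp hq
    convert this using 1
    simp only [map_add, add_mul, Finset.sum_add_distrib]
    ring
  | mul_X p s hp =>
    have h1 : (p - C (eval h p)) * (X s - C (h s)) ∈ mx h ^ 2 := by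
      rw [pow_two]
      exact Ideal.mul_mem_mul (sub_mem_mx h p) (t_mem h s)
    have h2 := Ideal.add_mem _ h1 (Ideal.mul_mem_left _ (C (h s)) hp)
    convert h2 using 1
    have h3 : ∑ i, C (eval h (pderiv i (p * X s))) * (X i - C (h i)) =
        C (h s) * ∑ i, C (eval h (pderiv i p)) * (X i - C (h i)) +
          C (eval h p) * (X s - C (h s)) := by
      have h4 : ∀ i, C (eval h (pderiv i (p * X s))) * (X i - C (h i)) =
          C (h s) * (C (eval h (pderiv i p)) * (X i - C (h i))) +
            (if s = i then C (eval h p) * (X i - C (h i)) else 0) := by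
        intro i
        rw [Derivation.leibniz, pderiv_X, Pi.single_apply]
        split_ifs with hi
        · simp only [smul_eq_mul, map_add, map_mul, eval_X, map_one]
          ring
        · simp only [smul_eq_mul, map_add, map_mul, eval_X, map_zero]
          ring
      rw [Finset.sum_congr rfl (fun i _ => h4 i), Finset.sum_add_distrib, ← Finset.mul_sum,
        Finset.sum_ite_eq Finset.univ s, if_pos (Finset.mem_univ _)]
    rw [h3]
    simp only [map_mul, eval_X]
    ring

/-- The chain rule. -/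
lemma chain (D : Derivation ℂ (MvPolynomial σ ℂ) (MvPolynomial σ ℂ)) (a : MvPolynomial σ ℂ) :
    D a = ∑ s, pderiv s a * D (X s) := by
  induction a using MvPolynomial.induction_on with
  | C c => simp [MvPolynomial.derivation_C]
  | add p q hp hq =>
    simp only [map_add, add_mul, Finset.sum_add_distrib, hp, hq]
  | mul_X p s hp =>
    rw [Derivation.leibniz, hp]
    have h4 : ∀ i, pderiv i (p * X s) * D (X i) =
        X s * (pderiv i p * D (X i)) + (if s = i then p * D (X i) else 0) := by
      intro i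
      rw [Derivation.leibniz, pderiv_X, Pi.single_apply]
      split_ifs with hi
      · simp only [smul_eq_mul]; ring
      · simp only [smul_eq_mul]; ring
    rw [Finset.sum_congr rfl (fun i _ => h4 i), Finset.sum_add_distrib, ← Finset.mul_sum,
      Finset.sum_ite_eq Finset.univ s, if_pos (Finset.mem_univ _)]
    simp only [smul_eq_mul]
    ring

/-- The differential at the point. -/
noncomputable def dif : MvPolynomial σ ℂ →ₗ[ℂ] Module.Dual ℂ (σ → ℂ) where
  toFun a := ∑ s, eval h (pderiv s a) • LinearMap.proj s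
  map_add' a b := by
    simp only [map_add, add_smul, Finset.sum_add_distrib]
  map_smul' c a := by
    simp only [Derivation.map_smul, smul_eval, RingHom.id_apply, Finset.smul_sum, mul_smul]

lemma dif_apply (a : MvPolynomial σ ℂ) (Y : σ → ℂ) :
    dif h a Y = ∑ s, eval h (pderiv s a) * Y s := by
  simp [dif, LinearMap.sum_apply]

lemma dif_single (a : MvPolynomial σ ℂ) (s : σ) :
    dif h a (Pi.single s 1) = eval h (pderiv s a) := by
  rw [dif_apply, Finset.sum_eq_single s]
  · simp
  · intro t _ hts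
    rw [Pi.single_apply, if_neg hts, mul_zero]
  · intro hs
    exact absurd (Finset.mem_univ _) hs

theorem euler {𝔞 : Ideal (MvPolynomial σ ℂ)} (ha : ∀ a ∈ 𝔞, eval h a = 0)
    (𝔇 : Set (Derivation ℂ (MvPolynomial σ ℂ) (MvPolynomial σ ℂ)))
    (hD : ∀ D ∈ 𝔇, ∀ a ∈ 𝔞, D a ∈ 𝔞)
    (hT : ∀ Y : σ → ℂ, (∀ a ∈ 𝔞, dif h a Y = 0) → ∃ D ∈ 𝔇, ∀ s, eval h (D (X s)) = Y s)
    {f : MvPolynomial σ ℂ} (hf : eval h f = 0) (hDf : ∀ D ∈ 𝔇, D f ∈ 𝔞) (r : ℕ) :
    f ∈ mx h ^ r ⊔ 𝔞 := by
  set Φ : Submodule ℂ (Module.Dual ℂ (σ → ℂ)) := (𝔞.restrictScalars ℂ).map (dif h) with hΦ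
  set L : Submodule ℂ (σ → ℂ) := Φ.dualCoannihilator with hL
  have hLmem : ∀ Y, Y ∈ L ↔ ∀ a ∈ 𝔞, dif h a Y = 0 := by
    intro Y
    rw [hL, Submodule.mem_dualCoannihilator]
    constructor
    · intro h1 a ha
      exact h1 _ ⟨a, ha, rfl⟩
    · rintro h1 _ ⟨a, ha, rfl⟩
      exact h1 a ha
  have hΦL : ∀ ψ : Module.Dual ℂ (σ → ℂ), (∀ Y ∈ L, ψ Y = 0) → ∃ a ∈ 𝔞, dif h a = ψ := by
    intro ψ hψ
    have h1 : ψ ∈ Φ.dualCoannihilator.dualAnnihilator := (Submodule.mem_dualAnnihilator ψ).2 hψ
    rw [Subspace.dualCoannihilator_dualAnnihilator_eq] at h1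
    obtain ⟨a, ha, rfl⟩ := h1
    exact ⟨a, ha, rfl⟩
  let b := Module.finBasis ℂ L
  obtain ⟨ρ, hρ⟩ := L.subtype.exists_leftInverse_of_injective (LinearMap.ker_eq_bot.2
    L.injective_subtype)
  choose D hDm hDb using fun i => hT (b i) ((hLmem _).1 (b i).2)
  set x : Fin (Module.finrank ℂ L) → MvPolynomial σ ℂ :=
    fun i => ∑ s, C (b.coord i (ρ (Pi.single s 1))) * (X s - C (h s)) with hx
  have hxm : ∀ i, x i ∈ mx h := fun i => Ideal.sum_mem _ fun s _ =>
    Ideal.mul_mem_left _ _ (t_mem h s)
  set E : Derivation ℂ (MvPolynomial σ ℂ) (MvPolynomial σ ℂ) := ∑ i, x i • D i with hE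
  have hEa : ∀ a, E a = ∑ i, x i * D i a := by
    intro a
    have h1 := congrFun (map_sum (Derivation.coeFnAddMonoidHom (R := ℂ) (A := MvPolynomial σ ℂ)
      (M := MvPolynomial σ ℂ)) (fun i => x i • D i) Finset.univ) a
    rw [Finset.sum_apply] at h1
    exact h1
  have ham : 𝔞 ≤ mx h := fun a h1 => (mem_mx h).2 (ha a h1)
  have hE𝔞 : ∀ a ∈ 𝔞, E a ∈ 𝔞 := by
    intro a h1
    rw [hEa]
    exact Ideal.sum_mem _ fun i _ => Ideal.mul_mem_left _ _ (hD _ (hDm i) a h1)
  -- the first order
  have key1 : ∀ a ∈ mx h, a - E a ∈ mx h ^ 2 ⊔ 𝔞 := by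
    intro a h1
    rw [mem_mx] at h1
    obtain ⟨a', ha', hda⟩ := hΦL (dif h a - (dif h a) ∘ₗ L.subtype ∘ₗ ρ) (by
      intro Y hY
      have h2 : ρ Y = ⟨Y, hY⟩ := LinearMap.congr_fun hρ ⟨Y, hY⟩
      rw [LinearMap.sub_apply, LinearMap.comp_apply, LinearMap.comp_apply, h2]
      simp)
    have e1 : a - ∑ s, C (dif h a (Pi.single s 1)) * (X s - C (h s)) ∈ mx h ^ 2 := by
      have := taylor h a
      rw [h1, C_0, sub_zero] at this
      simpa only [dif_single] using this
    have e2 : a' - ∑ s, C (dif h a' (Pi.single s 1)) * (X s - C (h s)) ∈ mx h ^ 2 := by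
      have := taylor h a'
      rw [ha a' ha', C_0, sub_zero] at this
      simpa only [dif_single] using this
    have e3 : E a - ∑ i, x i * C (dif h a (b i)) ∈ mx h ^ 2 := by
      rw [hEa, ← Finset.sum_sub_distrib]
      apply Ideal.sum_mem
      intro i _
      rw [← mul_sub, pow_two]
      apply Ideal.mul_mem_mul (hxm i)
      have h2 : dif h a (b i) = eval h (D i a) := by
        rw [dif_apply, chain (D i) a, map_sum]
        apply Finset.sum_congr rfl
        intro s _
        rw [map_mul, hDb]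
      rw [h2]
      exact sub_mem_mx h _
    have e4 : ∑ i, x i * C (dif h a (b i)) =
        ∑ s, C (dif h a (ρ (Pi.single s 1))) * (X s - C (h s)) := by
      rw [hx]
      simp only [Finset.sum_mul]
      rw [Finset.sum_comm]
      apply Finset.sum_congr rfl
      intro s _
      have h2 : dif h a (ρ (Pi.single s 1)) =
          ∑ i, b.coord i (ρ (Pi.single s 1)) * dif h a (b i) := by
        conv_lhs => rw [← b.sum_repr (ρ (Pi.single s 1))]
        rw [Submodule.coe_sum, map_sum]
        apply Finset.sum_congr rfl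
        intro i _
        rw [Submodule.coe_smul, map_smul]
        rfl
      rw [h2, map_sum, Finset.sum_mul]
      apply Finset.sum_congr rfl
      intro i _
      rw [map_mul]
      ring
    have e5 : ∀ s, dif h a' (Pi.single s 1) = dif h a (Pi.single s 1) -
        dif h a (ρ (Pi.single s 1)) := by
      intro s
      rw [hda]
      rfl
    have e6 : a - E a = (a - ∑ s, C (dif h a (Pi.single s 1)) * (X s - C (h s))) -
        (E a - ∑ i, x i * C (dif h a (b i))) -
        (a' - ∑ s, C (dif h a' (Pi.single s 1)) * (X s - C (h s))) + a' := by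
      rw [e4]
      simp only [e5, map_sub, sub_mul, Finset.sum_sub_distrib]
      ring
    rw [e6]
    exact Ideal.add_mem _ (Submodule.mem_sup_left (Ideal.sub_mem _ (Ideal.sub_mem _ e1 e3) e2))
      (Submodule.mem_sup_right ha')
  -- all orders
  have key2 : ∀ (r : ℕ), ∀ c ∈ mx h ^ r, E c - (r : MvPolynomial σ ℂ) * c ∈
      mx h ^ (r + 1) ⊔ 𝔞 := by
    intro r
    induction r with
    | zero =>
      intro c _
      rw [Nat.cast_zero, zero_mul, sub_zero, hEa]
      exact Submodule.mem_sup_left (Ideal.sum_mem _ fun i _ => by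
        rw [zero_add, pow_one]; exact Ideal.mul_mem_right _ _ (hxm i))
    | succ r ih =>
      intro c hc
      rw [pow_succ'] at hc
      refine Submodule.mul_induction_on hc ?_ ?_
      · intro a ha1 c hc1
        have h1 := key1 a ha1
        have h2 := ih c hc1
        have h3 : E (a * c) - ((r + 1 : ℕ) : MvPolynomial σ ℂ) * (a * c) =
            a * (E c - (r : MvPolynomial σ ℂ) * c) - (a - E a) * c := by
          rw [Derivation.leibniz]
          simp only [smul_eq_mul]
          push_cast
          ring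
        rw [h3]
        apply Ideal.sub_mem
        · obtain ⟨p, hp, q, hq, hpq⟩ := Submodule.mem_sup.1 h2
          rw [← hpq, mul_add]
          refine Ideal.add_mem _ (Submodule.mem_sup_left ?_) (Submodule.mem_sup_right
            (Ideal.mul_mem_left _ _ hq))
          rw [pow_succ' _ (r + 1)]
          exact Ideal.mul_mem_mul ha1 hp
        · obtain ⟨p, hp, q, hq, hpq⟩ := Submodule.mem_sup.1 h1
          rw [← hpq, add_mul]
          refine Ideal.add_mem _ (Submodule.mem_sup_left ?_) (Submodule.mem_sup_right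
            (Ideal.mul_mem_right _ _ hq))
          have := Ideal.mul_mem_mul hp hc1
          rwa [← pow_add, show 2 + r = r + 1 + 1 by ring] at this
      · intro p q hp hq
        rw [map_add, mul_add]
        have := Ideal.add_mem _ hp hq
        convert this using 1
        ring
  induction r with
  | zero =>
    rw [pow_zero, Ideal.one_eq_top, top_sup_eq]
    exact Submodule.mem_top
  | succ r ih =>
    rcases Nat.eq_zero_or_pos r with rfl | hr
    · rw [zero_add, pow_one]
      exact Submodule.mem_sup_left ((mem_mx h).2 hf)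
    obtain ⟨p, hp, q, hq, hpq⟩ := Submodule.mem_sup.1 ih
    have h1 : E f ∈ 𝔞 := by
      rw [hEa]
      exact Ideal.sum_mem _ fun i _ => Ideal.mul_mem_left _ _ (hDf _ (hDm i))
    have h2 : E p ∈ 𝔞 := by
      have : E p = E f - E q := by rw [← hpq, map_add, add_sub_cancel_right]
      rw [this]
      exact Ideal.sub_mem _ h1 (hE𝔞 q hq)
    have h3 := Ideal.sub_mem _ (Submodule.mem_sup_right (S := mx h ^ (r + 1)) h2) (key2 r p hp)
    rw [sub_sub_cancel] at h3
    have h4 : p = C ((r : ℂ)⁻¹) * ((r : MvPolynomial σ ℂ) * p) := by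
      have h5 : (r : MvPolynomial σ ℂ) = C (r : ℂ) := by simp
      rw [h5, ← mul_assoc, ← C_mul, inv_mul_cancel₀ (by exact_mod_cast hr.ne'), C_1, one_mul]
    rw [← hpq]
    refine Ideal.add_mem _ ?_ (Submodule.mem_sup_right hq)
    rw [h4]
    exact Ideal.mul_mem_left _ _ h3

/-- A function which lies in all the sums of an ideal and of the powers of the maximal ideals of its
zeros lies in the ideal. -/
theorem mem_of_forall_mem {𝔞 : Ideal (MvPolynomial σ ℂ)} {f : MvPolynomial σ ℂ}
    (hf : ∀ h : σ → ℂ, (∀ a ∈ 𝔞, eval h a = 0) → ∀ r : ℕ, f ∈ mx h ^ r ⊔ 𝔞) : f ∈ 𝔞 := by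
  by_contra hfa
  set J : Ideal (MvPolynomial σ ℂ) := 𝔞.colon {f} with hJ
  have hJne : J ≠ ⊤ := by
    intro h1
    have h2 : (1 : MvPolynomial σ ℂ) ∈ J := by rw [h1]; exact Submodule.mem_top
    rw [hJ, Submodule.mem_colon_singleton, smul_eq_mul] at h2
    rw [one_mul] at h2
    exact hfa h2
  obtain ⟨M, hM, hJM⟩ := Ideal.exists_le_maximal J hJne
  obtain ⟨h, hh⟩ := MvPolynomial.isMaximal_iff_eq_vanishingIdeal_singleton.1 hM
  have hMm : M = mx h := by
    ext a
    rw [hh, MvPolynomial.mem_vanishingIdeal_iff, mem_mx]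
    constructor
    · intro h1; exact h1 h rfl
    · rintro h1 _ rfl; exact h1
  have h𝔞J : 𝔞 ≤ J := by
    intro a ha
    rw [hJ, Submodule.mem_colon_singleton, smul_eq_mul]
    exact Ideal.mul_mem_right _ _ ha
  have h1 := hf h (fun a ha => by
    have := hJM (h𝔞J ha)
    rwa [hMm, mem_mx] at this)
  -- the Krull intersection theorem in the quotient
  set π := Ideal.Quotient.mk 𝔞 with hπ
  have h2 : π f ∈ (⨅ i : ℕ, ((mx h).map π) ^ i • ⊤ :
      Submodule (MvPolynomial σ ℂ ⧸ 𝔞) (MvPolynomial σ ℂ ⧸ 𝔞)) := by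
    rw [Submodule.mem_iInf]
    intro r
    obtain ⟨p, hp, q, hq, hpq⟩ := Submodule.mem_sup.1 (h1 r)
    rw [← hpq, map_add, Ideal.Quotient.eq_zero_iff_mem.2 hq, add_zero, ← Ideal.map_pow]
    have h3 : π p ∈ ((mx h) ^ r).map π := Ideal.mem_map_of_mem _ hp
    simpa using h3
  rw [Ideal.mem_iInf_smul_pow_eq_bot_iff] at h2
  obtain ⟨⟨s, hs⟩, hs'⟩ := h2
  obtain ⟨s', hs'm, rfl⟩ := (Ideal.mem_map_iff_of_surjective π
    Ideal.Quotient.mk_surjective).1 hs
  have h3 : (1 - s') ∈ J := by
    rw [hJ, Submodule.mem_colon_singleton, smul_eq_mul, ← Ideal.Quotient.eq_zero_iff_mem, map_mul, map_sub,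
      map_one, sub_mul, one_mul, sub_eq_zero]
    exact hs'.symm
  have h4 := hJM h3
  rw [hMm] at h4
  have h5 := Ideal.add_mem _ h4 hs'm
  rw [sub_add_cancel, mem_mx, map_one] at h5
  exact one_ne_zero h5

end Euler

end Pool.Agent.H24FD
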