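import Pool.Agent.H24FD.Fun
import Pool.Agent.H24FD.Euler

/-!
# The double centralizer theorem for systems of tensors
-/

set_option autoImplicit false
set_option linter.unusedSectionVars false

namespace Pool.Agent.H24FD

open MvPolynomial Matrix

section Matrices

variable {ι : Type} [Fintype ι] [DecidableEq ι] (sd : Std ι) {R : Type*} [CommRing R]

/-- The matrix of the form. -/
def Sm : Matrix ι ι R := Matrix.of fun i j => if j = sd.st i then (sd.sg i : R) else 0

lemma Sm_mul_transpose : (Sm sd : Matrix ι ι R) * (Sm sd)ᵀ = 1 := by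
  ext i j
  rw [Matrix.mul_apply, Finset.sum_eq_single (sd.st i)]
  · rw [Matrix.transpose_apply, Sm, Matrix.of_apply, Matrix.of_apply, if_pos rfl]
    by_cases h : i = j
    · subst h
      rw [if_pos rfl, Matrix.one_apply_eq]
      exact_mod_cast congrArg (Int.cast : ℤ → R) (sd.sg_sq i)
    · rw [if_neg, mul_zero, Matrix.one_apply_ne h]
      intro h1
      exact h (by rw [← sd.st_st i, h1, sd.st_st])
  · intro l _ hl
    rw [Sm, Matrix.of_apply, if_neg hl, zero_mul]
  · intro h
    exact absurd (Finset.mem_univ _) h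

lemma Sm_transpose_mul : (Sm sd : Matrix ι ι R)ᵀ * Sm sd = 1 :=
  mul_eq_one_comm.1 (Sm_mul_transpose sd)

/-- Matrices as tensors. -/
lemma act_bool (g M : Matrix ι ι R) : act g (fun k : Bool → ι => M (k false) (k true)) =
    fun k => (g * M * gᵀ) (k false) (k true) := by
  funext k
  unfold act
  rw [← (Equiv.boolArrowEquivProd ι).symm.sum_comp, Fintype.sum_prod_type, Matrix.mul_apply]
  simp only [Matrix.mul_apply, Finset.sum_mul, Matrix.transpose_apply]
  rw [Finset.sum_comm]
  apply Finset.sum_congr rfl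
  intro i _
  apply Finset.sum_congr rfl
  intro j _
  rw [Fintype.prod_bool]
  simp only [Equiv.boolArrowEquivProd_symm_apply, if_true, Bool.false_eq_true, if_false]
  ring

lemma cp_sum (k : Bool → ι) : (cp sd false k + cp sd true k : R) = Sm sd (k false) (k true) := by
  unfold cp
  rw [Sm, Matrix.of_apply]
  by_cases h : k true = sd.st (k false)
  · cases h1 : sd.par (k false) <;> simp [h]
  · simp [h]

/-- The part of the matrix of the form of a given parity. -/
def Cm (p : Bool) : Matrix ι ι R := Matrix.of fun i j =>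
  if sd.par i = p ∧ j = sd.st i then (sd.sg i : R) else 0

lemma cp_eq (p : Bool) : (cp sd p : (Bool → ι) → R) = fun k => Cm sd p (k false) (k true) := rfl

lemma act_cp_iff (g : Matrix ι ι R) (p : Bool) :
    act g (cp sd p) = cp sd p ↔ g * Cm sd p * gᵀ = Cm sd p := by
  rw [cp_eq, act_bool]
  constructor
  · intro h
    ext i j
    have := congrFun h (fun b => if b then j else i)
    simpa using this
  · intro h
    rw [h]

lemma Cm_sum : (Cm sd false + Cm sd true : Matrix ι ι R) = Sm sd := by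
  ext i j
  rw [Matrix.add_apply]
  exact cp_sum sd (fun b => if b then j else i)

lemma mul_Sm {g : Matrix ι ι R} (h : ∀ p, act g (cp sd p) = cp sd p) :
    g * Sm sd * gᵀ = Sm sd := by
  have h1 := (act_cp_iff sd g false).1 (h false)
  have h2 := (act_cp_iff sd g true).1 (h true)
  rw [← Cm_sum, Matrix.mul_add, Matrix.add_mul, h1, h2]

lemma mul_inv_Sm {g : Matrix ι ι R} (h : ∀ p, act g (cp sd p) = cp sd p) :
    g * (Sm sd * gᵀ * (Sm sd)ᵀ) = 1 := by
  have h1 := mul_Sm sd h
  rw [← Matrix.mul_assoc, ← Matrix.mul_assoc, h1, Sm_mul_transpose]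

/-- The inverse matrix. -/
lemma inv_mul_Sm {g : Matrix ι ι R} (h : ∀ p, act g (cp sd p) = cp sd p) :
    (Sm sd * gᵀ * (Sm sd)ᵀ) * g = 1 := mul_eq_one_comm.1 (mul_inv_Sm sd h)

variable {α β : Type} [Fintype α] [DecidableEq α] [Fintype β] [DecidableEq β]

lemma act_add (g : Matrix ι ι R) (x y : (α → ι) → R) : act g (x + y) = act g x + act g y := by
  funext i
  unfold act
  rw [Pi.add_apply, ← Finset.sum_add_distrib]
  apply Finset.sum_congr rfl
  intro j _
  rw [Pi.add_apply]; ring

lemma act_smul (g : Matrix ι ι R) (r : R) (x : (α → ι) → R) : act g (r • x) = r • act g x := by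
  funext i
  unfold act
  rw [Pi.smul_apply, Finset.smul_sum]
  apply Finset.sum_congr rfl
  intro j _
  rw [Pi.smul_apply, smul_eq_mul, smul_eq_mul]; ring

lemma act_zero (g : Matrix ι ι R) : act g (0 : (α → ι) → R) = 0 := by
  funext i; simp [act]

lemma act_one (x : (α → ι) → R) : act (1 : Matrix ι ι R) x = x := by
  funext i
  unfold act
  rw [Finset.sum_eq_single i]
  · simp
  · intro j _ hj
    obtain ⟨a, ha⟩ := Function.ne_iff.1 hj
    rw [Finset.prod_eq_zero (Finset.mem_univ a), zero_mul]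
    exact Matrix.one_apply_ne (fun h => ha h.symm)
  · intro h
    exact absurd (Finset.mem_univ _) h

lemma act_mul (g h : Matrix ι ι R) (x : (α → ι) → R) : act (g * h) x = act g (act h x) := by
  funext i
  unfold act
  simp only [Matrix.mul_apply, Finset.mul_sum]
  rw [Finset.sum_comm]
  apply Finset.sum_congr rfl
  intro j _
  rw [Finset.prod_univ_sum, Fintype.piFinset_univ, Finset.sum_mul]
  apply Finset.sum_congr rfl
  intro l _
  rw [Finset.prod_mul_distrib]
  ring

lemma act_injective {g h : Matrix ι ι R} (hg : h * g = 1) {x : (α → ι) → R}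
    (hx : act g x = 0) : x = 0 := by
  rw [← act_one x, ← hg, act_mul, hx, act_zero]

end Matrices

section Lie

variable {ι : Type} [Fintype ι] [DecidableEq ι]

/-- The infinitesimal action. -/
noncomputable def dact {α : Type} [Fintype α] [DecidableEq α] (Y : Matrix ι ι ℂ)
    (x : (α → ι) → ℂ) : (α → ι) → ℂ :=
  ∑ j : α → ι, x j • ∑ a : α, ∑ l : ι, Y l (j a) • Pi.single (Function.update j a l) (1 : ℂ)

variable {α : Type} [Fintype α] [DecidableEq α]

lemma prod_update {M : Type*} [CommMonoid M] (F : α → ι → M) (j : α → ι) (a : α) (l : ι) :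
    ∏ b, F b (Function.update j a l b) = (∏ b ∈ Finset.univ.erase a, F b (j b)) * F a l := by
  rw [← Finset.prod_erase_mul Finset.univ _ (Finset.mem_univ a), Function.update_self]
  congr 1
  apply Finset.prod_congr rfl
  intro b hb
  rw [Function.update_of_ne (Finset.ne_of_mem_erase hb)]

lemma deriv_prod {σ : Type} (D : Derivation ℂ (MvPolynomial σ ℂ) (MvPolynomial σ ℂ))
    (s : Finset α) (f : α → MvPolynomial σ ℂ) :
    D (∏ a ∈ s, f a) = ∑ a ∈ s, (∏ b ∈ s.erase a, f b) * D (f a) := by
  induction s using Finset.induction_on with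
  | empty => simp
  | insert a s ha ih =>
    rw [Finset.prod_insert ha, Derivation.leibniz, ih, Finset.sum_insert ha,
      Finset.erase_insert ha, smul_eq_mul, smul_eq_mul, Finset.mul_sum, add_comm]
    congr 1
    · apply Finset.sum_congr rfl
      intro b hb
      have hab : a ≠ b := by rintro rfl; exact ha hb
      rw [Finset.erase_insert_of_ne hab, Finset.prod_insert
        (fun h => ha (Finset.mem_of_mem_erase h))]
      ring

/-- The derivation of a matrix. -/
noncomputable def DY (Y : Matrix ι ι ℂ) :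
    Derivation ℂ (MvPolynomial (ι × ι) ℂ) (MvPolynomial (ι × ι) ℂ) :=
  mkDerivation ℂ (fun p : ι × ι => ∑ l, C (Y l p.2) * X (p.1, l))

lemma DY_X (Y : Matrix ι ι ℂ) (p : ι × ι) : DY Y (X p) = ∑ l, C (Y l p.2) * X (p.1, l) :=
  mkDerivation_X _ _ _

lemma gact_add (x y : (α → ι) → ℂ) (i : α → ι) : gact (x + y) i = gact x i + gact y i := by
  unfold gact
  rw [← Finset.sum_add_distrib]
  apply Finset.sum_congr rfl
  intro j _
  rw [Pi.add_apply, C_add]; ring

lemma gact_smul (r : ℂ) (x : (α → ι) → ℂ) (i : α → ι) : gact (r • x) i = C r * gact x i := by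
  unfold gact
  rw [Finset.mul_sum]
  apply Finset.sum_congr rfl
  intro j _
  rw [Pi.smul_apply, smul_eq_mul, C_mul]; ring

lemma gact_zero (i : α → ι) : gact (0 : (α → ι) → ℂ) i = 0 := by simp [gact]

lemma gact_sum {κ : Type} (s : Finset κ) (x : κ → (α → ι) → ℂ) (i : α → ι) :
    gact (∑ l ∈ s, x l) i = ∑ l ∈ s, gact (x l) i := by
  induction s using Finset.cons_induction with
  | empty => simp [gact_zero]
  | cons a s ha ih => rw [Finset.sum_cons, Finset.sum_cons, gact_add, ih]

lemma gact_single (j i : α → ι) : gact (Pi.single j (1 : ℂ)) i = ∏ a, X (i a, j a) := by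
  unfold gact
  rw [Finset.sum_eq_single j]
  · rw [Pi.single_eq_same, C_1, one_mul]
  · intro l _ hl
    rw [Pi.single_eq_of_ne hl, C_0, zero_mul]
  · intro h
    exact absurd (Finset.mem_univ _) h

lemma DY_gact (Y : Matrix ι ι ℂ) (x : (α → ι) → ℂ) (i : α → ι) :
    DY Y (gact x i) = gact (dact Y x) i := by
  unfold dact
  rw [gact_sum, gact, map_sum]
  apply Finset.sum_congr rfl
  intro j _
  rw [gact_smul, gact_sum, Derivation.leibniz, MvPolynomial.derivation_C, smul_zero, add_zero,
    smul_eq_mul, deriv_prod]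
  congr 1
  apply Finset.sum_congr rfl
  intro a _
  rw [gact_sum, DY_X, Finset.mul_sum]
  apply Finset.sum_congr rfl
  intro l _
  rw [gact_smul, gact_single, prod_update (fun b m => (X (i b, m) : MvPolynomial (ι × ι) ℂ))]
  ring

lemma act_sum {κ : Type} (s : Finset κ) (g : Matrix ι ι ℂ) (x : κ → (α → ι) → ℂ) :
    act g (∑ l ∈ s, x l) = ∑ l ∈ s, act g (x l) := by
  induction s using Finset.cons_induction with
  | empty => simp [act_zero]
  | cons a s ha ih => rw [Finset.sum_cons, Finset.sum_cons, act_add, ih]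

lemma act_single (g : Matrix ι ι ℂ) (j i : α → ι) :
    act g (Pi.single j (1 : ℂ)) i = ∏ a, g (i a) (j a) := by
  unfold act
  rw [Finset.sum_eq_single j]
  · rw [Pi.single_eq_same, mul_one]
  · intro l _ hl
    rw [Pi.single_eq_of_ne hl, mul_zero]
  · intro h
    exact absurd (Finset.mem_univ _) h

attribute [local instance] Matrix.linftyOpNormedRing Matrix.linftyOpNormedAlgebra

lemma hasDerivAt_entry (Y : Matrix ι ι ℂ) (t : ℝ) (i j : ι) :
    HasDerivAt (fun u : ℝ => (NormedSpace.exp (u • Y) : Matrix ι ι ℂ) i j)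
      ((NormedSpace.exp (t • Y) * Y : Matrix ι ι ℂ) i j) t := by
  have h1 := hasDerivAt_exp_smul_const (𝕂 := ℝ) Y t
  let L : Matrix ι ι ℂ →ₗ[ℝ] ℂ :=
    { toFun := fun M => M i j
      map_add' := fun _ _ => rfl
      map_smul' := fun _ _ => rfl }
  exact (LinearMap.toContinuousLinearMap L).hasFDerivAt.comp_hasDerivAt t h1

lemma hasDerivAt_act (Y : Matrix ι ι ℂ) (x : (α → ι) → ℂ) (t : ℝ) (i : α → ι) :
    HasDerivAt (fun u : ℝ => act (NormedSpace.exp (u • Y) : Matrix ι ι ℂ) x i)
      (act (NormedSpace.exp (t • Y) : Matrix ι ι ℂ) (dact Y x) i) t := by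
  set g : ℝ → Matrix ι ι ℂ := fun u => NormedSpace.exp (u • Y) with hg
  have h1 : ∀ j : α → ι, HasDerivAt (fun u : ℝ => (∏ a, g u (i a) (j a)) * x j)
      ((∑ a, (∏ b ∈ Finset.univ.erase a, g t (i b) (j b)) * (g t * Y) (i a) (j a)) * x j) t := by
    intro j
    have h2 := (HasDerivAt.fun_finsetProd (u := Finset.univ) (x := t)
      (f := fun (a : α) (u : ℝ) => g u (i a) (j a))
      (f' := fun a => (g t * Y) (i a) (j a)) (fun a _ => hasDerivAt_entry Y t (i a) (j a)))
    simpa only [smul_eq_mul] using h2.mul_const (x j)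
  have h3 : HasDerivAt (fun u : ℝ => act (g u) x i)
      (∑ j : α → ι, (∑ a, (∏ b ∈ Finset.univ.erase a, g t (i b) (j b)) *
        (g t * Y) (i a) (j a)) * x j) t := by
    unfold act
    exact HasDerivAt.fun_sum (u := Finset.univ) (fun j _ => h1 j)
  convert h3 using 1
  unfold dact
  rw [act_sum, Finset.sum_apply]
  apply Finset.sum_congr rfl
  intro j _
  rw [act_smul, act_sum, Pi.smul_apply, Finset.sum_apply, smul_eq_mul, mul_comm]
  congr 1
  apply Finset.sum_congr rfl
  intro a _
  rw [act_sum, Finset.sum_apply, Matrix.mul_apply, Finset.mul_sum]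
  apply Finset.sum_congr rfl
  intro l _
  rw [act_smul, Pi.smul_apply, act_single, prod_update (fun b m => g t (i b) m), smul_eq_mul]
  ring

lemma act_exp_of_dact {Y : Matrix ι ι ℂ} {x : (α → ι) → ℂ} (h : dact Y x = 0) (t : ℝ) :
    act (NormedSpace.exp (t • Y) : Matrix ι ι ℂ) x = x := by
  funext i
  have h1 : ∀ s : ℝ, HasDerivAt (fun u : ℝ => act (NormedSpace.exp (u • Y) : Matrix ι ι ℂ) x i)
      0 s := by
    intro s
    have := hasDerivAt_act Y x s i
    rwa [h, act_zero] at this
  have h2 := is_const_of_deriv_eq_zero (fun s => (h1 s).differentiableAt)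
    (fun s => (h1 s).deriv) t 0
  rw [h2, zero_smul, NormedSpace.exp_zero, act_one]

lemma dact_of_act_exp {Y : Matrix ι ι ℂ} {x : (α → ι) → ℂ}
    (h : ∀ t : ℝ, act (NormedSpace.exp (t • Y) : Matrix ι ι ℂ) x = x) : dact Y x = 0 := by
  funext i
  have h1 := hasDerivAt_act Y x 0 i
  rw [zero_smul, NormedSpace.exp_zero, act_one] at h1
  have h2 : (fun u : ℝ => act (NormedSpace.exp (u • Y) : Matrix ι ι ℂ) x i) = fun _ => x i := by
    funext u; rw [h]
  rw [h2] at h1
  exact h1.unique (hasDerivAt_const 0 (x i))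

end Lie

section DC

variable {ι : Type} [Fintype ι] [DecidableEq ι] {sd : Std ι}
  {S : ∀ (α : Type) [Fintype α] [DecidableEq α], Set ((α → ι) → ℂ)}
  {Q : ∀ (α : Type) [Fintype α] [DecidableEq α], ((α → ι) → ℂ) →ₗ[ℂ] ((α → ι) → ℂ)}

/-- **The double centralizer theorem.** -/
theorem QFam.dc (h : QFam (fun α _ _ => {p | p.1 ∈ S α ∧ p.2 = p.1}) Q)
    (hcp : ∀ p, cp sd p ∈ S Bool) {β : Type} [Fintype β] [DecidableEq β] {w : (β → ι) → ℂ}
    (hw : ∀ g : Matrix ι ι ℂ, (∀ (α : Type) [Fintype α] [DecidableEq α], ∀ x ∈ S α,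
      act g x = x) → act g w = w) : Q β w = w := by
  obtain ⟨I, hI, h1, h0⟩ := h.functional
  set 𝔞 := isoIdeal (fun (α : Type) (_ : Fintype α) (_ : DecidableEq α) =>
    {p : ((α → ι) → ℂ) × ((α → ι) → ℂ) | p.1 ∈ S α ∧ p.2 = p.1}) with h𝔞
  have hgen : ∀ (α : Type) [Fintype α] [DecidableEq α] (x : (α → ι) → ℂ) (i : α → ι), x ∈ S α →
      gact x i - C (x i) ∈ 𝔞 := fun α _ _ x i hx =>
    Ideal.subset_span ⟨α, inferInstance, inferInstance, x, x, i, ⟨hx, rfl⟩, rfl⟩
  have hpt : ∀ p : ι × ι → ℂ, (∀ a ∈ 𝔞, eval p a = 0) → ∀ (α : Type) [Fintype α]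
      [DecidableEq α], ∀ x ∈ S α, act (Matrix.of fun i j => p (i, j)) x = x := by
    intro p hp α _ _ x hx
    funext i
    have := hp _ (hgen α x i hx)
    rwa [map_sub, eval_gact, eval_C, sub_eq_zero] at this
  have key : ∀ i, gact w i - C (w i) ∈ 𝔞 := by
    intro i
    apply mem_of_forall_mem
    intro p hp r
    have hH := hpt p hp
    set H : Matrix ι ι ℂ := Matrix.of fun i j => p (i, j) with hHdef
    have hinv := inv_mul_Sm sd (g := H) (fun q => hH Bool _ (hcp q))
    set H' := Sm sd * Hᵀ * (Sm sd)ᵀ with hH'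
    have hinv' : H * H' = 1 := mul_eq_one_comm.1 hinv
    refine euler p hp {D | ∃ Y : Matrix ι ι ℂ, D = DY Y ∧ ∀ (α : Type) [Fintype α]
      [DecidableEq α], ∀ x ∈ S α, dact Y x = 0} ?_ ?_ ?_ ?_ r
    · rintro D ⟨Y, rfl, hY⟩ a ha
      refine Submodule.span_induction (p := fun a _ => DY Y a ∈ 𝔞) ?_ ?_ ?_ ?_ ha
      · rintro _ ⟨α, _, _, x, x', i, ⟨hx, hx'⟩, rfl⟩
        dsimp only at hx hx'
        rw [map_sub, MvPolynomial.derivation_C, sub_zero, DY_gact, hY α x hx, gact_zero]
        exact Ideal.zero_mem _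
      · rw [map_zero]; exact Ideal.zero_mem _
      · intro a b _ _ ha hb
        rw [map_add]; exact Ideal.add_mem _ ha hb
      · intro r a ha' ha
        rw [smul_eq_mul, Derivation.leibniz, smul_eq_mul, smul_eq_mul]
        exact Ideal.add_mem _ (Ideal.mul_mem_left _ _ ha) (Ideal.mul_mem_right _ _ ha')
    · intro Z hZ
      set Zm : Matrix ι ι ℂ := Matrix.of fun i j => Z (i, j) with hZm
      have hD : ∀ q : ι × ι, eval p (DY (H' * Zm) (X q)) = Z q := by
        rintro ⟨i, j⟩
        have h3 : (H * (H' * Zm)) i j = Z (i, j) := by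
          rw [← Matrix.mul_assoc, hinv', Matrix.one_mul]
          rfl
        rw [DY_X, map_sum, ← h3, Matrix.mul_apply]
        apply Finset.sum_congr rfl
        intro l _
        rw [map_mul, eval_C, eval_X, mul_comm]
        rfl
      refine ⟨DY (H' * Zm), ⟨H' * Zm, rfl, ?_⟩, hD⟩
      intro α _ _ x hx
      apply act_injective hinv
      funext i
      have h4 := hZ _ (hgen α x i hx)
      rw [dif_apply] at h4
      have h5 : eval p (DY (H' * Zm) (gact x i - C (x i))) = 0 := by
        rw [chain, map_sum, ← h4]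
        apply Finset.sum_congr rfl
        intro q _
        rw [map_mul, hD]
      rw [map_sub, MvPolynomial.derivation_C, sub_zero, DY_gact, eval_gact] at h5
      exact h5
    · rw [map_sub, eval_gact, eval_C, sub_eq_zero]
      exact congrFun (hw _ (fun α _ _ x hx => hH α x hx)) i
    · rintro D ⟨Y, rfl, hY⟩
      have h3 : dact Y w = 0 := by
        apply dact_of_act_exp
        intro t
        exact hw _ (fun α _ _ x hx => act_exp_of_dact (hY α x hx) t)
      rw [map_sub, MvPolynomial.derivation_C, sub_zero, DY_gact, h3, gact_zero]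
      exact Ideal.zero_mem _
  funext i
  have h2 := h0 _ (key i)
  rw [map_sub, sub_eq_zero] at h2
  have h3 : I (C (w i)) = w i := by
    rw [← mul_one (C (w i)), ← smul_eq_C_mul, map_smul, h1, smul_eq_mul, mul_one]
  have h4 : I (gact w i) = Q β w i := by
    unfold gact
    rw [map_sum]
    have h5 : w = ∑ j, w j • (Pi.single j (1 : ℂ) : (β → ι) → ℂ) := by
      funext l
      rw [Finset.sum_apply, Finset.sum_eq_single l]
      · simp
      · intro j _ hj
        rw [Pi.smul_apply, Pi.single_eq_of_ne (Ne.symm hj), smul_zero]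
      · intro h
        exact absurd (Finset.mem_univ _) h
    conv_rhs => rw [h5]
    rw [map_sum, Finset.sum_apply]
    apply Finset.sum_congr rfl
    intro j _
    rw [← smul_eq_C_mul, map_smul, hI, map_smul, Pi.smul_apply]
  rw [← h4, h2, h3]

end DC

end Pool.Agent.H24FD
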