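import Pool.Agent.H24FD.Pos

/-!
# Finite determinacy of positivity for systems of tensors
-/

set_option autoImplicit false
set_option linter.unusedSectionVars false

namespace Pool.Agent.H24FD

section FD

variable {ι : Type} [Fintype ι] [DecidableEq ι] {sd : Std ι}
  {I : Type} [Fintype I] [DecidableEq I] {A : I → Type} [∀ i, Fintype (A i)]
  [∀ i, DecidableEq (A i)] {v : ∀ i, (A i → ι) → ℂ}

lemma cs_of_min (hv : Good sd v) (hmin : ∀ h, InG sd h → NN v ≤ NN (acts h v)) :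
    CS sd (fun α _ _ => gen sd ℝ v α) where
  sys := isSys_gen
  ev _ _ _ _ hx := gen_ev sd hv.ev hx
  real := hv.real
  nd := hv.nd
  cjm _ _ _ _ hx := cj_mem hv hmin hx

lemma pos_of_min (hv : Good sd v) (hmin : ∀ h, InG sd h → NN v ≤ NN (acts h v))
    (hpos : ∀ i, ∀ x ∈ gen sd ℝ v (A i), 0 ≤ (bf sd x x).re) (α : Type) [Fintype α]
    [DecidableEq α] (x : (α → ι) → ℂ) (hx : x ∈ gen sd ℝ v α) : 0 ≤ (bf sd x x).re :=
  (cs_of_min hv hmin).pos (fun i => gen_self i) (fun _ _ _ _ h => h) hpos α x hx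

/-- Positivity for nondegenerate systems. -/
theorem good_pos (hv : Good sd v) (hpos : ∀ i, ∀ x ∈ gen sd ℝ v (A i), 0 ≤ (bf sd x x).re)
    (α : Type) [Fintype α] [DecidableEq α] (x : (α → ι) → ℂ) (hx : x ∈ gen sd ℝ v α) :
    0 ≤ (bf sd x x).re := by
  obtain ⟨g, hg, hmin⟩ := exists_min hv
  rw [← hg.bf_act]
  refine pos_of_min (hv.acts hg) hmin ?_ α _ (hg.act_mem hx)
  intro i y hy
  obtain ⟨z, hz, rfl⟩ := hg.mem_acts hy
  rw [hg.bf_act]
  exact hpos i z hz

lemma bf_pair {w : ∀ i, (A i → ι) → ℂ × ℂ}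
    (hr : ∀ x ∈ gen sd ℝ w Empty, ∃ r : ℝ, x = fun _ => ((r : ℂ), (r : ℂ)))
    {α : Type} [Fintype α] [DecidableEq α] {x y : (α → ι) → ℂ × ℂ} (hx : x ∈ gen sd ℝ w α)
    (hy : y ∈ gen sd ℝ w α) : bf sd (f1 x) (f1 y) = bf sd (f2 x) (f2 y) := by
  obtain ⟨r, h⟩ := hr _ ((isSys_gen (sd := sd) (k := ℝ) (v := w)).bf hx hy)
  have h1 : bf sd x y = ((r : ℂ), (r : ℂ)) := congrFun h Empty.elim
  rw [← bf_f1, ← bf_f2, h1]

lemma good_of_realize {w : ∀ i, (A i → ι) → ℂ × ℂ} (hrad : RadZ sd w)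
    (hr : ∀ x ∈ gen sd ℝ w Empty, ∃ r : ℝ, x = fun _ => ((r : ℂ), (r : ℂ)))
    (hev : ∀ i, Ev sd (f2 (w i))) : Good sd (fun i => f2 (w i)) where
  ev := hev
  real x hx := by
    obtain ⟨z, hz, rfl⟩ := f2_lift (w := w) (fun i => rfl) hx
    obtain ⟨r, h⟩ := hr z hz
    refine ⟨r, ?_⟩
    rw [h]
    rfl
  nd α _ _ x hx h0 := by
    obtain ⟨z, hz, rfl⟩ := f2_lift (w := w) (fun i => rfl) hx
    apply hrad α z hz
    intro u hu
    rw [bf_pair hr hz hu]
    exact h0 _ (f2_mem (w := w) (fun i => rfl) hu)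

/-- **Finite determinacy.** If the tensors obtained from finitely many given tensors by tensor
products, renaming of the slots, contractions and the insertion of the dual tensors of the form, and
without slots, are real numbers, and if the form is nonnegative on the tensors obtained in this way
which have the type of one of the given tensors, then it is nonnegative on all tensors obtained in
this way. -/
theorem finite_determinacy (hev : ∀ i, Ev sd (v i))
    (hreal : ∀ x ∈ gen sd ℝ v Empty, ∃ r : ℝ, x = fun _ => (r : ℂ))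
    (hpos : ∀ i, ∀ x ∈ gen sd ℝ v (A i), 0 ≤ (bf sd x x).re)
    (α : Type) [Fintype α] [DecidableEq α] (x : (α → ι) → ℂ) (hx : x ∈ gen sd ℝ v α) :
    0 ≤ (bf sd x x).re := by
  obtain ⟨w, hwv, hrad, hr, hev'⟩ := realize sd v hev hreal
  obtain ⟨z, hz, rfl⟩ := f1_lift hwv hx
  rw [bf_pair hr hz hz]
  refine good_pos (good_of_realize hrad hr hev') ?_ α _ (f2_mem (w := w) (fun i => rfl) hz)
  intro i y hy
  obtain ⟨u, hu, rfl⟩ := f2_lift (w := w) (fun i => rfl) hy
  rw [← bf_pair hr hu hu]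
  exact hpos i _ (f1_mem hwv hu)

end FD

end Pool.Agent.H24FD
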