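import Pool.Agent.H24FD.Norm

/-!
# Finite determinacy for general forms with blocks over the complex numbers
-/

set_option autoImplicit false
set_option linter.unusedSectionVars false

universe v

namespace Pool.Agent.H24FD

section ActR

variable {ι κ R : Type} [Fintype ι] [DecidableEq ι] [DecidableEq κ] [Fintype R] [DecidableEq R]
  {α β : Type} [Fintype α] [DecidableEq α] [Fintype β] [DecidableEq β]

/-- The change of the basis. -/
noncomputable def actR (M : R → ι → ℂ) (x : (α → ι) → ℂ) : (α → R) → ℂ :=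
  fun k => ∑ j, (∏ a, M (k a) (j a)) * x j

variable (M : R → ι → ℂ)

lemma actR_add (x y : (α → ι) → ℂ) : actR M (x + y) = actR M x + actR M y := by
  funext i
  unfold actR
  rw [Pi.add_apply, ← Finset.sum_add_distrib]
  apply Finset.sum_congr rfl
  intro j _
  rw [Pi.add_apply, mul_add]

lemma actR_smul (r : ℂ) (x : (α → ι) → ℂ) : actR M (r • x) = r • actR M x := by
  funext i
  unfold actR
  rw [Pi.smul_apply, Finset.smul_sum]
  apply Finset.sum_congr rfl
  intro j _
  simp only [Pi.smul_apply, smul_eq_mul]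
  ring

lemma actR_zero : actR M (0 : (α → ι) → ℂ) = 0 := by
  funext i; simp [actR]

lemma actR_ten (x : (α → ι) → ℂ) (y : (β → ι) → ℂ) :
    actR M (ten x y) = ten (actR M x) (actR M y) := by
  funext k
  unfold actR ten
  rw [sum_sum, Finset.sum_mul_sum]
  apply Finset.sum_congr rfl
  intro i _
  apply Finset.sum_congr rfl
  intro j _
  rw [Fintype.prod_sum_type]
  simp only [Sum.elim_inl, Sum.elim_inr]
  ring

lemma actR_re (e : α ≃ β) (x : (α → ι) → ℂ) : actR M (re e x) = re e (actR M x) := by
  funext k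
  unfold actR re
  rw [sum_re e]
  apply Finset.sum_congr rfl
  intro i _
  rw [← e.prod_comp]
  simp

lemma actR_one : actR M (fun _ : (Empty → ι) => (1 : ℂ)) = fun _ => 1 := by
  funext k
  unfold actR
  simp

variable {M} {G : GD ℂ ι κ} {par : κ → Bool} {sd : Std R}

lemma NF.ctr (h : NF G par R sd M) (x : (Bool ⊕ β → ι) → ℂ) :
    ctr sd (actR M x) = actR M (ctrG G x) := by
  funext k
  unfold H24FD.ctr actR ctrG
  simp only [Finset.mul_sum]
  rw [Finset.sum_comm, sum_sum, Finset.sum_comm]
  apply Finset.sum_congr rfl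
  intro j _
  rw [← (Equiv.boolArrowEquivProd ι).symm.sum_comp, Fintype.sum_prod_type]
  apply Finset.sum_congr rfl
  intro a _
  apply Finset.sum_congr rfl
  intro b _
  have h2 : ∀ i, (sd.sg i : ℂ) * ((∏ c, M (cons2 i (sd.st i) k c)
      (Sum.elim ((Equiv.boolArrowEquivProd ι).symm (a, b)) j c)) *
      x (Sum.elim ((Equiv.boolArrowEquivProd ι).symm (a, b)) j)) =
      ((sd.sg i : ℂ) * (M i a * M (sd.st i) b)) * ((∏ c, M (k c) (j c)) *
      x (Sum.elim ((Equiv.boolArrowEquivProd ι).symm (a, b)) j)) := by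
    intro i
    rw [Fintype.prod_sum_type, Fintype.prod_bool]
    simp only [Sum.elim_inl, Sum.elim_inr, Equiv.boolArrowEquivProd_symm_apply, cons2, if_true,
      Bool.false_eq_true, if_false]
    ring
  rw [Finset.sum_congr rfl (fun i _ => h2 i), ← Finset.sum_mul, h.g_eq]
  have h5 : (Sum.elim ((Equiv.boolArrowEquivProd ι).symm (a, b)) j : Bool ⊕ β → ι) =
      cons2 a b j := by
    funext c
    rcases c with (_ | _) | c <;> simp [cons2]
  rw [h5]
  ring

lemma NF.cp [Fintype κ] (h : NF G par R sd M) (p : Bool) :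
    actR M (∑ q ∈ Finset.univ.filter (fun q => par q = p), cpG G q) = cp sd p := by
  funext k
  unfold actR H24FD.cp
  rw [← (Equiv.boolArrowEquivProd ι).symm.sum_comp, Fintype.sum_prod_type]
  have h1 : ∀ i j : ι, (∑ q ∈ Finset.univ.filter (fun q => par q = p), cpG G q)
      ((Equiv.boolArrowEquivProd ι).symm (i, j)) =
      if par (G.blk i) = p then G.c i j else 0 := by
    intro i j
    rw [Finset.sum_apply]
    unfold cpG
    simp only [Equiv.boolArrowEquivProd_symm_apply, if_true, Bool.false_eq_true, if_false]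
    rw [Finset.sum_ite_eq]
    simp
  have h2 : ∀ i j : ι, (∏ a, M (k a) ((Equiv.boolArrowEquivProd ι).symm (i, j) a)) *
      (∑ q ∈ Finset.univ.filter (fun q => par q = p), cpG G q)
      ((Equiv.boolArrowEquivProd ι).symm (i, j)) =
      if sd.par (k false) = p then G.c i j * (M (k false) i * M (k true) j) else 0 := by
    intro i j
    rw [h1, Fintype.prod_bool]
    simp only [Equiv.boolArrowEquivProd_symm_apply, if_true, Bool.false_eq_true, if_false]
    by_cases h0 : M (k false) i = 0
    · rw [h0]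
      simp
    · rw [h.par_eq _ _ h0]
      split_ifs
      · ring
      · simp
  simp only [h2]
  by_cases hp : sd.par (k false) = p
  · simp only [if_pos hp]
    rw [h.c_eq]
    by_cases h3 : k true = sd.st (k false)
    · rw [if_pos h3, if_pos ⟨hp, h3⟩]
    · rw [if_neg h3, if_neg (fun h4 => h3 h4.2)]
  · simp only [if_neg hp, Finset.sum_const_zero]
    rw [if_neg (fun h4 => hp h4.1)]

lemma NF.bf (h : NF G par R sd M) (x y : (α → ι) → ℂ) :
    bf sd (actR M x) (actR M y) = bfG G x y := by
  have h3 : ∀ k l : α → ι, ∑ i : α → R, ((∏ a, sd.sg (i a) : ℤ) : ℂ) *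
      ((∏ a, M (i a) (k a)) * (∏ a, M (sd.st (i a)) (l a))) = ∏ a, G.g (k a) (l a) := by
    intro k l
    have h4 : ∏ a, G.g (k a) (l a) =
        ∏ a, ∑ i, (sd.sg i : ℂ) * (M i (k a) * M (sd.st i) (l a)) := by
      apply Finset.prod_congr rfl
      intro a _
      rw [h.g_eq]
    rw [h4, Finset.prod_univ_sum, Fintype.piFinset_univ]
    apply Finset.sum_congr rfl
    intro i _
    rw [Finset.prod_mul_distrib, Finset.prod_mul_distrib]
    push_cast
    rfl
  unfold H24FD.bf actR bfG
  have h5 : ∀ i : α → R, ((∏ a, sd.sg (i a) : ℤ) : ℂ) * ((∑ j, (∏ a, M (i a) (j a)) * x j) *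
      ∑ j, (∏ a, M (sd.st (i a)) (j a)) * y j) = ∑ k, ∑ l, ((∏ a, sd.sg (i a) : ℤ) : ℂ) *
      ((∏ a, M (i a) (k a)) * (∏ a, M (sd.st (i a)) (l a))) * (x k * y l) := by
    intro i
    rw [Finset.sum_mul_sum, Finset.mul_sum]
    apply Finset.sum_congr rfl
    intro k _
    rw [Finset.mul_sum]
    apply Finset.sum_congr rfl
    intro l _
    ring
  rw [Finset.sum_congr rfl (fun i _ => h5 i), Finset.sum_comm]
  apply Finset.sum_congr rfl
  intro k _
  rw [Finset.sum_comm]
  apply Finset.sum_congr rfl
  intro l _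
  rw [← h3 k l, Finset.sum_mul]

end ActR

/-- Rational semidefinite forms are semidefinite over the real numbers. -/
lemma psd_real {T : Type} [Fintype T] (B : T → T → ℝ)
    (h : ∀ q : T → ℚ, 0 ≤ ∑ k, ∑ l, (q k : ℝ) * (q l : ℝ) * B k l) (r : T → ℝ) :
    0 ≤ ∑ k, ∑ l, r k * r l * B k l := by
  have hc : IsClosed {r : T → ℝ | 0 ≤ ∑ k, ∑ l, r k * r l * B k l} := by
    apply isClosed_le continuous_const
    fun_prop
  have hd : DenseRange (fun (q : T → ℚ) (k : T) => (q k : ℝ)) :=
    DenseRange.piMap (fun _ => Rat.denseRange_cast)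
  have h1 : ∀ q : T → ℚ, (fun (k : T) => (q k : ℝ)) ∈
      {r : T → ℝ | 0 ≤ ∑ k, ∑ l, r k * r l * B k l} := h
  exact hd.induction_on (p := fun r => 0 ≤ ∑ k, ∑ l, r k * r l * B k l) r hc h1

section RS

variable {ι κ R : Type} [Fintype ι] [DecidableEq ι] [DecidableEq κ] [Fintype κ] [Fintype R]
  [DecidableEq R] {G : GD ℂ ι κ} {par : κ → Bool} {sd : Std R} {M : R → ι → ℂ}
  (S : ∀ (α : Type) [Fintype α] [DecidableEq α], Submodule ℚ ((α → ι) → ℂ))

/-- The real span of the images of the tensors of a system. -/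
noncomputable def RS (M : R → ι → ℂ) (α : Type) [Fintype α] [DecidableEq α] :
    Submodule ℝ ((α → R) → ℂ) := Submodule.span ℝ {y | ∃ x ∈ S α, y = actR M x}

variable {S}

lemma RS_mem {α : Type} [Fintype α] [DecidableEq α] {x : (α → ι) → ℂ} (hx : x ∈ S α) :
    actR M x ∈ RS S M α := Submodule.subset_span ⟨x, hx, rfl⟩

lemma isSys_RS (h : NF G par R sd M) (hS : IsSysG G S) :
    IsSys sd ℝ (fun α _ _ => RS S M α) where
  one := by
    rw [← actR_one M]
    exact RS_mem hS.one
  re {α β _ _ _ _} e x hx := by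
    refine Submodule.span_induction (p := fun x _ => re e x ∈ RS S M β) ?_ ?_ ?_ ?_ hx
    · rintro _ ⟨y, hy, rfl⟩
      rw [← actR_re]
      exact RS_mem (hS.re e hy)
    · exact Submodule.zero_mem _
    · intro a b _ _ h1 h2
      exact Submodule.add_mem _ h1 h2
    · intro r a _ h1
      exact Submodule.smul_mem _ _ h1
  ten {α β _ _ _ _ x y} hx hy := by
    refine Submodule.span_induction (p := fun x _ => H24FD.ten x y ∈ RS S M (α ⊕ β))
      ?_ ?_ ?_ ?_ hx
    · rintro _ ⟨x, hx, rfl⟩
      refine Submodule.span_induction (p := fun y _ => H24FD.ten (actR M x) y ∈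
        RS S M (α ⊕ β)) ?_ ?_ ?_ ?_ hy
      · rintro _ ⟨y, hy, rfl⟩
        rw [← actR_ten]
        exact RS_mem (hS.ten hx hy)
      · have : H24FD.ten (actR M x) (0 : (β → R) → ℂ) = 0 := by
          funext l; simp [H24FD.ten]
        rw [this]
        exact Submodule.zero_mem _
      · intro a b _ _ h1 h2
        rw [ten_add_right]
        exact Submodule.add_mem _ h1 h2
      · intro r a _ h1
        rw [ten_smul_right]
        exact Submodule.smul_mem _ _ h1
    · have : H24FD.ten (0 : (α → R) → ℂ) y = 0 := by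
        funext l; simp [H24FD.ten]
      rw [this]
      exact Submodule.zero_mem _
    · intro a b _ _ h1 h2
      rw [ten_add_left]
      exact Submodule.add_mem _ h1 h2
    · intro r a _ h1
      rw [ten_smul_left]
      exact Submodule.smul_mem _ _ h1
  ctr {β _ _ x} hx := by
    refine Submodule.span_induction (p := fun x _ => H24FD.ctr sd x ∈ RS S M β) ?_ ?_ ?_ ?_ hx
    · rintro _ ⟨y, hy, rfl⟩
      rw [h.ctr]
      exact RS_mem (hS.ctr hy)
    · have : H24FD.ctr sd (0 : (Bool ⊕ β → R) → ℂ) = 0 := by funext l; simp [H24FD.ctr]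
      rw [this]
      exact Submodule.zero_mem _
    · intro a b _ _ h1 h2
      rw [ctr_add]
      exact Submodule.add_mem _ h1 h2
    · intro r a _ h1
      rw [ctr_smul]
      exact Submodule.smul_mem _ _ h1
  cp p := by
    rw [← h.cp p]
    exact RS_mem (Submodule.sum_mem _ fun q _ => hS.cp q)

/-- The tensors whose image lies in a system form a system. -/
lemma isSysG_comapR (h : NF G par R sd M)
    {T : ∀ (α : Type) [Fintype α] [DecidableEq α], Submodule ℝ ((α → R) → ℂ)}
    (hT : IsSys sd ℝ T) (hc : ∀ q, actR M (cpG G q) ∈ T Bool) :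
    IsSysG G (fun α _ _ =>
      { carrier := {x | actR M x ∈ T α}
        add_mem' := fun {x y} hx hy => by
          change actR M (x + y) ∈ T α
          rw [actR_add]
          exact Submodule.add_mem _ hx hy
        zero_mem' := by
          change actR M 0 ∈ T α
          rw [actR_zero]
          exact Submodule.zero_mem _
        smul_mem' := fun r x hx => by
          change actR M (r • x) ∈ T α
          have h1 : r • x = (r : ℂ) • x := by
            funext l
            simp [Rat.smul_def]
          have h2 : (r : ℂ) • actR M x = (r : ℝ) • actR M x := by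
            funext l
            simp
          rw [h1, actR_smul, h2]
          exact Submodule.smul_mem _ _ hx }) where
  one := by
    change actR M _ ∈ T Empty
    rw [actR_one M]
    exact hT.one
  re {α β _ _ _ _} e x hx := by
    change actR M _ ∈ T β
    rw [actR_re]
    exact hT.re e hx
  ten {α β _ _ _ _ x y} hx hy := by
    change actR M _ ∈ T (α ⊕ β)
    rw [actR_ten]
    exact hT.ten hx hy
  ctr {β _ _ x} hx := by
    change actR M _ ∈ T β
    rw [← h.ctr]
    exact hT.ctr hx
  cp q := hc q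

lemma RS_sum {α : Type} [Fintype α] [DecidableEq α] {x : (α → R) → ℂ} (hx : x ∈ RS S M α) :
    ∃ (T : Type) (_ : Fintype T) (r : T → ℝ) (y : T → (α → ι) → ℂ), (∀ k, y k ∈ S α) ∧
      x = ∑ k, (r k : ℂ) • actR M (y k) := by
  refine Submodule.span_induction (p := fun x _ => ∃ (T : Type) (_ : Fintype T) (r : T → ℝ)
    (y : T → (α → ι) → ℂ), (∀ k, y k ∈ S α) ∧ x = ∑ k, (r k : ℂ) • actR M (y k))
    ?_ ?_ ?_ ?_ hx
  · rintro _ ⟨y, hy, rfl⟩
    exact ⟨Unit, inferInstance, fun _ => 1, fun _ => y, fun _ => hy, by simp⟩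
  · exact ⟨Empty, inferInstance, fun k => k.elim, fun k => k.elim, fun k => k.elim, by simp⟩
  · rintro a b _ _ ⟨T, _, r, y, hy, rfl⟩ ⟨T', _, r', y', hy', rfl⟩
    refine ⟨T ⊕ T', inferInstance, Sum.elim r r', Sum.elim y y', ?_, ?_⟩
    · rintro (k | k)
      · exact hy k
      · exact hy' k
    · rw [Fintype.sum_sum_type]
      rfl
  · rintro s a _ ⟨T, _, r, y, hy, rfl⟩
    refine ⟨T, inferInstance, fun k => s * r k, y, hy, ?_⟩
    rw [Finset.smul_sum]
    apply Finset.sum_congr rfl
    intro k _
    funext l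
    simp only [Pi.smul_apply, smul_eq_mul, Complex.real_smul]
    push_cast
    ring

lemma bfG_add_left {α : Type} [Fintype α] [DecidableEq α] (x x' y : (α → ι) → ℂ) :
    bfG G (x + x') y = bfG G x y + bfG G x' y := by
  unfold bfG
  rw [← Finset.sum_add_distrib]
  apply Finset.sum_congr rfl
  intro i _
  rw [← Finset.sum_add_distrib]
  apply Finset.sum_congr rfl
  intro j _
  rw [Pi.add_apply]
  ring

/-- Semidefiniteness over the real numbers. -/
lemma RS_pos (h : NF G par R sd M) {α : Type} [Fintype α] [DecidableEq α]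
    (hpos : ∀ x ∈ S α, 0 ≤ (bfG G x x).re)
    {x : (α → R) → ℂ} (hx : x ∈ RS S M α) : 0 ≤ (bf sd x x).re := by
  obtain ⟨T, _, r, y, hy, rfl⟩ := RS_sum hx
  have hsum : ∀ r s : T → ℝ, bf sd (∑ k, (r k : ℂ) • actR M (y k))
      (∑ k, (s k : ℂ) • actR M (y k)) = ∑ k, ∑ l, (r k : ℂ) * (s l : ℂ) * bfG G (y k) (y l) := by
    intro r s
    have e1 : ∀ (J : Finset T) (z : (α → R) → ℂ), bf sd (∑ k ∈ J, (r k : ℂ) • actR M (y k)) z =
        ∑ k ∈ J, (r k : ℂ) * bf sd (actR M (y k)) z := by
      classical
      intro J z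
      induction J using Finset.induction_on with
      | empty => rw [Finset.sum_empty, Finset.sum_empty, bf_zero_left]
      | insert a J ha ih =>
        rw [Finset.sum_insert ha, Finset.sum_insert ha, bf_add_left, bf_smul_left, ih]
    have e2 : ∀ (J : Finset T) (z : (α → R) → ℂ), bf sd z (∑ k ∈ J, (s k : ℂ) • actR M (y k)) =
        ∑ k ∈ J, (s k : ℂ) * bf sd z (actR M (y k)) := by
      classical
      intro J z
      induction J using Finset.induction_on with
      | empty =>
        rw [Finset.sum_empty, Finset.sum_empty]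
        unfold bf
        simp
      | insert a J ha ih =>
        rw [Finset.sum_insert ha, Finset.sum_insert ha, bf_add_right, bf_smul_right, ih]
    rw [e1]
    apply Finset.sum_congr rfl
    intro k _
    rw [e2, Finset.mul_sum]
    apply Finset.sum_congr rfl
    intro l _
    rw [h.bf]
    ring
  have hre : ∀ r : T → ℝ, (bf sd (∑ k, (r k : ℂ) • actR M (y k))
      (∑ k, (r k : ℂ) • actR M (y k))).re = ∑ k, ∑ l, r k * r l * (bfG G (y k) (y l)).re := by
    intro r
    rw [hsum, Complex.re_sum]
    apply Finset.sum_congr rfl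
    intro k _
    rw [Complex.re_sum]
    apply Finset.sum_congr rfl
    intro l _
    rw [← Complex.ofReal_mul, Complex.re_ofReal_mul]
  rw [hre]
  apply psd_real
  intro q
  have h1 := hre (fun k => (q k : ℝ))
  rw [← h1]
  have h2 : ∑ k, (((q k : ℝ)) : ℂ) • actR M (y k) = actR M (∑ k, q k • y k) := by
    have h3 : ∀ J : Finset T, ∑ k ∈ J, (((q k : ℝ)) : ℂ) • actR M (y k) =
        actR M (∑ k ∈ J, q k • y k) := by
      classical
      intro J
      induction J using Finset.induction_on with
      | empty => rw [Finset.sum_empty, Finset.sum_empty, actR_zero]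
      | insert a J ha ih =>
        rw [Finset.sum_insert ha, Finset.sum_insert ha, actR_add, ih]
        congr 1
        have h4 : q a • y a = ((q a : ℝ) : ℂ) • y a := by
          funext l
          simp [Rat.smul_def]
        rw [h4, actR_smul]
    exact h3 Finset.univ
  rw [h2, h.bf]
  exact hpos _ (Submodule.sum_mem _ fun k _ => Submodule.smul_mem _ _ (hy k))

end RS

section FDC

variable {ι κ : Type} [Fintype ι] [DecidableEq ι] [DecidableEq κ] [Fintype κ]
  {G : GD ℂ ι κ} {par : κ → Bool} {I : Type} [Fintype I] [DecidableEq I] {A : I → Type}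
  [∀ i, Fintype (A i)] [∀ i, DecidableEq (A i)] {v : ∀ i, (A i → ι) → ℂ}

/-- Tensors of even total degree. -/
def EvG {K : Type v} [CommRing K] {ι κ : Type} (G : GD K ι κ) (par : κ → Bool) {α : Type}
    [Fintype α] (x : (α → ι) → K) : Prop :=
  ∀ l, ((∏ a, if par (G.blk (l a)) then -1 else 1 : ℤ) : K) * x l = x l

lemma NF.ev {R : Type} [Fintype R] [DecidableEq R] {sd : Std R} {M : R → ι → ℂ}
    (h : NF G par R sd M) {α : Type} [Fintype α] [DecidableEq α] {x : (α → ι) → ℂ}
    (hx : EvG G par x) : Ev sd (actR M x) := by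
  intro l
  unfold actR
  rw [Finset.mul_sum]
  apply Finset.sum_congr rfl
  intro j _
  by_cases h3 : ∀ a, M (l a) (j a) ≠ 0
  · have h4 : ps sd l = ∏ a, if par (G.blk (j a)) then -1 else 1 := by
      unfold ps
      apply Finset.prod_congr rfl
      intro a _
      rw [h.par_eq _ _ (h3 a)]
    rw [h4, mul_left_comm, hx j]
  · push Not at h3
    obtain ⟨a, ha⟩ := h3
    rw [Finset.prod_eq_zero (Finset.mem_univ a) ha]
    simp

variable (G) in
lemma cpG_ev (hb : ∀ i j, G.c i j ≠ 0 → par (G.blk i) = par (G.blk j)) (q : κ) :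
    EvG G par (cpG G q) := by
  intro l
  unfold cpG
  rw [Fintype.prod_bool]
  by_cases h1 : G.blk (l false) = q
  · rw [if_pos h1]
    by_cases h2 : G.c (l false) (l true) = 0
    · rw [h2, mul_zero]
    · rw [hb _ _ h2]
      split_ifs <;> simp
  · rw [if_neg h1, mul_zero]

/-- The types of the given tensors and of the blocks of the dual tensor. -/
def AA {I : Type} (A : I → Type) (κ : Type) : I ⊕ κ → Type
  | Sum.inl i => A i
  | Sum.inr _ => Bool

instance instFintypeAA {I : Type} (A : I → Type) (κ : Type) [h : ∀ i, Fintype (A i)] :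
    ∀ i, Fintype (AA A κ i)
  | Sum.inl i => h i
  | Sum.inr _ => Bool.fintype

instance instDecidableEqAA {I : Type} (A : I → Type) (κ : Type) [h : ∀ i, DecidableEq (A i)] :
    ∀ i, DecidableEq (AA A κ i)
  | Sum.inl i => h i
  | Sum.inr _ => instDecidableEqBool

/-- **Finite determinacy** for a general form with blocks over the complex numbers. -/
theorem fdC (h : IsGD G par) (hb : ∀ i j, G.c i j ≠ 0 → par (G.blk i) = par (G.blk j))
    (hev : ∀ i, EvG G par (v i)) (hrat : ∀ x ∈ genG G v Empty, ∃ q : ℚ, x = fun _ => (q : ℂ))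
    (hpos : ∀ i, ∀ x ∈ genG G v (A i), 0 ≤ (bfG G x x).re)
    (hposB : ∀ x ∈ genG G v Bool, 0 ≤ (bfG G x x).re) (α : Type) [Fintype α] [DecidableEq α]
    (x : (α → ι) → ℂ) (hx : x ∈ genG G v α) : 0 ≤ (bfG G x x).re := by
  obtain ⟨R, _, _, sd, M, hN⟩ := exists_nf h
  let v' : ∀ i : I ⊕ κ, (AA A κ i → R) → ℂ := fun i => match i with
    | Sum.inl i => actR M (v i)
    | Sum.inr q => actR M (cpG G q)
  have hle : ∀ (β : Type) [Fintype β] [DecidableEq β], ∀ y ∈ gen sd ℝ v' β,
      y ∈ RS (fun α _ _ => genG G v α) M β := by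
    intro β _ _ y hy
    refine gen_le (isSys_RS hN isSysG_gen) ?_ hy
    rintro (i | q)
    · exact RS_mem (genG_self i)
    · exact RS_mem (isSysG_gen.cp q)
  have hge : ∀ (β : Type) [Fintype β] [DecidableEq β], ∀ y ∈ genG G v β,
      actR M y ∈ gen sd ℝ v' β := by
    intro β _ _ y hy
    exact genG_le (isSysG_comapR hN isSys_gen (fun q => gen_self (v := v') (Sum.inr q)))
      (fun i => gen_self (v := v') (Sum.inl i)) hy
  have key := finite_determinacy (sd := sd) (v := v') (by
      rintro (i | q)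
      · exact hN.ev (hev i)
      · exact hN.ev (cpG_ev G hb q))
    (by
      intro y hy
      obtain ⟨T, _, r, z, hz, rfl⟩ := RS_sum (hle Empty y hy)
      have h1 : ∀ k, ∃ q : ℚ, z k = fun _ => (q : ℂ) := fun k => hrat _ (hz k)
      choose q hq using h1
      refine ⟨∑ k, r k * q k, ?_⟩
      funext l
      rw [Finset.sum_apply]
      push_cast
      apply Finset.sum_congr rfl
      intro k _
      rw [Pi.smul_apply, smul_eq_mul, hq k]
      congr 1
      unfold actR
      simp)
    (by
      rintro (i | q)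
      · intro y hy
        exact RS_pos hN (hpos i) (hle _ y hy)
      · intro y hy
        exact RS_pos hN hposB (hle _ y hy))
    α (actR M x) (hge α x hx)
  rw [hN.bf] at key
  exact key

end FDC

end Pool.Agent.H24FD
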