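import Pool.Agent.H24FD.FDC
import Pool.Agent.W552.Emb

/-!
# Finite determinacy over fields of characteristic zero
-/

set_option autoImplicit false
set_option linter.unusedSectionVars false

universe v w

namespace Pool.Agent.H24FD

section FDK

variable {ι κ : Type} [Fintype ι] [DecidableEq ι] [DecidableEq κ] [Fintype κ]
  {par : κ → Bool}

lemma IsGD.of_inj {K L : Type*} [Field K] [Field L] {G : GD K ι κ} (φ : K →+* L)
    (h : IsGD (G.map φ) par) : IsGD G par where
  inv i k := by
    apply φ.injective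
    rw [map_sum]
    simp only [map_mul]
    have := h.inv i k
    change ∑ j, φ (G.g i j) * φ (G.c k j) = _ at this
    rw [this]
    split_ifs
    · exact (map_one φ).symm
    · exact (map_zero φ).symm
  blk i j hij := φ.injective (by
    rw [map_zero]
    exact h.blk i j hij)
  symm i j := φ.injective (by
    have := h.symm i j
    change φ (G.g j i) = _ at this
    rw [this, map_mul]
    change (if par (G.blk i) then (-1 : L) else 1) * φ (G.g i j) = _
    congr 1
    split_ifs <;> simp)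

lemma IsGD.map {K L : Type*} [Field K] [Field L] {G : GD K ι κ} (φ : K →+* L)
    (h : IsGD G par) : IsGD (G.map φ) par where
  inv i k := by
    have := congrArg φ (h.inv i k)
    rw [map_sum] at this
    simp only [map_mul] at this
    change ∑ j, φ (G.g i j) * φ (G.c k j) = _
    rw [this]
    split_ifs
    · exact map_one φ
    · exact map_zero φ
  blk i j hij := by
    change φ (G.g i j) = 0
    rw [h.blk i j hij, map_zero]
  symm i j := by
    change φ (G.g j i) = (if par (G.blk i) then (-1 : L) else 1) * φ (G.g i j)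
    rw [h.symm i j, map_mul]
    congr 1
    split_ifs <;> simp

/-- Finite determinacy for finitely many tensors over a field with an embedding into the complex
numbers. -/
theorem fdF {F : Type v} [Field F] [CharZero F] (σ : F →+* ℂ) {G : GD F ι κ} (h : IsGD G par)
    (hb : ∀ i j, G.c i j ≠ 0 → par (G.blk i) = par (G.blk j)) {I : Type} [Fintype I]
    [DecidableEq I] {A : I → Type} [∀ i, Fintype (A i)] [∀ i, DecidableEq (A i)]
    {v : ∀ i, (A i → ι) → F} (hev : ∀ i, EvG G par (v i))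
    (hrat : ∀ x ∈ genG G v Empty, ∃ q : ℚ, x = fun _ => (q : F))
    (hpos : ∀ i, ∀ x ∈ genG G v (A i), ∃ q : ℚ, 0 ≤ q ∧ bfG G x x = q)
    (hposB : ∀ x ∈ genG G v Bool, ∃ q : ℚ, 0 ≤ q ∧ bfG G x x = q) (α : Type) [Fintype α]
    [DecidableEq α] (x : (α → ι) → F) (hx : x ∈ genG G v α) (q : ℚ) (hq : bfG G x x = q) :
    0 ≤ q := by
  have hre : ∀ (β : Type) [Fintype β] [DecidableEq β],
      (∀ x ∈ genG G v β, ∃ q : ℚ, 0 ≤ q ∧ bfG G x x = q) →
      ∀ y ∈ genG (G.map σ) (fun i => mpL σ (A i) (v i)) β, 0 ≤ (bfG (G.map σ) y y).re := by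
    intro β _ _ hβ y hy
    obtain ⟨z, hz, rfl⟩ := of_map_genG σ hy
    obtain ⟨q, hq0, hq⟩ := hβ z hz
    rw [← mpL_bf, hq, map_ratCast]
    have : ((q : ℚ) : ℂ).re = (q : ℝ) := by simp
    rw [this]
    exact_mod_cast hq0
  have key := fdC (G := G.map σ) (v := fun i => mpL σ (A i) (v i)) (h.map σ)
    (fun i j hij => hb i j (fun h0 => hij (by
      change σ (G.c i j) = 0
      rw [h0, map_zero])))
    (fun i l => by
      have h1 := congrArg σ (hev i l)
      rw [map_mul, map_intCast] at h1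
      exact h1)
    (fun y hy => by
      obtain ⟨z, hz, rfl⟩ := of_map_genG σ hy
      obtain ⟨q, hq⟩ := hrat z hz
      refine ⟨q, ?_⟩
      rw [hq, mpL_apply]
      funext _
      exact map_ratCast σ q)
    (fun i => hre (A i) (hpos i)) (hre Bool hposB) α _ (map_genG σ hx)
  rw [← mpL_bf, hq, map_ratCast] at key
  have : ((q : ℚ) : ℂ).re = (q : ℝ) := by simp
  rw [this] at key
  exact_mod_cast key

/-- **Finite determinacy over a field of characteristic zero.** -/
theorem fdK {K : Type v} [Field K] [CharZero K] {G : GD K ι κ} (h : IsGD G par)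
    (hb : ∀ i j, G.c i j ≠ 0 → par (G.blk i) = par (G.blk j)) {I : Type w}
    {A : I → Type} [∀ i, Fintype (A i)] [∀ i, DecidableEq (A i)]
    {v : ∀ i, (A i → ι) → K} (hev : ∀ i, EvG G par (v i))
    (hrat : ∀ x ∈ genG G v Empty, ∃ q : ℚ, x = fun _ => (q : K))
    (hpos : ∀ i, ∀ x ∈ genG G v (A i), ∃ q : ℚ, 0 ≤ q ∧ bfG G x x = q)
    (hposB : ∀ x ∈ genG G v Bool, ∃ q : ℚ, 0 ≤ q ∧ bfG G x x = q) (α : Type) [Fintype α]
    [DecidableEq α] (x : (α → ι) → K) (hx : x ∈ genG G v α) (q : ℚ) (hq : bfG G x x = q) :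
    0 ≤ q := by
  classical
  obtain ⟨J, hJ⟩ := genG_fin hx
  set n := J.card with hn
  let e : Fin n ≃ J := J.equivFin.symm
  let A' : Fin n → Type := fun i => A (e i).1
  let S : Set K := (⋃ i : ι × ι, {G.g i.1 i.2, G.c i.1 i.2}) ∪
    ⋃ i : Fin n, Set.range (v (e i).1)
  have hS : S.Countable := by
    apply Set.Countable.union
    · exact Set.countable_iUnion fun i => by simp
    · exact Set.countable_iUnion fun i => Set.countable_range _
  obtain ⟨F, σ, hF⟩ := Pool.Agent.W552.exists_subfield_hom S hS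
  have hg : ∀ i j, G.g i j ∈ F := fun i j => hF (Or.inl (Set.mem_iUnion.2 ⟨(i, j), by simp⟩))
  have hc : ∀ i j, G.c i j ∈ F := fun i j => hF (Or.inl (Set.mem_iUnion.2 ⟨(i, j), by simp⟩))
  have hv : ∀ (i : Fin n) l, v (e i).1 l ∈ F := fun i l =>
    hF (Or.inr (Set.mem_iUnion.2 ⟨i, l, rfl⟩))
  let GF : GD F ι κ := ⟨G.blk, fun i j => ⟨G.g i j, hg i j⟩, fun i j => ⟨G.c i j, hc i j⟩⟩
  let vF : ∀ i : Fin n, (A' i → ι) → F := fun i l => ⟨v (e i).1 l, hv i l⟩
  have hGF : GF.map F.subtype = G := rfl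
  have hvF : (fun i => mpL F.subtype (A' i) (vF i)) = fun i => v (e i).1 := rfl
  have hup : ∀ (β : Type) [Fintype β] [DecidableEq β], ∀ y ∈ genG GF vF β,
      mpL F.subtype β y ∈ genG G v β := by
    intro β _ _ y hy
    have h1 := map_genG F.subtype hy
    rw [hGF] at h1
    exact genG_le isSysG_gen (fun i => genG_self (v := v) (e i).1) h1
  have hinj : Function.Injective F.subtype := F.subtype.injective
  have hposF : ∀ (β : Type) [Fintype β] [DecidableEq β],
      (∀ x ∈ genG G v β, ∃ q : ℚ, 0 ≤ q ∧ bfG G x x = q) →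
      ∀ y ∈ genG GF vF β, ∃ q : ℚ, 0 ≤ q ∧ bfG GF y y = q := by
    intro β _ _ hβ y hy
    obtain ⟨q, hq0, hq⟩ := hβ _ (hup β y hy)
    refine ⟨q, hq0, hinj ?_⟩
    rw [mpL_bf, map_ratCast]
    exact hq
  have hxF : ∃ y ∈ genG GF vF α, mpL F.subtype α y = x := by
    apply of_map_genG
    rw [hGF]
    refine genG_le isSysG_gen ?_ hJ
    intro j
    obtain ⟨i, rfl⟩ := e.surjective j
    exact genG_self (v := fun i => mpL F.subtype (A' i) (vF i)) i
  obtain ⟨y, hy, hyx⟩ := hxF
  refine fdF σ (G := GF) (v := vF) (IsGD.of_inj F.subtype h) (fun i j hij => hb i j fun h0 => hij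
    (Subtype.ext h0)) (fun i l => hinj ?_) (fun z hz => ?_) (fun i => hposF _ (hpos (e i).1))
    (hposF _ hposB) α y hy q (hinj ?_)
  · rw [map_mul, map_intCast]
    exact hev (e i).1 l
  · obtain ⟨q, hq⟩ := hrat _ (hup Empty z hz)
    refine ⟨q, ?_⟩
    funext l
    apply hinj
    rw [map_ratCast]
    exact congrFun hq l
  · rw [mpL_bf, map_ratCast, hyx]
    exact hq

end FDK

end Pool.Agent.H24FD
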