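import Pool.Agent.H24FD.Sys

/-!
# Linear functionals on polynomial rings and points of affine varieties
-/

set_option autoImplicit false
set_option linter.unusedSectionVars false

universe v

namespace Pool.Agent.H24FD

open MvPolynomial

section Functional

variable {σ : Type} [Fintype σ] [DecidableEq σ] {C : Type v} [CommRing C]

lemma monomial_eq_prod (m : σ →₀ ℕ) :
    (monomial m 1 : MvPolynomial σ C) = ∏ t : Σ s : σ, Fin (m s), X t.1 := by
  rw [Fintype.prod_sigma, monomial_eq, C_1, one_mul, Finsupp.prod_fintype _ _ (by simp)]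
  apply Finset.prod_congr rfl
  intro s _
  change X s ^ m s = ∏ _y : Fin (m s), X s
  rw [Finset.prod_const, Finset.card_univ, Fintype.card_fin]

/-- A functional with given values on the products of variables. -/
theorem exists_functional (Φ : ∀ (τ : Type) [Fintype τ] [DecidableEq τ], (τ → σ) → C)
    (hΦ : ∀ {τ τ' : Type} [Fintype τ] [DecidableEq τ] [Fintype τ'] [DecidableEq τ'] (e : τ ≃ τ')
      (p : τ' → σ), Φ τ (fun t => p (e t)) = Φ τ' p) :
    ∃ I : MvPolynomial σ C →ₗ[C] C, ∀ (τ : Type) [Fintype τ] [DecidableEq τ] (p : τ → σ),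
      I (∏ t, X (p t)) = Φ τ p := by
  refine ⟨(basisMonomials σ C).constr C (fun m => Φ (Σ s : σ, Fin (m s)) (fun t => t.1)), ?_⟩
  intro τ _ _ p
  have h1 : (∏ t, X (p t) : MvPolynomial σ C) =
      basisMonomials σ C (∑ t, Finsupp.single (p t) 1) := by
    rw [coe_basisMonomials]
    exact (monomial_sum_one Finset.univ (fun t => Finsupp.single (p t) 1)).symm
  rw [h1, Module.Basis.constr_basis]
  set m : σ →₀ ℕ := ∑ t, Finsupp.single (p t) 1 with hm
  have hc : ∀ s, Fintype.card {t // p t = s} = m s := by
    intro s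
    rw [hm, Finsupp.finsetSum_apply, Fintype.card_subtype, Finset.card_filter]
    apply Finset.sum_congr rfl
    intro t _
    rw [Finsupp.single_apply]
  let e : τ ≃ Σ s : σ, Fin (m s) := (Equiv.sigmaFiberEquiv p).symm.trans
    (Equiv.sigmaCongrRight fun s => Fintype.equivFinOfCardEq (hc s))
  rw [← hΦ e]
  rfl

/-- Two functionals which agree on the products of variables. -/
theorem functional_ext {M : Type*} [AddCommMonoid M] [Module C M]
    {I J : MvPolynomial σ C →ₗ[C] M}
    (h : ∀ (τ : Type) [Fintype τ] [DecidableEq τ] (p : τ → σ),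
      I (∏ t, X (p t)) = J (∏ t, X (p t))) : I = J := by
  refine (basisMonomials σ C).ext fun m => ?_
  rw [coe_basisMonomials]
  have := h (Σ s : σ, Fin (m s)) (fun t => t.1)
  rwa [← monomial_eq_prod] at this

/-- A point in the zero set of an ideal killed by a functional. -/
theorem exists_point {σ : Type} [Finite σ] {I : Ideal (MvPolynomial σ ℂ)} (hI : I ≠ ⊤) :
    ∃ h : σ → ℂ, ∀ f ∈ I, eval h f = 0 := by
  obtain ⟨M, hM, hIM⟩ := Ideal.exists_le_maximal I hI
  obtain ⟨x, hx⟩ := MvPolynomial.isMaximal_iff_eq_vanishingIdeal_singleton.1 hM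
  refine ⟨x, fun f hf => ?_⟩
  have h1 := hIM hf
  rw [hx] at h1
  have h2 := (MvPolynomial.mem_vanishingIdeal_iff.1 h1) x rfl
  exact h2

end Functional

section Torsor

variable {ι : Type} [Fintype ι] [DecidableEq ι]

/-- The generic matrix acting on tensors. -/
noncomputable def gact {α : Type} [Fintype α] [DecidableEq α] (x : (α → ι) → ℂ) (i : α → ι) :
    MvPolynomial (ι × ι) ℂ :=
  ∑ j : α → ι, C (x j) * ∏ a, X (i a, j a)

lemma eval_gact {α : Type} [Fintype α] [DecidableEq α] (x : (α → ι) → ℂ) (i : α → ι)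
    (h : ι × ι → ℂ) : eval h (gact x i) = act (Matrix.of fun i j => h (i, j)) x i := by
  unfold gact act
  rw [map_sum]
  apply Finset.sum_congr rfl
  intro j _
  rw [map_mul, eval_C, map_prod, mul_comm]
  simp

/-- A family of linear maps with the formal properties of the integral over the isomorphisms of two
systems of tensors. -/
structure QFam (D : ∀ (α : Type) [Fintype α] [DecidableEq α],
      Set (((α → ι) → ℂ) × ((α → ι) → ℂ)))
    (Q : ∀ (α : Type) [Fintype α] [DecidableEq α], ((α → ι) → ℂ) →ₗ[ℂ] ((α → ι) → ℂ)) :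
    Prop where
  one : Q Empty (fun _ => 1) = fun _ => 1
  re : ∀ {α β : Type} [Fintype α] [DecidableEq α] [Fintype β] [DecidableEq β] (e : α ≃ β)
    (y : (α → ι) → ℂ), Q β (re e y) = re e (Q α y)
  ten : ∀ {α β : Type} [Fintype α] [DecidableEq α] [Fintype β] [DecidableEq β]
    {x x' : (α → ι) → ℂ} (y : (β → ι) → ℂ), (x, x') ∈ D α →
      Q (α ⊕ β) (ten x y) = ten x' (Q β y)

variable {D : ∀ (α : Type) [Fintype α] [DecidableEq α],
      Set (((α → ι) → ℂ) × ((α → ι) → ℂ))}
    {Q : ∀ (α : Type) [Fintype α] [DecidableEq α], ((α → ι) → ℂ) →ₗ[ℂ] ((α → ι) → ℂ)}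

variable (D) in
/-- The ideal of the isomorphisms of two systems of tensors. -/
noncomputable def isoIdeal : Ideal (MvPolynomial (ι × ι) ℂ) :=
  Ideal.span {f | ∃ (α : Type) (_ : Fintype α) (_ : DecidableEq α)
    (x x' : (α → ι) → ℂ) (i : α → ι), (x, x') ∈ D α ∧ f = gact x i - C (x' i)}

lemma re_single {α β : Type} [Fintype α] [DecidableEq α] [Fintype β] [DecidableEq β]
    (e : α ≃ β) (l : β → ι) :
    re e (Pi.single (fun t => l (e t)) (1 : ℂ) : (α → ι) → ℂ) = Pi.single l 1 := by
  funext m
  unfold re
  rw [Pi.single_apply, Pi.single_apply]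
  congr 1
  apply propext
  constructor
  · intro h
    funext t
    have := congrFun h (e.symm t)
    simpa using this
  · rintro rfl
    rfl

lemma ten_single {α β : Type} [Fintype α] [DecidableEq α] [Fintype β] [DecidableEq β]
    (x : (α → ι) → ℂ) (l : β → ι) :
    ten x (Pi.single l (1 : ℂ)) = ∑ j, x j • (Pi.single (Sum.elim j l) 1 : (α ⊕ β → ι) → ℂ) := by
  funext m
  rw [Finset.sum_apply]
  have hm : m = Sum.elim (fun a => m (Sum.inl a)) (fun b => m (Sum.inr b)) := by
    funext c; rcases c with a | b <;> rfl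
  rw [Finset.sum_eq_single (fun a => m (Sum.inl a))]
  · unfold ten
    rw [Pi.smul_apply, smul_eq_mul]
    congr 1
    rw [Pi.single_apply, Pi.single_apply]
    congr 1
    apply propext
    constructor
    · rintro rfl
      exact hm
    · intro h
      funext b
      exact congrFun h (Sum.inr b)
  · intro j _ hj
    rw [Pi.smul_apply, Pi.single_apply, if_neg, smul_zero]
    rintro rfl
    exact hj rfl
  · intro h
    exact absurd (Finset.mem_univ _) h

/-- The functional of a family. -/
theorem QFam.functional (h : QFam D Q) : ∃ I : MvPolynomial (ι × ι) ℂ →ₗ[ℂ] ℂ,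
    (∀ (τ : Type) [Fintype τ] [DecidableEq τ] (p : τ → ι × ι), I (∏ t, X (p t)) =
      Q τ (Pi.single (fun t => (p t).2) 1) (fun t => (p t).1)) ∧ I 1 = 1 ∧
    ∀ f ∈ isoIdeal D, I f = 0 := by
  obtain ⟨I, hI⟩ := exists_functional (σ := ι × ι) (C := ℂ)
    (fun τ _ _ p => Q τ (Pi.single (fun t => (p t).2) 1) (fun t => (p t).1)) (by
    intro τ τ' _ _ _ _ e p
    have h1 := h.re e (Pi.single (fun t => (p (e t)).2) 1)
    rw [re_single e (fun t => (p t).2)] at h1
    rw [h1]
    rfl)
  refine ⟨I, hI, ?_, ?_⟩
  · have h1 := hI Empty (fun a => a.elim)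
    rw [Finset.univ_eq_empty, Finset.prod_empty] at h1
    rw [h1]
    have h2 : (Pi.single (fun t : Empty => ((t.elim : ι × ι)).2) 1 : (Empty → ι) → ℂ) =
        fun _ => 1 := by
      funext l
      rw [Pi.single_apply, if_pos (Subsingleton.elim _ _)]
    rw [h2, h.one]
  · have key : ∀ f ∈ isoIdeal D, ∀ g, I (g * f) = 0 := by
      intro f hf
      refine Submodule.span_induction (p := fun f _ => ∀ g, I (g * f) = 0) ?_ ?_ ?_ ?_ hf
      · rintro f ⟨α, _, _, x, x', i, hx, rfl⟩
        suffices hs : (I ∘ₗ (LinearMap.mulRight ℂ (gact x i - C (x' i)))) = 0 by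
          intro g
          exact LinearMap.congr_fun hs g
        apply functional_ext
        intro τ _ _ p
        rw [LinearMap.comp_apply, LinearMap.mulRight_apply, LinearMap.zero_apply, mul_sub,
          map_sub, sub_eq_zero]
        have h1 : (∏ t, X (p t) : MvPolynomial (ι × ι) ℂ) * gact x i =
            ∑ j, x j • ∏ c : α ⊕ τ, X (Sum.elim (fun a => (i a, j a)) p c) := by
          unfold gact
          rw [Finset.mul_sum]
          apply Finset.sum_congr rfl
          intro j _
          rw [Fintype.prod_sum_type, smul_eq_C_mul]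
          simp only [Sum.elim_inl, Sum.elim_inr]
          ring
        have h2 := h.ten (Pi.single (fun t => (p t).2) 1) hx
        rw [ten_single, map_sum] at h2
        have h3 := congrFun h2 (Sum.elim i (fun t => (p t).1))
        rw [ten_apply, Finset.sum_apply] at h3
        rw [h1, map_sum, mul_comm, ← smul_eq_C_mul, map_smul, hI, smul_eq_mul, ← h3]
        apply Finset.sum_congr rfl
        intro j _
        rw [map_smul, hI, map_smul, Pi.smul_apply]
        have h4 : (fun t => (Sum.elim (fun a => (i a, j a)) p t).2) =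
            Sum.elim j (fun t => (p t).2) := by
          funext c
          rcases c with a | b <;> rfl
        have h5 : (fun t => (Sum.elim (fun a => (i a, j a)) p t).1) =
            Sum.elim i (fun t => (p t).1) := by
          funext c
          rcases c with a | b <;> rfl
        rw [h4, h5]
      · intro g; simp
      · intro a b _ _ ha hb g
        rw [mul_add, map_add, ha, hb, add_zero]
      · intro r a _ ha g
        rw [smul_eq_mul, ← mul_assoc]
        exact ha _
    intro f hf
    have := key f hf 1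
    rwa [one_mul] at this

/-- **Two systems of tensors with the same contractions are conjugate.** -/
theorem QFam.exists_iso (h : QFam D Q) : ∃ g : Matrix ι ι ℂ,
    ∀ (α : Type) [Fintype α] [DecidableEq α] (x x' : (α → ι) → ℂ), (x, x') ∈ D α →
      act g x = x' := by
  obtain ⟨I, -, h1, h0⟩ := h.functional
  have hne : isoIdeal D ≠ ⊤ := by
    intro h2
    have := h0 1 (by rw [h2]; exact Submodule.mem_top)
    rw [h1] at this
    exact one_ne_zero this
  obtain ⟨p, hp⟩ := exists_point hne
  refine ⟨Matrix.of fun i j => p (i, j), fun α _ _ x x' hx => ?_⟩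
  funext i
  have h3 := hp _ (Ideal.subset_span ⟨α, inferInstance, inferInstance, x, x', i, hx, rfl⟩)
  rw [map_sub, eval_gact, eval_C, sub_eq_zero] at h3
  exact h3

end Torsor

end Pool.Agent.H24FD
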