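import Pool.Agent.H24FD.FD

/-!
# Systems of tensors for a general bilinear form with blocks
-/

set_option autoImplicit false
set_option linter.unusedSectionVars false

universe v v'

namespace Pool.Agent.H24FD

/-- A bilinear form on the free module with basis `ι`, and a dual tensor, with blocks `κ`. -/
structure GD (K : Type v) (ι κ : Type) where
  /-- the block of a basis vector -/
  blk : ι → κ
  /-- the form -/
  g : ι → ι → K
  /-- the dual tensor -/
  c : ι → ι → K

section Ops

variable {K : Type v} [CommRing K] {ι κ : Type} [Fintype ι] [DecidableEq ι] [DecidableEq κ]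
  (G : GD K ι κ) {α β : Type} [Fintype α] [DecidableEq α] [Fintype β] [DecidableEq β]

/-- The contraction of the first two slots. -/
def ctrG (x : (Bool ⊕ β → ι) → K) : (β → ι) → K :=
  fun k => ∑ i, ∑ j, G.g i j * x (cons2 i j k)

/-- The blocks of the dual tensor. -/
def cpG (p : κ) : (Bool → ι) → K :=
  fun k => if G.blk (k false) = p then G.c (k false) (k true) else 0

/-- The form on the tensors. -/
def bfG (x y : (α → ι) → K) : K :=
  ∑ i : α → ι, ∑ j : α → ι, (∏ a, G.g (i a) (j a)) * (x i * y j)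

variable [Algebra ℚ K]

/-- A system of rational subspaces of tensors. -/
structure IsSysG (S : ∀ (α : Type) [Fintype α] [DecidableEq α], Submodule ℚ ((α → ι) → K)) :
    Prop where
  one : (fun _ => 1) ∈ S Empty
  re : ∀ {α β : Type} [Fintype α] [DecidableEq α] [Fintype β] [DecidableEq β] (e : α ≃ β)
    {x : (α → ι) → K}, x ∈ S α → re e x ∈ S β
  ten : ∀ {α β : Type} [Fintype α] [DecidableEq α] [Fintype β] [DecidableEq β]
    {x : (α → ι) → K} {y : (β → ι) → K}, x ∈ S α → y ∈ S β → ten x y ∈ S (α ⊕ β)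
  ctr : ∀ {β : Type} [Fintype β] [DecidableEq β] {x : (Bool ⊕ β → ι) → K},
    x ∈ S (Bool ⊕ β) → ctrG G x ∈ S β
  cp : ∀ p : κ, cpG G p ∈ S Bool

/-- The system generated by tensors. -/
def genG {I : Type*} {A : I → Type} [∀ i, Fintype (A i)] [∀ i, DecidableEq (A i)]
    (v : ∀ i, (A i → ι) → K) (α : Type) [Fintype α] [DecidableEq α] :
    Submodule ℚ ((α → ι) → K) :=
  sInf {M | ∃ S : ∀ (α : Type) [Fintype α] [DecidableEq α], Submodule ℚ ((α → ι) → K),
    IsSysG G S ∧ (∀ i, v i ∈ S (A i)) ∧ M = S α}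

variable {G}

section Gen

variable {I : Type*} {A : I → Type} [∀ i, Fintype (A i)] [∀ i, DecidableEq (A i)]
  {v : ∀ i, (A i → ι) → K}

lemma mem_genG {α : Type} [Fintype α] [DecidableEq α] {x : (α → ι) → K} :
    x ∈ genG G v α ↔ ∀ S : ∀ (α : Type) [Fintype α] [DecidableEq α],
      Submodule ℚ ((α → ι) → K), IsSysG G S → (∀ i, v i ∈ S (A i)) → x ∈ S α := by
  unfold genG
  rw [Submodule.mem_sInf]
  constructor
  · intro h S hS hv
    exact h _ ⟨S, hS, hv, rfl⟩
  · rintro h M ⟨S, hS, hv, rfl⟩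
    exact h S hS hv

lemma isSysG_gen : IsSysG G (fun α _ _ => genG G v α) where
  one := mem_genG.2 fun _ hS _ => hS.one
  re e _ hx := mem_genG.2 fun S hS hv => hS.re e (mem_genG.1 hx S hS hv)
  ten hx hy := mem_genG.2 fun S hS hv => hS.ten (mem_genG.1 hx S hS hv) (mem_genG.1 hy S hS hv)
  ctr hx := mem_genG.2 fun S hS hv => hS.ctr (mem_genG.1 hx S hS hv)
  cp p := mem_genG.2 fun _ hS _ => hS.cp p

lemma genG_self (i : I) : v i ∈ genG G v (A i) := mem_genG.2 fun _ _ hv => hv i

lemma genG_le {S : ∀ (α : Type) [Fintype α] [DecidableEq α], Submodule ℚ ((α → ι) → K)}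
    (hS : IsSysG G S) (hv : ∀ i, v i ∈ S (A i)) {α : Type} [Fintype α] [DecidableEq α]
    {x : (α → ι) → K} (hx : x ∈ genG G v α) : x ∈ S α := mem_genG.1 hx S hS hv

end Gen

section Map

variable {L : Type v'} [CommRing L] [Algebra ℚ L] (φ : K →+* L)

/-- The form over an extension. -/
def GD.map {K : Type v} {L : Type v'} [CommRing K] [CommRing L] {ι κ : Type} (G : GD K ι κ)
    (φ : K →+* L) : GD L ι κ := ⟨G.blk, fun i j => φ (G.g i j), fun i j => φ (G.c i j)⟩

/-- The extension of the coefficients of tensors. -/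
def mpL (α : Type) : ((α → ι) → K) →ₗ[ℚ] ((α → ι) → L) where
  toFun x := fun l => φ (x l)
  map_add' x y := by funext l; simp
  map_smul' r x := by
    funext l
    rw [RingHom.id_apply, Pi.smul_apply, Pi.smul_apply, Algebra.smul_def, map_mul,
      Algebra.smul_def]
    congr 1
    exact RingHom.congr_fun (Subsingleton.elim (φ.comp (algebraMap ℚ K)) (algebraMap ℚ L)) r

lemma mpL_apply {α : Type} (x : (α → ι) → K) : mpL φ α x = fun l => φ (x l) := rfl

lemma mpL_ctr {β : Type} [Fintype β] [DecidableEq β] (x : (Bool ⊕ β → ι) → K) :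
    mpL φ β (ctrG G x) = ctrG (G.map φ) (mpL φ _ x) := by
  funext k
  simp only [mpL_apply, ctrG, map_sum, map_mul]
  rfl

lemma mpL_cp (p : κ) : mpL φ Bool (cpG G p) = cpG (G.map φ) p := by
  funext k
  simp only [mpL_apply, cpG]
  change φ (if G.blk (k false) = p then G.c (k false) (k true) else 0) =
    if G.blk (k false) = p then φ (G.c (k false) (k true)) else 0
  split_ifs
  · rfl
  · exact map_zero φ

lemma mpL_bf {α : Type} [Fintype α] [DecidableEq α] (x y : (α → ι) → K) :
    φ (bfG G x y) = bfG (G.map φ) (mpL φ α x) (mpL φ α y) := by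
  simp only [bfG, mpL_apply, map_sum, map_mul, map_prod]
  rfl

lemma isSysG_comap {S : ∀ (α : Type) [Fintype α] [DecidableEq α], Submodule ℚ ((α → ι) → L)}
    (h : IsSysG (G.map φ) S) : IsSysG G (fun α _ _ => (S α).comap (mpL φ α)) where
  one := by
    rw [Submodule.mem_comap]
    convert h.one using 1
    funext l
    simp [mpL_apply]
  re e x hx := h.re e hx
  ten {α β _ _ _ _ x y} hx hy := by
    rw [Submodule.mem_comap] at hx hy ⊢
    convert h.ten hx hy using 1
    funext l
    simp [mpL_apply, H24FD.ten]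
  ctr {β _ _ x} hx := by
    rw [Submodule.mem_comap] at hx ⊢
    rw [mpL_ctr]
    exact h.ctr hx
  cp p := by
    rw [Submodule.mem_comap, mpL_cp]
    exact h.cp p

lemma isSysG_map {S : ∀ (α : Type) [Fintype α] [DecidableEq α], Submodule ℚ ((α → ι) → K)}
    (h : IsSysG G S) : IsSysG (G.map φ) (fun α _ _ => (S α).map (mpL φ α)) where
  one := ⟨_, h.one, by funext l; simp [mpL_apply]⟩
  re {α β _ _ _ _} e x hx := by
    obtain ⟨y, hy, rfl⟩ := hx
    exact ⟨_, h.re e hy, rfl⟩
  ten {α β _ _ _ _ x y} hx hy := by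
    obtain ⟨x, hx, rfl⟩ := hx
    obtain ⟨y, hy, rfl⟩ := hy
    exact ⟨_, h.ten hx hy, by funext l; simp [mpL_apply, H24FD.ten]⟩
  ctr {β _ _ x} hx := by
    obtain ⟨x, hx, rfl⟩ := hx
    exact ⟨_, h.ctr hx, mpL_ctr φ x⟩
  cp p := ⟨_, h.cp p, mpL_cp φ p⟩

lemma map_genG {I : Type*} {A : I → Type} [∀ i, Fintype (A i)] [∀ i, DecidableEq (A i)]
    {v : ∀ i, (A i → ι) → K} {α : Type} [Fintype α] [DecidableEq α] {x : (α → ι) → K}
    (hx : x ∈ genG G v α) : mpL φ α x ∈ genG (G.map φ) (fun i => mpL φ (A i) (v i)) α :=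
  genG_le (isSysG_comap φ isSysG_gen) (fun i => genG_self (v := fun i => mpL φ (A i) (v i)) i) hx

lemma of_map_genG {I : Type*} {A : I → Type} [∀ i, Fintype (A i)] [∀ i, DecidableEq (A i)]
    {v : ∀ i, (A i → ι) → K} {α : Type} [Fintype α] [DecidableEq α] {y : (α → ι) → L}
    (hy : y ∈ genG (G.map φ) (fun i => mpL φ (A i) (v i)) α) :
    ∃ x ∈ genG G v α, mpL φ α x = y :=
  genG_le (isSysG_map φ isSysG_gen) (fun i => ⟨v i, genG_self i, rfl⟩) hy

end Map

section Fin

variable {I : Type*} {A : I → Type} [∀ i, Fintype (A i)] [∀ i, DecidableEq (A i)]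
  {v : ∀ i, (A i → ι) → K}

lemma genG_mono {J J' : Finset I} (h : J ⊆ J') {α : Type} [Fintype α] [DecidableEq α]
    {x : (α → ι) → K} (hx : x ∈ genG G (A := fun i : J => A i.1) (fun i : J => v i.1) α) :
    x ∈ genG G (A := fun i : J' => A i.1) (fun i : J' => v i.1) α :=
  genG_le isSysG_gen (fun i => genG_self (A := fun i : J' => A i.1)
    (v := fun i : J' => v i.1) ⟨i.1, h i.2⟩) hx

/-- Every element of a generated system lies in the system generated by finitely many of the
generators. -/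
lemma genG_fin {α : Type} [Fintype α] [DecidableEq α] {x : (α → ι) → K} (hx : x ∈ genG G v α) :
    ∃ J : Finset I, x ∈ genG G (A := fun i : J => A i.1) (fun i : J => v i.1) α := by
  classical
  let S : ∀ (α : Type) [Fintype α] [DecidableEq α], Submodule ℚ ((α → ι) → K) := fun α _ _ =>
    { carrier := {x | ∃ J : Finset I,
        x ∈ genG G (A := fun i : J => A i.1) (fun i : J => v i.1) α}
      add_mem' := by
        rintro x y ⟨J, hJ⟩ ⟨J', hJ'⟩
        exact ⟨J ∪ J', Submodule.add_mem _ (genG_mono Finset.subset_union_left hJ)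
          (genG_mono Finset.subset_union_right hJ')⟩
      zero_mem' := ⟨∅, Submodule.zero_mem _⟩
      smul_mem' := by
        rintro r x ⟨J, hJ⟩
        exact ⟨J, Submodule.smul_mem _ _ hJ⟩ }
  have hS : IsSysG G S :=
    { one := ⟨∅, isSysG_gen.one⟩
      re := by
        intro α β _ _ _ _ e x hx
        obtain ⟨J, hJ⟩ := hx
        exact ⟨J, isSysG_gen.re e hJ⟩
      ten := by
        intro α β _ _ _ _ x y hx hy
        obtain ⟨J, hJ⟩ := hx
        obtain ⟨J', hJ'⟩ := hy
        exact ⟨J ∪ J', isSysG_gen.ten (genG_mono Finset.subset_union_left hJ)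
          (genG_mono Finset.subset_union_right hJ')⟩
      ctr := by
        intro β _ _ x hx
        obtain ⟨J, hJ⟩ := hx
        exact ⟨J, isSysG_gen.ctr hJ⟩
      cp := fun p => ⟨∅, isSysG_gen.cp p⟩ }
  exact genG_le hS (fun i => ⟨{i}, genG_self (A := fun i' : ({i} : Finset I) => A i'.1)
    (v := fun i' : ({i} : Finset I) => v i'.1) ⟨i, Finset.mem_singleton_self i⟩⟩) hx

end Fin

end Ops

end Pool.Agent.H24FD
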