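import Pool.Agent.H24FD.DC
import Pool.Agent.H24FD.Cj

/-!
# The group of the isometries, and its action on tensors
-/

set_option autoImplicit false
set_option linter.unusedSectionVars false

namespace Pool.Agent.H24FD

open scoped ComplexOrder MatrixOrder
open Matrix

section GG

variable {ι : Type} [Fintype ι] [DecidableEq ι] (sd : Std ι)

/-- The parity projector. -/
def Pm (p : Bool) : Matrix ι ι ℂ := Matrix.diagonal fun i => if sd.par i = p then 1 else 0

/-- The isometries of the form, even and odd. -/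
def InG (g : Matrix ι ι ℂ) : Prop := ∀ p, act g (cp sd p) = cp sd p

lemma Cm_eq (p : Bool) : (Cm sd p : Matrix ι ι ℂ) = Pm sd p * Sm sd := by
  ext i j
  rw [Pm, Matrix.diagonal_mul, Cm, Sm, Matrix.of_apply, Matrix.of_apply]
  by_cases h1 : sd.par i = p <;> by_cases h2 : j = sd.st i <;> simp [h1, h2]

lemma Pm_Sm (p : Bool) : Pm sd p * (Sm sd : Matrix ι ι ℂ) = Sm sd * Pm sd p := by
  ext i j
  rw [Pm, Matrix.diagonal_mul, Matrix.mul_diagonal, Sm, Matrix.of_apply]
  by_cases h2 : j = sd.st i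
  · rw [h2, if_pos rfl, sd.par_st, mul_comm]
  · rw [if_neg h2, mul_zero, zero_mul]

lemma Pm_conjTranspose (p : Bool) : (Pm sd p)ᴴ = Pm sd p := by
  unfold Pm
  rw [Matrix.diagonal_conjTranspose]
  congr 1
  funext i
  rw [Pi.star_apply]
  split_ifs <;> simp

lemma Sm_map_star : (Sm sd : Matrix ι ι ℂ).map (starRingEnd ℂ) = Sm sd := by
  ext i j
  rw [Matrix.map_apply, Sm, Matrix.of_apply]
  split_ifs <;> simp

lemma Sm_conjTranspose : (Sm sd : Matrix ι ι ℂ)ᴴ = (Sm sd)ᵀ := by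
  ext i j
  rw [Matrix.conjTranspose_apply, Matrix.transpose_apply, Sm, Matrix.of_apply]
  split_ifs <;> simp

lemma inG_iff (g : Matrix ι ι ℂ) :
    InG sd g ↔ g * Sm sd * gᵀ = Sm sd ∧ ∀ p, g * Pm sd p = Pm sd p * g := by
  constructor
  · intro h
    have h1 := mul_Sm sd h
    refine ⟨h1, fun p => ?_⟩
    have h2 := (act_cp_iff sd g p).1 (h p)
    rw [Cm_eq, ← h1] at h2
    have h3 : (g * Pm sd p - Pm sd p * g) * (Sm sd * gᵀ) = 0 := by
      rw [Matrix.sub_mul, sub_eq_zero]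
      have h4 : g * Pm sd p * (Sm sd * gᵀ) = g * (Pm sd p * Sm sd) * gᵀ := by
        simp only [Matrix.mul_assoc]
      rw [h4]
      have h5 : g * (Pm sd p * Sm sd) * gᵀ = Pm sd p * Sm sd := by
        rw [← Cm_eq]
        exact (act_cp_iff sd g p).1 (h p)
      rw [h5]
      conv_lhs => rw [← h1]
      simp only [Matrix.mul_assoc]
    have h6 : (Sm sd * gᵀ) * ((Sm sd)ᵀ * g) = 1 := by
      have h7 := inv_mul_Sm sd h
      rw [← Matrix.mul_assoc]
      exact h7
    have h8 := congrArg (fun M => M * ((Sm sd)ᵀ * g)) h3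
    simp only [Matrix.mul_assoc] at h6 h8
    rw [h6, Matrix.mul_one, Matrix.zero_mul] at h8
    exact sub_eq_zero.1 h8
  · rintro ⟨h1, h2⟩ p
    rw [act_cp_iff, Cm_eq, ← Matrix.mul_assoc, h2 p, Matrix.mul_assoc, Matrix.mul_assoc,
      ← Matrix.mul_assoc g, h1]

lemma inG_transpose {g : Matrix ι ι ℂ} (h : g * Sm sd * gᵀ = Sm sd) :
    gᵀ * Sm sd * g = Sm sd := by
  have h1 : (g * Sm sd) * (gᵀ * (Sm sd)ᵀ) = 1 := by
    rw [← Matrix.mul_assoc, h, Sm_mul_transpose]
  have h2 : (gᵀ * (Sm sd)ᵀ) * (g * Sm sd) = 1 := mul_eq_one_comm.1 h1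
  have h3 : gᵀ * (Sm sd)ᵀ * g = (Sm sd)ᵀ := by
    have h4 := congrArg (fun M => M * (Sm sd)ᵀ) h2
    simp only [Matrix.mul_assoc] at h4 ⊢
    rw [Sm_mul_transpose, Matrix.mul_one, Matrix.one_mul] at h4
    exact h4
  have h5 := congrArg Matrix.transpose h3
  rw [Matrix.transpose_mul, Matrix.transpose_mul, Matrix.transpose_transpose,
    Matrix.transpose_transpose, ← Matrix.mul_assoc] at h5
  exact h5

lemma InG.one : InG sd (1 : Matrix ι ι ℂ) := fun _ => act_one _

variable {sd}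

lemma InG.mul {g h : Matrix ι ι ℂ} (hg : InG sd g) (hh : InG sd h) : InG sd (g * h) := by
  intro p
  rw [act_mul, hh p, hg p]

lemma InG.conjTranspose {g : Matrix ι ι ℂ} (hg : InG sd g) : InG sd gᴴ := by
  rw [inG_iff] at hg ⊢
  obtain ⟨h1, h2⟩ := hg
  refine ⟨?_, fun p => ?_⟩
  · have h3 := congrArg (fun M : Matrix ι ι ℂ => M.map (starRingEnd ℂ)) (inG_transpose sd h1)
    beta_reduce at h3
    rw [Matrix.map_mul, Matrix.map_mul, Sm_map_star] at h3
    exact h3
  · have h3 := congrArg Matrix.conjTranspose (h2 p)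
    rw [Matrix.conjTranspose_mul, Matrix.conjTranspose_mul, Pm_conjTranspose] at h3
    exact h3.symm

lemma eq_of_sq_eq {a b : Matrix ι ι ℂ} (ha : a.PosSemidef) (hb : b.PosSemidef)
    (h : a * a = b * b) : a = b := by
  rw [← CFC.sqrt_unique (a := a * a) (b := a) rfl ha.nonneg, h]
  exact CFC.sqrt_unique rfl hb.nonneg

variable (sd) in
/-- The parity sign. -/
def Es (p : Bool) : Matrix ι ι ℂ := Matrix.diagonal fun i => if sd.par i = p then 1 else -1

variable (sd) in
lemma Es_sq (p : Bool) : Es sd p * Es sd p = 1 := by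
  unfold Es
  rw [Matrix.diagonal_mul_diagonal, ← Matrix.diagonal_one]
  congr 1
  funext i
  split_ifs <;> simp

variable (sd) in
lemma Es_conjTranspose (p : Bool) : (Es sd p)ᴴ = Es sd p := by
  unfold Es
  rw [Matrix.diagonal_conjTranspose]
  congr 1
  funext i
  rw [Pi.star_apply]
  split_ifs <;> simp

variable (sd) in
lemma comm_iff (g : Matrix ι ι ℂ) (p : Bool) :
    g * Pm sd p = Pm sd p * g ↔ g * Es sd p = Es sd p * g := by
  have h1 : Es sd p = Pm sd p + Pm sd p - 1 := by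
    unfold Es Pm
    rw [← Matrix.diagonal_one, Matrix.diagonal_add, Matrix.diagonal_sub]
    congr 1
    funext i
    split_ifs <;> norm_num
  rw [h1, Matrix.mul_sub, Matrix.mul_add, Matrix.sub_mul, Matrix.add_mul, Matrix.mul_one,
    Matrix.one_mul, sub_left_inj]
  constructor
  · intro h
    rw [h]
  · intro h
    have h2 : (2 : ℂ) • (g * Pm sd p) = (2 : ℂ) • (Pm sd p * g) := by
      rw [two_smul, two_smul, h]
    exact smul_right_injective _ two_ne_zero h2

/-- The square root of a positive definite isometry is an isometry. -/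
lemma InG.sqrt {p : Matrix ι ι ℂ} (hp : InG sd p) (hpos : p.PosSemidef) :
    ∃ q : Matrix ι ι ℂ, InG sd q ∧ q.PosSemidef ∧ q * q = p := by
  have hq0 : (CFC.sqrt p).PosSemidef := Matrix.nonneg_iff_posSemidef.1 (CFC.sqrt_nonneg p)
  have hqq : CFC.sqrt p * CFC.sqrt p = p := CFC.sqrt_mul_sqrt_self p hpos.nonneg
  refine ⟨CFC.sqrt p, ?_, hq0, hqq⟩
  have hinv := hpos.inv_sqrt
  set q := CFC.sqrt p with hq
  rw [inG_iff] at hp ⊢
  obtain ⟨h1, h2⟩ := hp
  constructor
  · have e1 : (Sm sd * qᵀ * (Sm sd)ᵀ).PosSemidef := by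
      rw [← Sm_conjTranspose]
      exact hq0.transpose.mul_mul_conjTranspose_same (Sm sd)
    have e2 : (Sm sd * qᵀ * (Sm sd)ᵀ) * (Sm sd * qᵀ * (Sm sd)ᵀ) = Sm sd * pᵀ * (Sm sd)ᵀ := by
      have e3 : (Sm sd * qᵀ * (Sm sd)ᵀ) * (Sm sd * qᵀ * (Sm sd)ᵀ) =
          Sm sd * qᵀ * ((Sm sd)ᵀ * Sm sd) * qᵀ * (Sm sd)ᵀ := by simp only [Matrix.mul_assoc]
      rw [e3, Sm_transpose_mul, Matrix.mul_one, Matrix.mul_assoc (Sm sd), ← Matrix.transpose_mul,
        hqq]
    have e4 : p * (Sm sd * pᵀ * (Sm sd)ᵀ) = 1 := by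
      rw [← Matrix.mul_assoc, ← Matrix.mul_assoc, h1, Sm_mul_transpose]
    have e5 : p⁻¹ = Sm sd * pᵀ * (Sm sd)ᵀ := Matrix.inv_eq_right_inv e4
    have e6 : q⁻¹ = Sm sd * qᵀ * (Sm sd)ᵀ := by
      rw [hinv, e5]
      exact CFC.sqrt_unique e2 e1.nonneg
    have e7 : q * q⁻¹ = 1 := by
      apply Matrix.mul_nonsing_inv
      rw [← Matrix.isUnit_iff_isUnit_det]
      refine IsUnit.of_mul_eq_one (q * (Sm sd * pᵀ * (Sm sd)ᵀ)) ?_
      rw [← Matrix.mul_assoc, hqq, e4]
    rw [e6] at e7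
    have e8 := congrArg (fun M => M * Sm sd) e7
    simp only [Matrix.mul_assoc] at e8 ⊢
    rw [Sm_transpose_mul, Matrix.mul_one, Matrix.one_mul] at e8
    exact e8
  · intro r
    rw [comm_iff]
    have h3 := (comm_iff sd p r).1 (h2 r)
    have e1 : (Es sd r * q * Es sd r).PosSemidef := by
      have := hq0.mul_mul_conjTranspose_same (Es sd r)
      rwa [Es_conjTranspose] at this
    have e2 : Es sd r * q * Es sd r = q := by
      apply eq_of_sq_eq e1 hq0
      have e3 : Es sd r * q * Es sd r * (Es sd r * q * Es sd r) =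
          Es sd r * (q * (Es sd r * Es sd r) * q) * Es sd r := by simp only [Matrix.mul_assoc]
      rw [e3, Es_sq, Matrix.mul_one, hqq, ← h3, Matrix.mul_assoc, Es_sq, Matrix.mul_one]
    have e4 := congrArg (fun M => M * Es sd r) e2
    beta_reduce at e4
    rw [Matrix.mul_assoc, Es_sq, Matrix.mul_one] at e4
    exact e4.symm

end GG

end Pool.Agent.H24FD
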