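import Pool.Agent.H24FD.Rz

/-!
# Realizations of the nondegenerate quotient of a system of tensors: the theorem
-/

set_option autoImplicit false
set_option linter.unusedSectionVars false
set_option linter.style.haveILetI false

namespace Pool.Agent.H24FD

open MvPolynomial

section Gens

variable {ι : Type} [Fintype ι] [DecidableEq ι] (sd : Std ι)
  {I : Type} {A : I → Type} [∀ i, Fintype (A i)]
  [∀ i, DecidableEq (A i)] {P : Type} [CommRing P] [Algebra ℝ P] (w : ∀ i, (A i → ι) → ℂ × P)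

/-- The system generated by pairs. -/
noncomputable def gP (α : Type) [Fintype α] [DecidableEq α] : Submodule ℝ ((α → ι) → ℂ × P) := gen sd ℝ w α

lemma isSys_gP : IsSys sd ℝ (fun α _ _ => gP sd w α) := isSys_gen

lemma gP_self (i : I) : w i ∈ gP sd w (A i) := gen_self i

lemma gP_fst {α : Type} [Fintype α] [DecidableEq α] {x : (α → ι) → ℂ × P}
    (hx : x ∈ gP sd w α) : (fun l => (x l).1) ∈ gen sd ℝ (fun i l => (w i l).1) α :=
  map_gen (AlgHom.fst ℝ ℂ P) hx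

lemma gP_bigten {τ : Type} [Fintype τ] [DecidableEq τ] {B : τ → Type} [∀ t, Fintype (B t)]
    [∀ t, DecidableEq (B t)] (x : ∀ t, (B t → ι) → ℂ × P) (hx : ∀ t, x t ∈ gP sd w (B t)) :
    bigten x ∈ gP sd w (Σ t, B t) := (isSys_gP sd w).bigten τ B x hx

lemma bigten_fst {τ : Type} [Fintype τ] {B : τ → Type} (x : ∀ t, (B t → ι) → ℂ × P) :
    (fun l => (bigten x l).1) = bigten (fun t l => (x t l).1) := by
  funext l
  unfold bigten
  rw [Prod.fst_prod]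

lemma gP_lift {α : Type} [Fintype α] [DecidableEq α] {b : (α → ι) → ℂ × ℂ} (hb : b ∈ br sd α) :
    ∃ b' ∈ gP sd w α, (fun l => (b' l).1) = f1 b :=
  gen_le (isSys_comap (AlgHom.fst ℝ ℂ ℂ) (isSys_map (AlgHom.fst ℝ ℂ P) (isSys_gP sd w)))
    (fun i => i.elim) hb

lemma gP_pc {α β : Type} [Fintype α] [DecidableEq α] [Fintype β] [DecidableEq β]
    {x : (α ⊕ β → ι) → ℂ × P} {y : (α → ι) → ℂ × P} (hx : x ∈ gP sd w (α ⊕ β))
    (hy : y ∈ gP sd w α) : pc sd x y ∈ gP sd w β := (isSys_gP sd w).pc hx hy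

lemma pc_fst {α β : Type} [Fintype α] [DecidableEq α] [Fintype β] [DecidableEq β]
    (x : (α ⊕ β → ι) → ℂ × P) (y : (α → ι) → ℂ × P) :
    (fun l => (pc sd x y l).1) = pc sd (fun l => (x l).1) (fun l => (y l).1) :=
  map_pc (AlgHom.fst ℝ ℂ P) x y

lemma gP_re {α β : Type} [Fintype α] [DecidableEq α] [Fintype β] [DecidableEq β] (e : α ≃ β)
    {x : (α → ι) → ℂ × P} (hx : x ∈ gP sd w α) : re e x ∈ gP sd w β := (isSys_gP sd w).re e hx

lemma gen_ev {v : ∀ i, (A i → ι) → ℂ} (hev : ∀ i, Ev sd (v i)) {α : Type} [Fintype α]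
    [DecidableEq α] {x : (α → ι) → ℂ} (hx : x ∈ gen sd ℝ v α) : Ev sd x :=
  gen_le (isSys_ev (sd := sd) (k := ℝ)) hev hx

end Gens

section Rz

variable {ι : Type} [Fintype ι] [DecidableEq ι] (sd : Std ι)
  {I : Type} [Fintype I] [DecidableEq I] {A : I → Type} [∀ i, Fintype (A i)]
  [∀ i, DecidableEq (A i)] (v : ∀ i, (A i → ι) → ℂ)

/-- The basic functional. -/
noncomputable def F0 : MvPolynomial (Σ i, (A i → ι)) ℂ →ₗ[ℂ] ℂ :=
  Fn sd v (γ := Empty) (fun _ => (1 : ℂ)) Empty.elim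

lemma F0_one : F0 sd v 1 = 1 := by
  have h1 := Fn_prod sd v (γ := Empty) (fun _ => (1 : ℂ)) Empty.elim Empty (fun t => t.elim)
  rw [Finset.univ_eq_empty, Finset.prod_empty] at h1
  unfold F0
  rw [h1]
  unfold Ph
  let e : (Σ t : Empty, A ((t.elim : Σ i, (A i → ι))).1) ⊕ Empty ≃ Empty :=
    ⟨fun c => c.elim (fun c => c.1.elim) Empty.elim, Empty.elim, by
      rintro (⟨c, _⟩ | c) <;> exact c.elim, fun c => c.elim⟩
  rw [Q_re' sd e (y' := fun _ => 1) (l := Empty.elim)]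
  · rw [(npair_br sd).qfam.one]
  · funext n
    unfold re ten vp bigten
    simp
  · funext c
    rcases c with ⟨c, _⟩ | c <;> exact c.elim

lemma F0_kill_gen (hev : ∀ i, Ev sd (v i)) {α : Type} [Fintype α] [DecidableEq α]
    {x : (α → ι) → ℂ × MvPolynomial (Σ i, (A i → ι)) ℂ} {k : α → ι} (hx : x ∈ gP sd (gv v) α)
    (hx0 : ∀ y ∈ gP sd (gv v) α, bf sd (fun l => (x l).1) (fun l => (y l).1) = 0)
    (g : MvPolynomial (Σ i, (A i → ι)) ℂ) : F0 sd v (g * (x k).2) = 0 := by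
  have h1 := gen_le (isSys_US sd v) (gv_mem sd v) hx Empty (fun _ => (1 : ℂ)) Empty.elim k g
  unfold F0
  rw [h1]
  suffices hs : Fn sd v (ten (fun k => (x k).1) (fun _ : (Empty → ι) => (1 : ℂ)))
      (Sum.elim k Empty.elim) = 0 by rw [hs]; rfl
  apply functional_ext
  intro τ _ _ p
  rw [Fn_prod, LinearMap.zero_apply]
  unfold Ph
  rw [(npair_br sd).Q_eq_zero]
  · rfl
  intro b hb
  rw [bf_ten]
  obtain ⟨b', hb'G, hb'1⟩ := gP_lift sd (gv v) hb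
  have hvp : bigten (fun t => gv v (p t).1) ∈ gP sd (gv v) (Σ t : τ, A (p t).1) :=
    gP_bigten sd (gv v) _ (fun t => gP_self sd (gv v) _)
  have hvp1 : (fun l => (bigten (fun t => gv v (p t).1) l).1) = vp v p := bigten_fst _
  have hU := gP_pc sd (gv v) hb'G hvp
  have hU1 : (fun l => (pc sd b' (bigten (fun t => gv v (p t).1)) l).1) =
      pc sd (f1 b) (vp v p) := by
    rw [pc_fst, hb'1, hvp1]
  let e : α ≃ α ⊕ Empty := (Equiv.sumEmpty α Empty).symm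
  have h3 : ten (fun k => (x k).1) (fun _ : (Empty → ι) => (1 : ℂ)) =
      re e (fun k => (x k).1) := by
    funext n
    unfold ten re
    rw [mul_one]
    rfl
  have h4 : pc sd (f1 b) (vp v p) = re e (re e.symm (pc sd (f1 b) (vp v p))) := by
    funext n
    unfold re
    congr 1
    funext c
    rcases c with a | a
    · rfl
    · exact a.elim
  rw [h3, h4, bf_re]
  have h5 := gP_re sd (gv v) e.symm hU
  have h6 := hx0 _ h5
  have h7 : (fun l => (re e.symm (pc sd b' (bigten (fun t => gv v (p t).1))) l).1) =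
      re e.symm (pc sd (f1 b) (vp v p)) := by
    rw [← hU1]
    rfl
  rw [h7] at h6
  rw [bf_comm, h6]
  rw [← h7]
  exact gen_ev sd hev (gP_fst sd (gv v) h5)

/-- The generators of the ideal. -/
def bS : Set (MvPolynomial (Σ i, (A i → ι)) ℂ) :=
  {f | ∃ (α : Type) (_ : Fintype α) (_ : DecidableEq α)
    (x : (α → ι) → ℂ × MvPolynomial (Σ i, (A i → ι)) ℂ) (k : α → ι), x ∈ gP sd (gv v) α ∧
      (∀ y ∈ gP sd (gv v) α, bf sd (fun l => (x l).1) (fun l => (y l).1) = 0) ∧ f = (x k).2}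

lemma F0_kill (hev : ∀ i, Ev sd (v i)) {f : MvPolynomial (Σ i, (A i → ι)) ℂ}
    (hf : f ∈ Ideal.span (bS sd v)) (g : MvPolynomial (Σ i, (A i → ι)) ℂ) :
    F0 sd v (g * f) = 0 := by
  revert g
  refine Submodule.span_induction (p := fun f _ => ∀ g, F0 sd v (g * f) = 0) ?_ ?_ ?_ ?_ hf
  · rintro f ⟨α, _, _, x, k, hx, hx0, rfl⟩ g
    exact F0_kill_gen sd v hev hx hx0 g
  · intro g; simp
  · intro a b _ _ ha hb g
    rw [mul_add, map_add, ha, hb, add_zero]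
  · intro r a _ ha g
    rw [smul_eq_mul, ← mul_assoc]
    exact ha _

lemma bS_ne_top (hev : ∀ i, Ev sd (v i)) : Ideal.span (bS sd v) ≠ ⊤ := by
  intro h1
  have h2 := F0_kill sd v hev (f := 1) (by rw [h1]; exact Submodule.mem_top) 1
  rw [mul_one, F0_one] at h2
  exact one_ne_zero h2

/-- The evaluation of pairs. -/
noncomputable def evp (p : (Σ i, (A i → ι)) → ℂ) :
    ℂ × MvPolynomial (Σ i, (A i → ι)) ℂ →ₐ[ℝ] ℂ × ℂ :=
  AlgHom.prodMap (AlgHom.id ℝ ℂ) ((aeval p : MvPolynomial (Σ i, (A i → ι)) ℂ →ₐ[ℂ] ℂ).restrictScalars ℝ)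

lemma evp_fst (p : (Σ i, (A i → ι)) → ℂ) (x) : (evp p x).1 = x.1 := rfl

lemma evp_snd (p : (Σ i, (A i → ι)) → ℂ) (x) : (evp p x).2 = eval p x.2 := rfl

lemma evp_gv (p : (Σ i, (A i → ι)) → ℂ) :
    (fun i k => evp p (gv v i k)) = fun i k => (v i k, p ⟨i, k⟩) := by
  funext i k
  refine Prod.ext rfl ?_
  rw [evp_snd]
  exact eval_X _

lemma evp_lift (p : (Σ i, (A i → ι)) → ℂ) {α : Type} [Fintype α] [DecidableEq α]
    {x : (α → ι) → ℂ × ℂ} (hx : x ∈ gP sd (fun i k => (v i k, p ⟨i, k⟩)) α) :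
    ∃ y ∈ gP sd (gv v) α, (fun l => evp p (y l)) = x := by
  rw [← evp_gv v p] at hx
  exact of_map_gen (evp p) hx

lemma evp_push (p : (Σ i, (A i → ι)) → ℂ) {α : Type} [Fintype α] [DecidableEq α]
    {y : (α → ι) → ℂ × MvPolynomial (Σ i, (A i → ι)) ℂ} (hy : y ∈ gP sd (gv v) α) :
    (fun l => evp p (y l)) ∈ gP sd (fun i k => (v i k, p ⟨i, k⟩)) α := by
  rw [← evp_gv v p]
  exact map_gen (evp p) hy

lemma rad_zero (p : (Σ i, (A i → ι)) → ℂ)
    (hp : ∀ f ∈ Ideal.span (bS sd v), eval p f = 0) {α : Type} [Fintype α] [DecidableEq α]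
    {x : (α → ι) → ℂ × ℂ} (hx : x ∈ gP sd (fun i k => (v i k, p ⟨i, k⟩)) α)
    (hx0 : ∀ y ∈ gP sd (fun i k => (v i k, p ⟨i, k⟩)) α, bf sd (f1 x) (f1 y) = 0) :
    f2 x = 0 := by
  obtain ⟨y, hy, rfl⟩ := evp_lift sd v p hx
  funext l
  change eval p (y l).2 = 0
  apply hp
  apply Ideal.subset_span
  exact ⟨α, inferInstance, inferInstance, y, l, hy, fun z hz => hx0 _ (evp_push sd v p hz), rfl⟩

/-- The ideal has a zero. -/
lemma exists_zero (hev : ∀ i, Ev sd (v i)) : ∃ p : (Σ i, (A i → ι)) → ℂ,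
    ∀ f ∈ Ideal.span (bS sd v), eval p f = 0 := exists_point (bS_ne_top sd v hev)

/-- The property of the realization. -/
def RadZ (w : ∀ i, (A i → ι) → ℂ × ℂ) : Prop :=
  ∀ (α : Type) [Fintype α] [DecidableEq α], ∀ x ∈ gen sd ℝ w α,
      (∀ y ∈ gen sd ℝ w α, bf sd (f1 x) (f1 y) = 0) → f2 x = 0

lemma radZ_real {w : ∀ i, (A i → ι) → ℂ × ℂ} (hw : RadZ sd w)
    (hreal : ∀ x ∈ gen sd ℝ w Empty, ∃ r : ℝ, f1 x = fun _ => (r : ℂ)) :
    ∀ x ∈ gen sd ℝ w Empty, ∃ r : ℝ, x = fun _ => ((r : ℂ), (r : ℂ)) := by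
  have hsys : IsSys sd ℝ (fun α _ _ => gen sd ℝ w α) := isSys_gen
  intro x hx
  obtain ⟨r, hr⟩ := hreal _ hx
  refine ⟨r, ?_⟩
  have h2 : x - r • (fun _ => (1 : ℂ × ℂ)) ∈ gen sd ℝ w Empty :=
    Submodule.sub_mem _ hx (Submodule.smul_mem _ _ hsys.one)
  have h3 : f1 (x - r • (fun _ => (1 : ℂ × ℂ))) = 0 := by
    funext l
    have h4 : (x l).1 = (r : ℂ) := congrFun hr l
    change (x l).1 - (r • (1 : ℂ × ℂ)).1 = 0
    rw [h4]
    simp
  have h4 := hw Empty _ h2 (fun y _ => by rw [h3, bf_zero_left])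
  funext l
  refine Prod.ext (congrFun hr l) ?_
  have h5 := congrFun h4 l
  have h6 : (x l).2 - (r • (1 : ℂ × ℂ)).2 = 0 := h5
  have h7 : (r • (1 : ℂ × ℂ)).2 = (r : ℂ) := by simp
  rw [h7, sub_eq_zero] at h6
  exact h6

lemma radZ_ev {w : ∀ i, (A i → ι) → ℂ × ℂ} (hw : RadZ sd w) (i : I)
    (hev : Ev sd (f1 (w i))) : Ev sd (f2 (w i)) := by
  have hsys : IsSys sd ℝ (fun α _ _ => gen sd ℝ w α) := isSys_gen
  intro l
  have h2 := hsys.ps_mul (gen_self (v := w) i)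
  have h3 := Submodule.sub_mem _ h2 (gen_self (v := w) i)
  have h4 : f1 ((fun l => ((ps sd l : ℤ) : ℂ × ℂ) * w i l) - w i) = 0 := by
    funext l
    change ((ps sd l : ℤ) : ℂ) * (w i l).1 - (w i l).1 = 0
    have := hev l
    change ((ps sd l : ℤ) : ℂ) * (w i l).1 = (w i l).1 at this
    rw [this, sub_self]
  have h5 := hw _ _ h3 (fun y _ => by rw [h4, bf_zero_left])
  have h6 := congrFun h5 l
  change ((ps sd l : ℤ) : ℂ) * (w i l).2 - (w i l).2 = 0 at h6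
  exact sub_eq_zero.1 h6


lemma radZ_real' {w : ∀ i, (A i → ι) → ℂ × ℂ} (hw : RadZ sd w) {v : ∀ i, (A i → ι) → ℂ}
    (hwv : ∀ i, f1 (w i) = v i)
    (hreal : ∀ x ∈ gen sd ℝ v Empty, ∃ r : ℝ, x = fun _ => (r : ℂ)) :
    ∀ x ∈ gen sd ℝ w Empty, ∃ r : ℝ, x = fun _ => ((r : ℂ), (r : ℂ)) := by
  obtain rfl : v = fun i l => (w i l).1 := by
    funext i
    exact (hwv i).symm
  exact radZ_real sd hw fun x hx => hreal _ (map_gen (AlgHom.fst ℝ ℂ ℂ) hx)

theorem realizeA (hev : ∀ i, Ev sd (v i)) :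
    ∃ w : ∀ i, (A i → ι) → ℂ × ℂ, RadZ sd w ∧ ∀ i, f1 (w i) = v i := by
  obtain ⟨p, hp⟩ := exists_zero sd v hev
  exact ⟨fun i k => (v i k, p ⟨i, k⟩), fun α _ _ x hx hx0 => rad_zero sd v p hp hx hx0,
    fun i => rfl⟩

/-- **Realization of the nondegenerate quotient.** -/
theorem realize (hev : ∀ i, Ev sd (v i))
    (hreal : ∀ x ∈ gen sd ℝ v Empty, ∃ r : ℝ, x = fun _ => (r : ℂ)) :
    ∃ w : ∀ i, (A i → ι) → ℂ × ℂ, (∀ i, f1 (w i) = v i) ∧ RadZ sd w ∧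
      (∀ x ∈ gen sd ℝ w Empty, ∃ r : ℝ, x = fun _ => ((r : ℂ), (r : ℂ))) ∧
        ∀ i, Ev sd (f2 (w i)) := by
  obtain ⟨w, hw, hwv⟩ := realizeA sd v hev
  exact ⟨w, hwv, hw, radZ_real' sd hw hwv hreal,
    fun i => radZ_ev sd hw i (by rw [hwv]; exact hev i)⟩

end Rz

end Pool.Agent.H24FD
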