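import Pool.Agent.H24FD.Act
import Pool.Agent.H24FD.Rz2

/-!
# Vectors of minimal length in the orbit of the isometries
-/

set_option autoImplicit false
set_option linter.unusedSectionVars false

namespace Pool.Agent.H24FD

open Filter Topology

section Min

variable {ι : Type} [Fintype ι] [DecidableEq ι] (sd : Std ι)
  {I : Type} [Fintype I] {A : I → Type} [∀ i, Fintype (A i)] [∀ i, DecidableEq (A i)]

/-- Tensors generating a nondegenerate real system. -/
structure Good (v : ∀ i, (A i → ι) → ℂ) : Prop where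
  ev : ∀ i, Ev sd (v i)
  real : ∀ x ∈ gen sd ℝ v Empty, ∃ r : ℝ, x = fun _ => (r : ℂ)
  nd : ∀ (α : Type) [Fintype α] [DecidableEq α], ∀ x ∈ gen sd ℝ v α,
    (∀ y ∈ gen sd ℝ v α, bf sd x y = 0) → x = 0

/-- The square of the length. -/
noncomputable def NN (v : ∀ i, (A i → ι) → ℂ) : ℝ := ∑ i, nrm (v i)

/-- The action on families of tensors. -/
noncomputable def acts (g : Matrix ι ι ℂ) (v : ∀ i, (A i → ι) → ℂ) : ∀ i, (A i → ι) → ℂ :=
  fun i => act g (v i)

variable {sd} {v : ∀ i, (A i → ι) → ℂ}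

lemma acts_mul (g h : Matrix ι ι ℂ) (v : ∀ i, (A i → ι) → ℂ) :
    acts (g * h) v = acts g (acts h v) := by
  funext i
  exact act_mul g h (v i)

lemma acts_one (v : ∀ i, (A i → ι) → ℂ) : acts (1 : Matrix ι ι ℂ) v = v := by
  funext i
  exact act_one (v i)

lemma InG.act_mem {g : Matrix ι ι ℂ} (hg : InG sd g) {α : Type} [Fintype α] [DecidableEq α]
    {x : (α → ι) → ℂ} (hx : x ∈ gen sd ℝ v α) : act g x ∈ gen sd ℝ (acts g v) α :=
  gen_le (hg.isSys_comap isSys_gen) (fun i => gen_self (v := acts g v) i) hx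

lemma InG.mem_acts {g : Matrix ι ι ℂ} (hg : InG sd g) {α : Type} [Fintype α] [DecidableEq α]
    {x : (α → ι) → ℂ} (hx : x ∈ gen sd ℝ (acts g v) α) : ∃ y ∈ gen sd ℝ v α, act g y = x :=
  gen_le (hg.isSys_map isSys_gen) (fun i => ⟨v i, gen_self i, rfl⟩) hx

lemma Ev.act {g : Matrix ι ι ℂ} (hg : InG sd g) {α : Type} [Fintype α] [DecidableEq α]
    {x : (α → ι) → ℂ} (hx : Ev sd x) : Ev sd (act g x) := by
  have h1 : ∀ i j : ι, sd.par i ≠ sd.par j → g i j = 0 := by
    intro i j hij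
    have h2 := congrFun (congrFun (((inG_iff sd g).1 hg).2 (sd.par i)) i) j
    rw [Pm, Matrix.mul_diagonal, Matrix.diagonal_mul, if_pos rfl,
      if_neg (fun h => hij h.symm)] at h2
    simpa using h2.symm
  intro l
  unfold H24FD.act
  rw [Finset.mul_sum]
  apply Finset.sum_congr rfl
  intro j _
  by_cases h3 : ∀ a, sd.par (l a) = sd.par (j a)
  · have h4 : ps sd l = ps sd j := by
      unfold ps
      simp only [h3]
    rw [h4, mul_left_comm, hx j]
  · obtain ⟨a, ha⟩ := not_forall.1 h3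
    rw [Finset.prod_eq_zero (Finset.mem_univ a) (h1 _ _ ha)]
    simp

lemma Good.acts (hv : Good sd v) {g : Matrix ι ι ℂ} (hg : InG sd g) : Good sd (acts g v) where
  ev i := (hv.ev i).act hg
  real x hx := by
    obtain ⟨y, hy, rfl⟩ := hg.mem_acts hx
    rw [act_empty]
    exact hv.real y hy
  nd α _ _ x hx h0 := by
    obtain ⟨y, hy, rfl⟩ := hg.mem_acts hx
    rw [hv.nd α y hy, act_zero]
    intro z hz
    rw [← hg.bf_act]
    exact h0 _ (hg.act_mem hz)

/-- The system of the limits of the action of a sequence. -/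
noncomputable def limS (g : ℕ → Matrix ι ι ℂ) (α : Type) [Fintype α] [DecidableEq α] :
    Submodule ℝ ((α → ι) → ℂ × ℂ) where
  carrier := {x | Tendsto (fun n => act (g n) (f1 x)) atTop (𝓝 (f2 x))}
  add_mem' {x y} hx hy := by
    change Tendsto (fun n => act (g n) (f1 x + f1 y)) atTop (𝓝 (f2 x + f2 y))
    simp only [act_add]
    exact hx.add hy
  zero_mem' := by
    change Tendsto (fun n => act (g n) (0 : (α → ι) → ℂ)) atTop (𝓝 (0 : (α → ι) → ℂ))
    simp only [act_zero]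
    exact tendsto_const_nhds
  smul_mem' r x hx := by
    have h1 : f1 (r • x) = (r : ℂ) • f1 x := by funext l; simp [f1]
    have h2 : f2 (r • x) = (r : ℂ) • f2 x := by funext l; simp [f2]
    change Tendsto (fun n => act (g n) (f1 (r • x))) atTop (𝓝 (f2 (r • x)))
    simp only [h1, h2, act_smul]
    exact hx.const_smul (r : ℂ)

lemma isSys_lim {g : ℕ → Matrix ι ι ℂ} (hg : ∀ n, InG sd (g n)) :
    IsSys sd ℝ (fun α _ _ => limS g α) where
  one := by
    change Tendsto (fun n => act (g n) (fun _ : (Empty → ι) => (1 : ℂ))) atTop (𝓝 (fun _ => 1))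
    simp only [act_empty]
    exact tendsto_const_nhds
  re {α β _ _ _ _} e x hx := by
    change Tendsto (fun n => act (g n) (re e (f1 x))) atTop (𝓝 (re e (f2 x)))
    simp only [act_re]
    rw [tendsto_pi_nhds]
    intro l
    exact (tendsto_pi_nhds.1 hx) _
  ten {α β _ _ _ _ x y} hx hy := by
    change Tendsto (fun n => act (g n) (ten (f1 x) (f1 y))) atTop (𝓝 (ten (f2 x) (f2 y)))
    simp only [act_ten]
    rw [tendsto_pi_nhds]
    intro l
    exact ((tendsto_pi_nhds.1 hx) _).mul ((tendsto_pi_nhds.1 hy) _)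
  ctr {β _ _ x} hx := by
    have h1 : f1 (ctr sd x) = ctr sd (f1 x) := map_ctr (AlgHom.fst ℝ ℂ ℂ) x
    have h2 : f2 (ctr sd x) = ctr sd (f2 x) := map_ctr (AlgHom.snd ℝ ℂ ℂ) x
    change Tendsto (fun n => act (g n) (f1 (ctr sd x))) atTop (𝓝 (f2 (ctr sd x)))
    rw [h1, h2]
    have h3 : ∀ n, act (g n) (ctr sd (f1 x)) = ctr sd (act (g n) (f1 x)) := fun n =>
      ((hg n).act_ctr _).symm
    simp only [h3]
    rw [tendsto_pi_nhds]
    intro l
    unfold H24FD.ctr
    apply tendsto_finsetSum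
    intro i _
    exact ((tendsto_pi_nhds.1 hx) _).const_mul _
  cp p := by
    have h1 : f1 (cp sd p) = cp sd p := map_cp (AlgHom.fst ℝ ℂ ℂ) p
    have h2 : f2 (cp sd p) = cp sd p := map_cp (AlgHom.snd ℝ ℂ ℂ) p
    change Tendsto (fun n => act (g n) (f1 (cp sd p))) atTop (𝓝 (f2 (cp sd p)))
    rw [h1, h2]
    have h3 : ∀ n, act (g n) (cp sd p) = cp sd p := fun n => hg n p
    simp only [h3]
    exact tendsto_const_nhds

lemma f1_mem {w : ∀ i, (A i → ι) → ℂ × ℂ} (hwv : ∀ i, f1 (w i) = v i) {α : Type} [Fintype α]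
    [DecidableEq α] {x : (α → ι) → ℂ × ℂ} (hx : x ∈ gen sd ℝ w α) : f1 x ∈ gen sd ℝ v α := by
  obtain rfl : v = fun i l => (w i l).1 := by
    funext i
    exact (hwv i).symm
  exact map_gen (AlgHom.fst ℝ ℂ ℂ) hx

lemma f2_mem {w : ∀ i, (A i → ι) → ℂ × ℂ} (hwv : ∀ i, f2 (w i) = v i) {α : Type} [Fintype α]
    [DecidableEq α] {x : (α → ι) → ℂ × ℂ} (hx : x ∈ gen sd ℝ w α) : f2 x ∈ gen sd ℝ v α := by
  obtain rfl : v = fun i l => (w i l).2 := by
    funext i
    exact (hwv i).symm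
  exact map_gen (AlgHom.snd ℝ ℂ ℂ) hx

lemma f1_lift {w : ∀ i, (A i → ι) → ℂ × ℂ} (hwv : ∀ i, f1 (w i) = v i) {α : Type} [Fintype α]
    [DecidableEq α] {y : (α → ι) → ℂ} (hy : y ∈ gen sd ℝ v α) : ∃ x ∈ gen sd ℝ w α, f1 x = y := by
  obtain rfl : v = fun i l => (w i l).1 := by
    funext i
    exact (hwv i).symm
  exact of_map_gen (AlgHom.fst ℝ ℂ ℂ) hy

lemma f2_lift {w : ∀ i, (A i → ι) → ℂ × ℂ} (hwv : ∀ i, f2 (w i) = v i) {α : Type} [Fintype α]
    [DecidableEq α] {y : (α → ι) → ℂ} (hy : y ∈ gen sd ℝ v α) : ∃ x ∈ gen sd ℝ w α, f2 x = y := by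
  obtain rfl : v = fun i l => (w i l).2 := by
    funext i
    exact (hwv i).symm
  exact of_map_gen (AlgHom.snd ℝ ℂ ℂ) hy

/-- The system of pairs of a family and its limit is nondegenerate. -/
lemma npair_lim (hv : Good sd v) {g : ℕ → Matrix ι ι ℂ} (hg : ∀ n, InG sd (g n))
    {w : ∀ i, (A i → ι) → ℂ × ℂ} (hwv : ∀ i, f1 (w i) = v i)
    (hw : ∀ i, Tendsto (fun n => act (g n) (f1 (w i))) atTop (𝓝 (f2 (w i)))) :
    NPair sd (fun α _ _ => gen sd ℝ w α) := by
  have hlim : ∀ (α : Type) [Fintype α] [DecidableEq α], ∀ x ∈ gen sd ℝ w α,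
      Tendsto (fun n => act (g n) (f1 x)) atTop (𝓝 (f2 x)) := by
    intro α _ _ x hx
    exact gen_le (isSys_lim hg) (fun i => hw i) hx
  refine ⟨isSys_gen, ?_, ?_, ?_⟩
  · intro x hx
    obtain ⟨r, hr⟩ := hv.real _ (f1_mem hwv hx)
    refine ⟨r, ?_⟩
    have h3 := hlim _ x hx
    simp only [act_empty] at h3
    have h4 : f2 x = f1 x := tendsto_nhds_unique h3 tendsto_const_nhds
    funext l
    exact Prod.ext (congrFun hr l) ((congrFun h4 l).trans (congrFun hr l))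
  · intro α _ _ x hx h0
    have h3 : f1 x = 0 := hv.nd α _ (f1_mem hwv hx) (by
      intro y hy
      obtain ⟨z, hz, rfl⟩ := f1_lift hwv hy
      exact h0 z hz)
    have h4 := hlim _ x hx
    rw [h3] at h4
    simp only [act_zero] at h4
    have h5 : f2 x = 0 := tendsto_nhds_unique h4 tendsto_const_nhds
    funext l
    exact Prod.ext (congrFun h3 l) (congrFun h5 l)
  · intro α _ _ x hx y _
    exact bf_comm (gen_ev sd hv.ev (f1_mem hwv hx))

/-- Two families in a nondegenerate system of pairs are related by an isometry. -/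
lemma exists_isom {w : ∀ i, (A i → ι) → ℂ × ℂ} (hN : NPair sd (fun α _ _ => gen sd ℝ w α)) :
    ∃ h, InG sd h ∧ ∀ i, act h (f1 (w i)) = f2 (w i) := by
  obtain ⟨h, hh⟩ := hN.qfam.exists_iso
  refine ⟨h, ?_, ?_⟩
  · intro p
    apply hh
    refine ⟨cp sd p, hN.sys.cp p, ?_⟩
    exact Prod.ext (map_cp (AlgHom.fst ℝ ℂ ℂ) p).symm (map_cp (AlgHom.snd ℝ ℂ ℂ) p).symm
  · intro i
    apply hh
    exact ⟨w i, gen_self i, rfl⟩

/-- The limits of the action on a nondegenerate system are given by the action. -/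
theorem exists_lim (hv : Good sd v) {g : ℕ → Matrix ι ι ℂ} (hg : ∀ n, InG sd (g n))
    {w : ∀ i, (A i → ι) → ℂ} (hw : ∀ i, Tendsto (fun n => act (g n) (v i)) atTop (𝓝 (w i))) :
    ∃ h, InG sd h ∧ acts h v = w := by
  obtain ⟨h, h1, h2⟩ := exists_isom (npair_lim (w := fun i l => (v i l, w i l)) hv hg
    (fun i => rfl) hw)
  exact ⟨h, h1, funext h2⟩

lemma NN_nonneg (v : ∀ i, (A i → ι) → ℂ) : 0 ≤ NN v := Finset.sum_nonneg fun _ _ => nrm_nonneg _

lemma continuous_NN : Continuous (NN : (∀ i, (A i → ι) → ℂ) → ℝ) := by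
  unfold NN nrm
  fun_prop

lemma norm_le_NN (v : ∀ i, (A i → ι) → ℂ) : ‖v‖ ^ 2 ≤ NN v := by
  have h : ‖v‖ ≤ Real.sqrt (NN v) := by
    rw [pi_norm_le_iff_of_nonneg (Real.sqrt_nonneg _)]
    intro i
    rw [pi_norm_le_iff_of_nonneg (Real.sqrt_nonneg _)]
    intro l
    apply Real.le_sqrt_of_sq_le
    calc ‖v i l‖ ^ 2 ≤ nrm (v i) := Finset.single_le_sum (f := fun l => ‖v i l‖ ^ 2)
          (fun _ _ => by positivity) (Finset.mem_univ l)
      _ ≤ NN v := Finset.single_le_sum (f := fun i => nrm (v i))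
          (fun _ _ => nrm_nonneg _) (Finset.mem_univ i)
  calc ‖v‖ ^ 2 ≤ (Real.sqrt (NN v)) ^ 2 := by gcongr
    _ = NN v := Real.sq_sqrt (NN_nonneg v)

/-- **Vectors of minimal length.** -/
theorem exists_min (hv : Good sd v) : ∃ g, InG sd g ∧ ∀ h, InG sd h →
    NN (acts g v) ≤ NN (acts h (acts g v)) := by
  set T : Set ℝ := {r | ∃ g, InG sd g ∧ r = NN (acts g v)} with hT
  have hT0 : T.Nonempty := ⟨_, 1, InG.one sd, rfl⟩
  have hTb : BddBelow T := ⟨0, by rintro _ ⟨g, -, rfl⟩; exact NN_nonneg _⟩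
  have h1 : ∀ n : ℕ, ∃ g, InG sd g ∧ NN (acts g v) < sInf T + 1 / ((n : ℝ) + 1) := by
    intro n
    obtain ⟨r, ⟨g, hg, rfl⟩, hr⟩ := exists_lt_of_csInf_lt hT0
      (show sInf T < sInf T + 1 / ((n : ℝ) + 1) by
        have : (0 : ℝ) < 1 / ((n : ℝ) + 1) := by positivity
        linarith)
    exact ⟨g, hg, hr⟩
  choose g hg hgn using h1
  have hb : ∀ n, acts (g n) v ∈ Metric.closedBall (0 : ∀ i, (A i → ι) → ℂ)
      (Real.sqrt (sInf T + 1)) := by
    intro n
    rw [mem_closedBall_zero_iff]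
    apply Real.le_sqrt_of_sq_le
    have h2 : 1 / ((n : ℝ) + 1) ≤ 1 := by
      rw [div_le_one (by positivity)]
      linarith [(Nat.cast_nonneg n : (0 : ℝ) ≤ n)]
    linarith [norm_le_NN (acts (g n) v), hgn n]
  obtain ⟨w, -, φ, hφ, hw⟩ := (isCompact_closedBall _ _).tendsto_subseq hb
  obtain ⟨h, hh, hhw⟩ := exists_lim hv (g := fun n => g (φ n)) (fun n => hg _) (w := w)
    (fun i => (tendsto_pi_nhds.1 hw) i)
  refine ⟨h, hh, fun k hk => ?_⟩
  rw [hhw]
  have h3 : NN w ≤ sInf T := by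
    have h4 : Tendsto (fun n => NN (acts (g (φ n)) v)) atTop (𝓝 (NN w)) :=
      (continuous_NN.tendsto w).comp hw
    have h5 : Tendsto (fun n => sInf T + 1 / ((φ n : ℝ) + 1)) atTop (𝓝 (sInf T + 0)) := by
      apply Tendsto.const_add
      exact tendsto_one_div_add_atTop_nhds_zero_nat.comp hφ.tendsto_atTop
    rw [add_zero] at h5
    exact le_of_tendsto_of_tendsto' h4 h5 fun n => (hgn (φ n)).le
  refine h3.trans (csInf_le hTb ⟨k * h, hk.mul hh, ?_⟩)
  rw [acts_mul, hhw]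

end Min

end Pool.Agent.H24FD
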