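import Pool.Agent.H24FD.GSys
import Pool.Agent.W529.Ta.Darboux

/-!
# Normal forms of bilinear forms with blocks over the complex numbers
-/

set_option autoImplicit false
set_option linter.unusedSectionVars false

universe v

namespace Pool.Agent.H24FD

/-- The conditions on a form with blocks. -/
structure IsGD {K : Type v} [CommRing K] {ι κ : Type} [Fintype ι] [DecidableEq ι] (G : GD K ι κ)
    (par : κ → Bool) : Prop where
  inv : ∀ i k, ∑ j, G.g i j * G.c k j = if i = k then 1 else 0
  blk : ∀ i j, G.blk i ≠ G.blk j → G.g i j = 0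
  symm : ∀ i j, G.g j i = (if par (G.blk i) then -1 else 1) * G.g i j

section Sym

/-- Orthonormal bases for nondegenerate symmetric forms over the complex numbers. -/
theorem exists_onb {V : Type*} [AddCommGroup V] [Module ℂ V] [FiniteDimensional ℂ V]
    (B : LinearMap.BilinForm ℂ V) (hs : LinearMap.IsSymm B) (hn : ∀ u, (∀ v, B u v = 0) → u = 0) :
    ∃ (n : ℕ) (u : Module.Basis (Fin n) ℂ V), ∀ a b, B (u a) (u b) = if b = a then 1 else 0 := by
  obtain ⟨v, hv⟩ := LinearMap.BilinForm.exists_orthogonal_basis hs
  have h0 : ∀ a, B (v a) (v a) ≠ 0 := by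
    intro a ha
    refine v.ne_zero a (hn _ ?_)
    intro w
    rw [← v.sum_repr w, map_sum]
    apply Finset.sum_eq_zero
    intro b _
    rw [map_smul]
    by_cases hab : a = b
    · rw [← hab, ha, smul_zero]
    · rw [hv hab, smul_zero]
  choose r hr using fun a => IsAlgClosed.exists_eq_mul_self (B (v a) (v a))
  have hr0 : ∀ a, r a ≠ 0 := by
    intro a h
    apply h0 a
    rw [hr a, h, mul_zero]
  refine ⟨_, v.isUnitSMul (w := fun a => (r a)⁻¹) (fun a => (isUnit_iff_ne_zero.2
    (inv_ne_zero (hr0 a)))), ?_⟩
  intro a b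
  rw [Module.Basis.isUnitSMul_apply, Module.Basis.isUnitSMul_apply, map_smul,
    LinearMap.map_smul₂]
  by_cases hab : b = a
  · rw [if_pos hab, hab, hr a]
    simp only [smul_eq_mul]
    field_simp [hr0 a]
  · rw [if_neg hab, hv (fun h => hab h.symm)]
    simp

end Sym

section Norm

variable {ι κ : Type} [Fintype ι] [DecidableEq ι]

/-- The bilinear form of a matrix on functions. -/
noncomputable def mform {E : Type} [Fintype E] (g : E → E → ℂ) :
    (E → ℂ) →ₗ[ℂ] (E → ℂ) →ₗ[ℂ] ℂ :=
  LinearMap.mk₂ ℂ (fun x y => ∑ i, ∑ j, g i j * (x i * y j))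
    (fun x x' y => by
      simp only [Pi.add_apply, add_mul, mul_add, Finset.sum_add_distrib])
    (fun r x y => by
      simp only [Pi.smul_apply, smul_eq_mul, Finset.mul_sum]
      apply Finset.sum_congr rfl; intro i _
      apply Finset.sum_congr rfl; intro j _
      ring)
    (fun x y y' => by
      simp only [Pi.add_apply, mul_add, Finset.sum_add_distrib])
    (fun r x y => by
      simp only [Pi.smul_apply, smul_eq_mul, Finset.mul_sum]
      apply Finset.sum_congr rfl; intro i _
      apply Finset.sum_congr rfl; intro j _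
      ring)

lemma mform_apply {E : Type} [Fintype E] (g : E → E → ℂ) (x y : E → ℂ) :
    mform g x y = ∑ i, ∑ j, g i j * (x i * y j) := rfl

lemma mform_single {E : Type} [Fintype E] [DecidableEq E] (g : E → E → ℂ) (i j : E) :
    mform g (Pi.single i 1) (Pi.single j 1) = g i j := by
  rw [mform_apply, Finset.sum_eq_single i]
  · rw [Finset.sum_eq_single j]
    · simp
    · intro l _ hl
      rw [Pi.single_eq_of_ne hl, mul_zero, mul_zero]
    · intro h; exact absurd (Finset.mem_univ _) h
  · intro l _ hl
    apply Finset.sum_eq_zero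
    intro m _
    rw [Pi.single_eq_of_ne hl, zero_mul, mul_zero]
  · intro h; exact absurd (Finset.mem_univ _) h

/-- The Gram matrix in terms of coordinates. -/
lemma gram_repr {E R : Type} [Fintype E] [DecidableEq E] [Fintype R] [DecidableEq R]
    (g : E → E → ℂ) (u : Module.Basis R ℂ (E → ℂ)) (S : R → R → ℂ)
    (hu : ∀ a b, mform g (u a) (u b) = S a b) (i j : E) :
    g i j = ∑ a, ∑ b, S a b * (u.repr (Pi.single i 1) a * u.repr (Pi.single j 1) b) := by
  rw [← mform_single g i j]
  conv_lhs => rw [← u.sum_repr (Pi.single i 1), ← u.sum_repr (Pi.single j 1)]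
  rw [map_sum (mform g), LinearMap.sum_apply]
  apply Finset.sum_congr rfl
  intro a _
  rw [map_sum]
  apply Finset.sum_congr rfl
  intro b _
  rw [map_smul, LinearMap.map_smul₂, hu]
  simp only [smul_eq_mul]
  ring

/-- A normal form of a bilinear form with blocks: a change of the basis. -/
structure NF (G : GD ℂ ι κ) (par : κ → Bool) (R : Type) [Fintype R] [DecidableEq R]
    (sd : Std R) (M : R → ι → ℂ) : Prop where
  g_eq : ∀ i j, ∑ a, (sd.sg a : ℂ) * (M a i * M (sd.st a) j) = G.g i j
  c_eq : ∀ a b, ∑ i, ∑ j, G.c i j * (M a i * M b j) = if b = sd.st a then (sd.sg a : ℂ) else 0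
  par_eq : ∀ a i, M a i ≠ 0 → sd.par a = par (G.blk i)

end Norm

section Exists

variable {ι κ : Type} [Fintype ι] [DecidableEq ι]

/-- The part of given parity. -/
abbrev Prt (G : GD ℂ ι κ) (par : κ → Bool) (p : Bool) : Type := {i : ι // par (G.blk i) = p}

/-- The form on a part. -/
def gPrt (G : GD ℂ ι κ) (par : κ → Bool) (p : Bool) (i j : Prt G par p) : ℂ := G.g i.1 j.1

lemma IsGD.symm_iff {G : GD ℂ ι κ} {par : κ → Bool} (h : IsGD G par) (p : Bool)
    (x y : Prt G par p → ℂ) : mform (gPrt G par p) x y =
      (if p then -1 else 1) * mform (gPrt G par p) y x := by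
  rw [mform_apply, mform_apply, Finset.sum_comm, Finset.mul_sum]
  apply Finset.sum_congr rfl
  intro i _
  rw [Finset.mul_sum]
  apply Finset.sum_congr rfl
  intro j _
  have h1 := h.symm i.1 j.1
  rw [i.2] at h1
  unfold gPrt
  rw [h1]
  ring

lemma IsGD.nondeg {G : GD ℂ ι κ} {par : κ → Bool} (h : IsGD G par) (p : Bool)
    (x : Prt G par p → ℂ) (hx : ∀ y, mform (gPrt G par p) x y = 0) : x = 0 := by
  have hpar : ∀ i j, par (G.blk i) ≠ par (G.blk j) → G.g i j = 0 := by
    intro i j hij
    apply h.blk
    intro h1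
    exact hij (by rw [h1])
  have hcg : ∀ k l : ι, ∑ i, G.c i k * G.g i l = if k = l then 1 else 0 := by
    have h1 : (Matrix.of G.g) * (Matrix.of G.c).transpose = 1 := by
      ext i k
      rw [Matrix.mul_apply, Matrix.one_apply]
      exact h.inv i k
    have h2 := mul_eq_one_comm.1 h1
    intro k l
    have h3 := congrFun (congrFun h2 k) l
    rw [Matrix.mul_apply, Matrix.one_apply] at h3
    exact h3
  have h1 : ∀ j : ι, ∑ i : Prt G par p, x i * G.g i.1 j = 0 := by
    intro j
    by_cases hj : par (G.blk j) = p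
    · have h2 := hx (Pi.single ⟨j, hj⟩ 1)
      rw [mform_apply] at h2
      rw [← h2]
      apply Finset.sum_congr rfl
      intro i _
      rw [Finset.sum_eq_single (⟨j, hj⟩ : Prt G par p)]
      · rw [Pi.single_eq_same, mul_one, mul_comm]
        rfl
      · intro l _ hl
        rw [Pi.single_eq_of_ne hl, mul_zero, mul_zero]
      · intro h'; exact absurd (Finset.mem_univ _) h'
    · apply Finset.sum_eq_zero
      intro i _
      rw [hpar i.1 j (by rw [i.2]; exact fun h' => hj h'.symm), mul_zero]
  funext i
  have h3 : ∑ j, (∑ l : Prt G par p, x l * G.g l.1 j) * G.c i.1 j = 0 := by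
    apply Finset.sum_eq_zero
    intro j _
    rw [h1, zero_mul]
  simp only [Finset.sum_mul] at h3
  rw [Finset.sum_comm, Finset.sum_eq_single i] at h3
  · have h4 : ∑ j, x i * G.g i.1 j * G.c i.1 j = x i := by
      have h5 := h.inv i.1 i.1
      rw [if_pos rfl] at h5
      simp only [mul_assoc]
      rw [← Finset.mul_sum, h5, mul_one]
    rw [h4] at h3
    exact h3
  · intro l _ hl
    have h5 := h.inv l.1 i.1
    rw [if_neg (fun h' => hl (Subtype.ext h'))] at h5
    simp only [mul_assoc]
    rw [← Finset.mul_sum, h5, mul_zero]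
  · intro h'; exact absurd (Finset.mem_univ _) h'

lemma sum_part {ι : Type} [Fintype ι] (p : ι → Prop) [DecidablePred p] (f : ι → ℂ)
    (hf : ∀ i, ¬ p i → f i = 0) : ∑ i, f i = ∑ i : {i // p i}, f i := by
  rw [← Fintype.sum_subtype_add_sum_subtype p f, add_eq_left]
  exact Finset.sum_eq_zero fun i _ => hf i.1 i.2

section Aux

variable (G : GD ℂ ι κ) (par : κ → Bool) (p : Bool) {T : Type} [Fintype T] [DecidableEq T]
  (t : Module.Basis T ℂ (Prt G par p → ℂ))

/-- The coordinates. -/
noncomputable def Mp (a : T) (i : ι) : ℂ :=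
  if hi : par (G.blk i) = p then t.repr (Pi.single ⟨i, hi⟩ 1) a else 0

/-- The inverse. -/
noncomputable def Np (i : ι) (a : T) : ℂ := if hi : par (G.blk i) = p then t a ⟨i, hi⟩ else 0

lemma Mp_Np (a b : T) : ∑ i, Mp G par p t a i * Np G par p t i b = if a = b then 1 else 0 := by
  rw [sum_part (fun i => par (G.blk i) = p) _ (fun i hi => by rw [Mp, dif_neg hi, zero_mul])]
  have h1 : ∀ i : Prt G par p, Mp G par p t a i.1 * Np G par p t i.1 b =
      t b i * t.repr (Pi.single i 1) a := by
    intro i
    rw [Mp, Np, dif_pos i.2, dif_pos i.2, mul_comm]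
  rw [Finset.sum_congr rfl (fun i _ => h1 i)]
  have h2 : t b = ∑ i, t b i • (Pi.single i (1 : ℂ) : Prt G par p → ℂ) := by
    funext l
    rw [Finset.sum_apply, Finset.sum_eq_single l]
    · simp
    · intro m _ hm
      rw [Pi.smul_apply, Pi.single_eq_of_ne (Ne.symm hm), smul_zero]
    · intro h'; exact absurd (Finset.mem_univ _) h'
  have h3 : t.repr (t b) a = ∑ i, t b i * t.repr (Pi.single i 1) a := by
    conv_lhs => rw [h2]
    rw [map_sum, Finsupp.finsetSum_apply]
    apply Finset.sum_congr rfl
    intro i _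
    rw [map_smul, Finsupp.smul_apply, smul_eq_mul]
  rw [← h3, Module.Basis.repr_self, Finsupp.single_apply]
  by_cases hab : a = b
  · rw [if_pos hab, if_pos hab.symm]
  · rw [if_neg hab, if_neg (fun h => hab h.symm)]

lemma Mp_zero {a : T} {i : ι} (hi : par (G.blk i) ≠ p) : Mp G par p t a i = 0 := dif_neg hi

lemma Np_zero {a : T} {i : ι} (hi : par (G.blk i) ≠ p) : Np G par p t i a = 0 := dif_neg hi

lemma Mp_form (S : T → T → ℂ) (hS : ∀ a b, mform (gPrt G par p) (t a) (t b) = S a b) (i j : ι)
    (hi : par (G.blk i) = p) (hj : par (G.blk j) = p) :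
    ∑ a, ∑ b, S a b * (Mp G par p t a i * Mp G par p t b j) = G.g i j := by
  have h1 := gram_repr (gPrt G par p) t S hS ⟨i, hi⟩ ⟨j, hj⟩
  change G.g i j = _ at h1
  rw [h1]
  unfold Mp
  simp only [dif_pos hi, dif_pos hj]

end Aux

lemma c_of_mat {R : Type} [Fintype R] [DecidableEq R] (sd : Std R) (Mm : Matrix R ι ℂ)
    (Nm : Matrix ι R ℂ) (gm cm : Matrix ι ι ℂ) (hMN : Mm * Nm = 1)
    (hg : Mm.transpose * ((Sm sd : Matrix R R ℂ) * Mm) = gm) (hgc : gm * cm.transpose = 1) :
    Mm * cm * Mm.transpose = Sm sd := by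
  have h1 : Nm.transpose * Mm.transpose = 1 := by
    rw [← Matrix.transpose_mul, hMN, Matrix.transpose_one]
  have h2 : (Sm sd : Matrix R R ℂ) * (Mm * cm.transpose) = Nm.transpose := by
    rw [← hg] at hgc
    have h3 := congrArg (fun X => Nm.transpose * X) hgc
    simp only [Matrix.mul_one, ← Matrix.mul_assoc, h1, Matrix.one_mul] at h3
    rw [← h3, Matrix.mul_assoc]
  have h4 : (Sm sd : Matrix R R ℂ) * (Mm * cm.transpose * Mm.transpose) = 1 := by
    rw [← Matrix.mul_assoc, h2, h1]
  have h5 : Mm * cm.transpose * Mm.transpose = (Sm sd : Matrix R R ℂ).transpose := by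
    have h6 := congrArg (fun X => (Sm sd : Matrix R R ℂ).transpose * X) h4
    beta_reduce at h6
    rw [← Matrix.mul_assoc, Sm_transpose_mul, Matrix.one_mul, Matrix.mul_one] at h6
    exact h6
  have h6 := congrArg Matrix.transpose h5
  rw [Matrix.transpose_mul, Matrix.transpose_mul, Matrix.transpose_transpose,
    Matrix.transpose_transpose, Matrix.transpose_transpose] at h6
  rw [Matrix.mul_assoc]
  exact h6

lemma c_of_g {R : Type} [Fintype R] [DecidableEq R] (sd : Std R) (M : R → ι → ℂ)
    (N : ι → R → ℂ) (hMN : ∀ a b, ∑ i, M a i * N i b = if a = b then 1 else 0) {G : GD ℂ ι κ}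
    (hg : ∀ i j, ∑ a, (sd.sg a : ℂ) * (M a i * M (sd.st a) j) = G.g i j)
    (hgc : ∀ i k, ∑ j, G.g i j * G.c k j = if i = k then 1 else 0) (a b : R) :
    ∑ i, ∑ j, G.c i j * (M a i * M b j) = if b = sd.st a then (sd.sg a : ℂ) else 0 := by
  have h := c_of_mat sd (Matrix.of M) (Matrix.of N) (Matrix.of G.g) (Matrix.of G.c)
    (by
      ext a b
      rw [Matrix.mul_apply, Matrix.one_apply]
      exact hMN a b)
    (by
      ext i j
      rw [Matrix.of_apply, ← hg i j, Matrix.mul_apply]
      apply Finset.sum_congr rfl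
      intro a _
      rw [Matrix.mul_apply, Finset.sum_eq_single (sd.st a)]
      · rw [Sm, Matrix.of_apply, if_pos rfl, Matrix.transpose_apply]
        simp only [Matrix.of_apply]
        ring
      · intro b _ hb
        rw [Sm, Matrix.of_apply, if_neg hb, zero_mul]
      · intro h'; exact absurd (Finset.mem_univ _) h')
    (by
      ext i k
      rw [Matrix.mul_apply, Matrix.one_apply]
      exact hgc i k)
  have h1 := congrFun (congrFun h a) b
  rw [Sm, Matrix.of_apply] at h1
  rw [← h1, Matrix.mul_apply, Finset.sum_comm]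
  apply Finset.sum_congr rfl
  intro j _
  rw [Matrix.mul_apply, Finset.sum_mul]
  apply Finset.sum_congr rfl
  intro i _
  rw [Matrix.transpose_apply]
  simp only [Matrix.of_apply]
  ring

/-- **Existence of normal forms.** -/
theorem exists_nf {G : GD ℂ ι κ} {par : κ → Bool} (h : IsGD G par) :
    ∃ (R : Type) (_ : Fintype R) (_ : DecidableEq R) (sd : Std R) (M : R → ι → ℂ),
      NF G par R sd M := by
  obtain ⟨n, u, hu⟩ := exists_onb (mform (gPrt G par false)) ⟨fun x y => by
    have := h.symm_iff false x y
    simpa using this⟩ (h.nondeg false)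
  obtain ⟨R, _, _, w, inv, jj, hinv, -, hjj, hj1, hw⟩ :=
    Pool.Agent.W529.Ta.exists_darboux _ (Prt G par true → ℂ) (mform (gPrt G par true))
      (fun x => by
        have h1 := h.symm_iff true x x
        rw [if_pos rfl] at h1
        have h2 : (2 : ℂ) * mform (gPrt G par true) x x = 0 := by linear_combination h1
        exact (mul_eq_zero.1 h2).resolve_left two_ne_zero)
      (fun x hx => h.nondeg true x fun y => by
        have h1 := h.symm_iff true x y
        rw [h1, hx, mul_zero]) le_rfl
  have hjZ : ∀ x, ∃ s : ℤ, (s : ℂ) = jj x ∧ (s = 1 ∨ s = -1) := by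
    intro x
    rcases hj1 x with h1 | h1
    · exact ⟨1, by rw [h1]; simp, Or.inl rfl⟩
    · exact ⟨-1, by rw [h1]; simp, Or.inr rfl⟩
  choose s hs hs1 using hjZ
  let sd : Std (Fin n ⊕ R) :=
    { st := Sum.map id inv
      sg := Sum.elim (fun _ => 1) s
      par := Sum.elim (fun _ => false) (fun _ => true)
      st_st := by rintro (a | a) <;> simp [hinv]
      sg_sq := by
        rintro (a | a)
        · simp
        · rcases hs1 a with h1 | h1 <;> simp [h1]
      par_st := by rintro (a | a) <;> simp
      sg_st := by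
        rintro (a | a)
        · simp
        · have h1 : (s (inv a) : ℂ) = -(s a : ℂ) := by rw [hs, hs, hjj]
          have h2 : s (inv a) = -s a := by exact_mod_cast h1
          simp [h2] }
  let M : Fin n ⊕ R → ι → ℂ := Sum.elim (Mp G par false u) (Mp G par true w)
  let N : ι → Fin n ⊕ R → ℂ := fun i => Sum.elim (Np G par false u i) (Np G par true w i)
  have hMN : ∀ a b, ∑ i, M a i * N i b = if a = b then 1 else 0 := by
    rintro (a | a) (b | b)
    · change ∑ i, Mp G par false u a i * Np G par false u i b = _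
      rw [Mp_Np]
      simp
    · rw [if_neg (by simp)]
      apply Finset.sum_eq_zero
      intro i _
      change Mp G par false u a i * Np G par true w i b = 0
      by_cases hi : par (G.blk i) = false
      · rw [Np_zero G par true w (by rw [hi]; simp), mul_zero]
      · rw [Mp_zero G par false u hi, zero_mul]
    · rw [if_neg (by simp)]
      apply Finset.sum_eq_zero
      intro i _
      change Mp G par true w a i * Np G par false u i b = 0
      by_cases hi : par (G.blk i) = false
      · rw [Mp_zero G par true w (by rw [hi]; simp), zero_mul]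
      · rw [Np_zero G par false u hi, mul_zero]
    · change ∑ i, Mp G par true w a i * Np G par true w i b = _
      rw [Mp_Np]
      simp
  have hpar : ∀ a i, M a i ≠ 0 → sd.par a = par (G.blk i) := by
    rintro (a | a) i hi
    · by_contra h1
      exact hi (Mp_zero G par false u (fun h2 => h1 h2.symm))
    · by_contra h1
      exact hi (Mp_zero G par true w (fun h2 => h1 h2.symm))
  have hg : ∀ i j, ∑ a, (sd.sg a : ℂ) * (M a i * M (sd.st a) j) = G.g i j := by
    intro i j
    rw [Fintype.sum_sum_type]
    have e1 : ∀ a : Fin n, (sd.sg (Sum.inl a) : ℂ) * (M (Sum.inl a) i *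
        M (sd.st (Sum.inl a)) j) = Mp G par false u a i * Mp G par false u a j := by
      intro a
      change ((1 : ℤ) : ℂ) * (Mp G par false u a i * Mp G par false u a j) = _
      simp
    have e2 : ∀ a : R, (sd.sg (Sum.inr a) : ℂ) * (M (Sum.inr a) i *
        M (sd.st (Sum.inr a)) j) = jj a * (Mp G par true w a i * Mp G par true w (inv a) j) := by
      intro a
      change (s a : ℂ) * (Mp G par true w a i * Mp G par true w (inv a) j) = _
      rw [hs]
    simp only [e1, e2]
    by_cases hij : par (G.blk i) = par (G.blk j)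
    · cases hi : par (G.blk i)
      · have hj : par (G.blk j) = false := by rw [← hij, hi]
        rw [Finset.sum_eq_zero (s := (Finset.univ : Finset R)) (fun a _ => by
          rw [Mp_zero G par true w (by rw [hi]; simp), zero_mul, mul_zero]), add_zero,
          ← Mp_form G par false u (fun a b => if b = a then 1 else 0) hu i j hi hj]
        apply Finset.sum_congr rfl
        intro a _
        simp
      · have hj : par (G.blk j) = true := by rw [← hij, hi]
        rw [Finset.sum_eq_zero (s := (Finset.univ : Finset (Fin n))) (fun a _ => by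
          rw [Mp_zero G par false u (by rw [hi]; simp), zero_mul]), zero_add,
          ← Mp_form G par true w _ hw i j hi hj]
        apply Finset.sum_congr rfl
        intro a _
        unfold Pool.Agent.H204R3.SP.JJ
        simp
    · have h0 : G.g i j = 0 := h.blk i j (fun h1 => hij (by rw [h1]))
      rw [h0]
      have z1 : ∀ (p : Bool) {T : Type} [Fintype T] [DecidableEq T]
          (t : Module.Basis T ℂ (Prt G par p → ℂ)) (a b : T),
          Mp G par p t a i * Mp G par p t b j = 0 := by
        intro p T _ _ t a b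
        by_cases hi : par (G.blk i) = p
        · rw [Mp_zero G par p t (i := j) (fun h1 => hij (hi.trans h1.symm)), mul_zero]
        · rw [Mp_zero G par p t hi, zero_mul]
      simp only [z1, mul_zero, Finset.sum_const_zero, add_zero]
  refine ⟨Fin n ⊕ R, inferInstance, inferInstance, sd, M, hg, ?_, hpar⟩
  exact c_of_g sd M N hMN hg h.inv

end Exists

end Pool.Agent.H24FD
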