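import Mathlib

/-!
# Positive eigenvectors of symmetric maps
-/

set_option autoImplicit false
set_option linter.style.haveILetI false

namespace Pool.Agent.H24FD

section Spec

variable {V : Type} [AddCommGroup V] [Module ℂ V] [FiniteDimensional ℂ V]

/-- `x` is a sum of eigenvectors with positive eigenvalues. -/
def PSum (T : V →ₗ[ℂ] V) (x : V) : Prop :=
  ∃ (κ : Type) (_ : Fintype κ) (y : κ → V) (r : κ → ℝ),
    (∀ k, 0 < r k ∧ T (y k) = (r k : ℂ) • y k) ∧ x = ∑ k, y k

theorem spec1 (c : InnerProductSpace.Core ℂ V) (T : V →ₗ[ℂ] V)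
    (hT : ∀ x y, c.inner (T x) y = c.inner x (T y)) (hpos : ∀ x, 0 ≤ (c.inner x (T x)).re)
    (hinj : ∀ x, T x = 0 → x = 0) (x : V) : PSum T x := by
  letI : NormedAddCommGroup V := @InnerProductSpace.Core.toNormedAddCommGroup ℂ V _ _ _ c
  letI : InnerProductSpace ℂ V := InnerProductSpace.ofCore c.toCore
  have hs : T.IsSymmetric := hT
  set b := hs.eigenvectorBasis rfl with hb
  have hb1 : ∀ i, T (b i) = ((hs.eigenvalues rfl i : ℝ) : ℂ) • b i := fun i =>
    hs.apply_eigenvectorBasis rfl i
  refine ⟨Fin (Module.finrank ℂ V), inferInstance, fun i => inner ℂ (b i) x • b i,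
    fun i => hs.eigenvalues rfl i, ?_, ?_⟩
  · intro i
    constructor
    · have h1 : 0 ≤ (inner ℂ (b i) (T (b i))).re := hpos (b i)
      rw [hb1, inner_smul_right, inner_self_eq_norm_sq_to_K, b.orthonormal.1 i] at h1
      have h2 : (0 : ℝ) ≤ hs.eigenvalues rfl i := by simpa using h1
      refine lt_of_le_of_ne h2 fun h3 => ?_
      beta_reduce at h3
      have h4 := hb1 i
      rw [← h3, Complex.ofReal_zero, zero_smul] at h4
      have h5 := hinj _ h4
      have h6 := b.orthonormal.1 i
      rw [h5, norm_zero] at h6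
      exact zero_ne_one h6
    · rw [map_smul, hb1, smul_comm]
  · exact (b.sum_repr' x).symm

theorem spec2 (c : InnerProductSpace.Core ℂ V) (T : V →ₗ[ℂ] V)
    (hT : ∀ x y, c.inner (T x) y = c.inner x (T y)) (hspan : ∀ x, PSum T x) (x : V) :
    0 ≤ (c.inner x (T x)).re := by
  letI : NormedAddCommGroup V := @InnerProductSpace.Core.toNormedAddCommGroup ℂ V _ _ _ c
  letI : InnerProductSpace ℂ V := InnerProductSpace.ofCore c.toCore
  have hs : T.IsSymmetric := hT
  set b := hs.eigenvectorBasis rfl with hb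
  have hb1 : ∀ i, T (b i) = ((hs.eigenvalues rfl i : ℝ) : ℂ) • b i := fun i =>
    hs.apply_eigenvectorBasis rfl i
  have hpos : ∀ i, 0 < hs.eigenvalues rfl i := by
    intro i
    obtain ⟨κ, _, y, r, hy, hsum⟩ := hspan (b i)
    have h1 : ∃ k, inner ℂ (b i) (y k) ≠ 0 := by
      by_contra h
      push Not at h
      have h2 : inner ℂ (b i) (b i) = (0 : ℂ) := by
        conv_lhs => enter [3]; rw [hsum]
        rw [inner_sum]
        exact Finset.sum_eq_zero fun k _ => h k
      rw [inner_self_eq_norm_sq_to_K, b.orthonormal.1 i] at h2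
      norm_num at h2
    obtain ⟨k, hk⟩ := h1
    have h2 : inner ℂ (T (b i)) (y k) = inner ℂ (b i) (T (y k)) := hT _ _
    rw [hb1, (hy k).2, inner_smul_left, inner_smul_right, Complex.conj_ofReal] at h2
    have h3 := mul_right_cancel₀ hk h2
    have h4 : hs.eigenvalues rfl i = r k := by exact_mod_cast h3
    rw [h4]
    exact (hy k).1
  change 0 ≤ (inner ℂ x (T x)).re
  rw [← b.sum_inner_mul_inner x (T x), Complex.re_sum]
  apply Finset.sum_nonneg
  intro i _
  have h1 : inner ℂ (b i) (T x) = inner ℂ (T (b i)) x := (hT _ _).symm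
  rw [h1, hb1, inner_smul_left, Complex.conj_ofReal, mul_left_comm, Complex.re_ofReal_mul]
  apply mul_nonneg (hpos i).le
  rw [← inner_conj_symm x (b i), mul_comm, Complex.mul_conj]
  exact_mod_cast Complex.normSq_nonneg _

end Spec

end Pool.Agent.H24FD
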