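import Pool.Agent.H24FD.Stab
import Pool.Agent.H24FD.Spec

/-!
# Positivity spreads from the generators
-/

set_option autoImplicit false
set_option linter.unusedSectionVars false

namespace Pool.Agent.H24FD

open Complex

section Pos

variable {ι : Type} [Fintype ι] [DecidableEq ι] (sd : Std ι)

/-- A nondegenerate real system, stable under the real structure. -/
structure CS (S : ∀ (α : Type) [Fintype α] [DecidableEq α], Submodule ℝ ((α → ι) → ℂ)) :
    Prop where
  sys : IsSys sd ℝ S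
  ev : ∀ (α : Type) [Fintype α] [DecidableEq α], ∀ x ∈ S α, Ev sd x
  real : ∀ x ∈ S Empty, ∃ r : ℝ, x = fun _ => (r : ℂ)
  nd : ∀ (α : Type) [Fintype α] [DecidableEq α], ∀ x ∈ S α,
    (∀ y ∈ S α, bf sd x y = 0) → x = 0
  cjm : ∀ (α : Type) [Fintype α] [DecidableEq α], ∀ x ∈ S α,
    ∃ a ∈ S α, ∃ b ∈ S α, cj sd x = a + I • b

variable {sd} {S : ∀ (α : Type) [Fintype α] [DecidableEq α], Submodule ℝ ((α → ι) → ℂ)}
  {α β : Type} [Fintype α] [DecidableEq α] [Fintype β] [DecidableEq β]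

/-- The real number `bf x y`. -/
noncomputable def br' (sd : Std ι) (x y : (α → ι) → ℂ) : ℝ := (bf sd x y).re

lemma CS.bf_eq (h : CS sd S) {x y : (α → ι) → ℂ} (hx : x ∈ S α) (hy : y ∈ S α) :
    bf sd x y = (br' sd x y : ℂ) := by
  obtain ⟨r, hr⟩ := h.real _ (h.sys.bf hx hy)
  have h1 : bf sd x y = (r : ℂ) := congrFun hr Empty.elim
  unfold br'
  rw [h1, ofReal_re]

lemma CS.comm (h : CS sd S) {x y : (α → ι) → ℂ} (hx : x ∈ S α) : br' sd x y = br' sd y x := by
  unfold br'
  rw [bf_comm (h.ev α x hx)]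

lemma real_smul_eq (r : ℝ) (x : (α → ι) → ℂ) : r • x = (r : ℂ) • x := by
  funext l; simp

lemma CS.indep (h : CS sd S) {a b : (α → ι) → ℂ} (ha : a ∈ S α) (hb : b ∈ S α)
    (hab : a = I • b) : a = 0 ∧ b = 0 := by
  have h1 : ∀ y ∈ S α, bf sd b y = 0 ∧ bf sd a y = 0 := by
    intro y hy
    have h2 : bf sd a y = I * bf sd b y := by rw [hab, bf_smul_left]
    rw [h.bf_eq ha hy, h.bf_eq hb hy] at h2
    have h3 := congrArg Complex.re h2
    have h4 := congrArg Complex.im h2
    simp at h3 h4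
    rw [h.bf_eq ha hy, h.bf_eq hb hy, h3, ← h4]
    simp
  exact ⟨h.nd α a ha fun y hy => (h1 y hy).2, h.nd α b hb fun y hy => (h1 y hy).1⟩

lemma CS.uniq (h : CS sd S) {a b a' b' : (α → ι) → ℂ} (ha : a ∈ S α) (hb : b ∈ S α)
    (ha' : a' ∈ S α) (hb' : b' ∈ S α) (hab : a + I • b = a' + I • b') : a = a' ∧ b = b' := by
  have h1 : a - a' = I • (b' - b) := by
    rw [smul_sub, sub_eq_sub_iff_add_eq_add, hab]
    abel
  obtain ⟨h2, h3⟩ := h.indep (Submodule.sub_mem _ ha ha') (Submodule.sub_mem _ hb' hb) h1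
  exact ⟨sub_eq_zero.1 h2, (sub_eq_zero.1 h3).symm⟩

variable (S) in
/-- The complex span of the system. -/
def CA (α : Type) [Fintype α] [DecidableEq α] : Submodule ℂ ((α → ι) → ℂ) where
  carrier := {w | ∃ a ∈ S α, ∃ b ∈ S α, w = a + I • b}
  add_mem' := by
    rintro _ _ ⟨a, ha, b, hb, rfl⟩ ⟨a', ha', b', hb', rfl⟩
    refine ⟨a + a', Submodule.add_mem _ ha ha', b + b', Submodule.add_mem _ hb hb', ?_⟩
    rw [smul_add]
    abel
  zero_mem' := ⟨0, Submodule.zero_mem _, 0, Submodule.zero_mem _, by simp⟩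
  smul_mem' := by
    rintro c _ ⟨a, ha, b, hb, rfl⟩
    refine ⟨c.re • a - c.im • b, Submodule.sub_mem _ (Submodule.smul_mem _ _ ha)
      (Submodule.smul_mem _ _ hb), c.im • a + c.re • b, Submodule.add_mem _
      (Submodule.smul_mem _ _ ha) (Submodule.smul_mem _ _ hb), ?_⟩
    funext l
    simp only [Pi.smul_apply, Pi.add_apply, Pi.sub_apply, smul_eq_mul, Complex.real_smul]
    conv_lhs => rw [← Complex.re_add_im c]
    linear_combination ((c.im : ℂ) * (b l)) * Complex.I_mul_I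

lemma cj_sub (x y : (α → ι) → ℂ) : cj sd (x - y) = cj sd x - cj sd y := by
  funext i; simp [cj, mul_sub]

lemma cj_real_smul (r : ℝ) (x : (α → ι) → ℂ) : cj sd (r • x) = r • cj sd x := by
  rw [real_smul_eq, cj_smul, conj_ofReal, real_smul_eq]

lemma CS.cj_ca (h : CS sd S) {x : (α → ι) → ℂ} (hx : x ∈ S α) : cj sd x ∈ CA S α :=
  h.cjm α x hx

lemma exists_th (h : CS sd S) (w : CA S α) :
    ∃ z : CA S α, ∀ a ∈ S α, ∀ b ∈ S α, w.1 = a + I • b → z.1 = cj sd a + I • cj sd b := by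
  obtain ⟨w, a, ha, b, hb, hw⟩ := w
  refine ⟨⟨cj sd a + I • cj sd b, Submodule.add_mem _ (h.cj_ca ha)
    (Submodule.smul_mem _ _ (h.cj_ca hb))⟩, fun a' ha' b' hb' hw' => ?_⟩
  dsimp only at hw' ⊢
  obtain ⟨h1, h2⟩ := h.uniq ha hb ha' hb' (hw.symm.trans hw')
  rw [h1, h2]

/-- The comparison of the two real structures. -/
noncomputable def CS.th (h : CS sd S) (α : Type) [Fintype α] [DecidableEq α] :
    CA S α →ₗ[ℂ] CA S α where
  toFun w := (exists_th h w).choose
  map_add' w w' := by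
    apply Subtype.ext
    obtain ⟨a, ha, b, hb, hw⟩ := w.2
    obtain ⟨a', ha', b', hb', hw'⟩ := w'.2
    rw [(exists_th h (w + w')).choose_spec (a + a') (Submodule.add_mem _ ha ha') (b + b')
      (Submodule.add_mem _ hb hb') (by
        rw [Submodule.coe_add, hw, hw', smul_add]; abel),
      Submodule.coe_add, (exists_th h w).choose_spec a ha b hb hw,
      (exists_th h w').choose_spec a' ha' b' hb' hw', cj_add, cj_add, smul_add]
    abel
  map_smul' c w := by
    apply Subtype.ext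
    obtain ⟨a, ha, b, hb, hw⟩ := w.2
    rw [(exists_th h (c • w)).choose_spec (c.re • a - c.im • b) (Submodule.sub_mem _
      (Submodule.smul_mem _ _ ha) (Submodule.smul_mem _ _ hb)) (c.im • a + c.re • b)
      (Submodule.add_mem _ (Submodule.smul_mem _ _ ha) (Submodule.smul_mem _ _ hb)) (by
        rw [Submodule.coe_smul, hw]
        funext l
        simp only [Pi.smul_apply, Pi.add_apply, Pi.sub_apply, smul_eq_mul, Complex.real_smul]
        conv_lhs => rw [← Complex.re_add_im c]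
        linear_combination ((c.im : ℂ) * (b l)) * Complex.I_mul_I),
      RingHom.id_apply, Submodule.coe_smul, (exists_th h w).choose_spec a ha b hb hw,
      cj_sub, cj_add, cj_real_smul, cj_real_smul, cj_real_smul, cj_real_smul]
    funext l
    simp only [Pi.smul_apply, Pi.add_apply, Pi.sub_apply, smul_eq_mul, Complex.real_smul]
    conv_rhs => rw [← Complex.re_add_im c]
    linear_combination (-((c.im : ℂ) * (cj sd b l))) * Complex.I_mul_I

lemma CS.th_spec (h : CS sd S) {w : CA S α} {a b : (α → ι) → ℂ} (ha : a ∈ S α) (hb : b ∈ S α)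
    (hw : w.1 = a + I • b) : (h.th α w).1 = cj sd a + I • cj sd b :=
  (exists_th h w).choose_spec a ha b hb hw

/-- The hermitian inner product on the complex span. -/
noncomputable abbrev core (V : Submodule ℂ ((α → ι) → ℂ)) : InnerProductSpace.Core ℂ V where
  inner x y := ∑ l, starRingEnd ℂ (x.1 l) * y.1 l
  conj_inner_symm x y := by
    rw [map_sum]
    apply Finset.sum_congr rfl
    intro l _
    rw [map_mul, conj_conj, mul_comm]
  re_inner_nonneg x := by
    rw [map_sum]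
    apply Finset.sum_nonneg
    intro l _
    rw [mul_comm, Complex.mul_conj]
    exact Complex.normSq_nonneg _
  add_left x y z := by
    rw [← Finset.sum_add_distrib]
    apply Finset.sum_congr rfl
    intro l _
    rw [Submodule.coe_add, Pi.add_apply, map_add, add_mul]
  smul_left x y r := by
    rw [Finset.mul_sum]
    apply Finset.sum_congr rfl
    intro l _
    rw [Submodule.coe_smul, Pi.smul_apply, smul_eq_mul, map_mul, mul_assoc]
  definite x h := by
    apply Subtype.ext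
    funext l
    have h1 := congrArg Complex.re h
    rw [Complex.re_sum, Complex.zero_re, Finset.sum_eq_zero_iff_of_nonneg (fun i _ => by
      rw [mul_comm, Complex.mul_conj]; exact Complex.normSq_nonneg _)] at h1
    have h2 := h1 l (Finset.mem_univ l)
    rw [mul_comm, Complex.mul_conj, ofReal_re, Complex.normSq_eq_zero] at h2
    exact h2

lemma core_inner (V : Submodule ℂ ((α → ι) → ℂ)) (x y : V) :
    (core V).inner x y = bf sd y.1 (cj sd x.1) := by
  rw [bf_cj]
  apply Finset.sum_congr rfl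
  intro l _
  rw [mul_comm]

lemma bf_cj_cj (x y : (α → ι) → ℂ) : bf sd (cj sd x) (cj sd y) = starRingEnd ℂ (bf sd x y) := by
  rw [bf_cj]
  unfold bf cj
  rw [map_sum, ← (stE sd α).sum_comp]
  apply Finset.sum_congr rfl
  intro i _
  rw [stE_apply, map_mul, map_mul, map_intCast]
  simp only [sd.st_st]
  ring

lemma CS.inner_th (h : CS sd S) {w z : CA S α} {a b c d : (α → ι) → ℂ} (ha : a ∈ S α)
    (hb : b ∈ S α) (hc : c ∈ S α) (hd : d ∈ S α) (hw : w.1 = a + I • b) (hz : z.1 = c + I • d) :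
    (core (CA S α)).inner w (h.th α z) =
      ((br' sd a c + br' sd b d : ℝ) : ℂ) + ((br' sd a d - br' sd b c : ℝ) : ℂ) * I := by
  rw [core_inner (sd := sd), h.th_spec hc hd hz, hw, cj_add, cj_smul, conj_I, bf_add_left,
    bf_add_right, bf_add_right, bf_smul_left, bf_smul_left, bf_smul_right, bf_smul_right,
    bf_cj_cj, bf_cj_cj, bf_cj_cj, bf_cj_cj, h.bf_eq hc ha, h.bf_eq hc hb, h.bf_eq hd ha,
    h.bf_eq hd hb, conj_ofReal, conj_ofReal, conj_ofReal, conj_ofReal, h.comm hc, h.comm hc,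
    h.comm hd, h.comm hd]
  push_cast
  linear_combination (-(br' sd b d : ℂ)) * Complex.I_mul_I

lemma CS.th_symm (h : CS sd S) (w z : CA S α) :
    (core (CA S α)).inner (h.th α w) z = (core (CA S α)).inner w (h.th α z) := by
  obtain ⟨a, ha, b, hb, hw⟩ := w.2
  obtain ⟨c, hc, d, hd, hz⟩ := z.2
  rw [← (core (CA S α)).conj_inner_symm, h.inner_th hc hd ha hb hz hw,
    h.inner_th ha hb hc hd hw hz, map_add, map_mul, conj_ofReal, conj_ofReal, conj_I,
    h.comm hc, h.comm hc, h.comm hd, h.comm hd]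
  push_cast
  ring

lemma CS.th_inj (h : CS sd S) (w : CA S α) (hw0 : h.th α w = 0) : w = 0 := by
  obtain ⟨a, ha, b, hb, hw⟩ := w.2
  have h1 := h.th_spec ha hb hw
  rw [hw0] at h1
  have h2 := congrArg (cj sd) h1
  rw [cj_add, cj_smul, conj_I, cj_cj sd (h.ev α a ha), cj_cj sd (h.ev α b hb)] at h2
  have h3 : cj sd ((0 : CA S α) : (α → ι) → ℂ) = 0 := by
    rw [Submodule.coe_zero]; exact cj_zero sd
  rw [h3] at h2
  have h4 : a = I • b := by
    rw [neg_smul, ← sub_eq_add_neg] at h2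
    exact sub_eq_zero.1 h2.symm
  obtain ⟨h5, h6⟩ := h.indep ha hb h4
  apply Subtype.ext
  rw [hw, h5, h6]
  simp

variable (sd S) in
/-- The positive eigenvectors. -/
def PE (α : Type) [Fintype α] [DecidableEq α] : Set ((α → ι) → ℂ) :=
  {y | ∃ r : ℝ, 0 < r ∧ ∃ a ∈ S α, ∃ b ∈ S α, y = a + I • b ∧
    cj sd a + I • cj sd b = (r : ℂ) • y}

lemma PE_smul {y : (α → ι) → ℂ} (hy : y ∈ PE sd S α) (c : ℂ) : c • y ∈ PE sd S α := by
  obtain ⟨r, hr, a, ha, b, hb, hab, hy⟩ := hy
  refine ⟨r, hr, c.re • a - c.im • b, Submodule.sub_mem _ (Submodule.smul_mem _ _ ha)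
      (Submodule.smul_mem _ _ hb), c.im • a + c.re • b, Submodule.add_mem _
      (Submodule.smul_mem _ _ ha) (Submodule.smul_mem _ _ hb), ?_, ?_⟩
  · rw [hab]
    funext l
    simp only [Pi.smul_apply, Pi.add_apply, Pi.sub_apply, smul_eq_mul, Complex.real_smul]
    conv_lhs => rw [← Complex.re_add_im c]
    linear_combination ((c.im : ℂ) * (b l)) * Complex.I_mul_I
  · rw [cj_sub, cj_add, cj_real_smul, cj_real_smul, cj_real_smul, cj_real_smul, smul_comm, ← hy]
    funext l
    simp only [Pi.smul_apply, Pi.add_apply, Pi.sub_apply, smul_eq_mul, Complex.real_smul]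
    conv_rhs => rw [← Complex.re_add_im c]
    linear_combination (-((c.im : ℂ) * (cj sd b l))) * Complex.I_mul_I

variable (sd S) in
/-- The real span of the positive eigenvectors. -/
noncomputable def ES (α : Type) [Fintype α] [DecidableEq α] : Submodule ℝ ((α → ι) → ℂ) :=
  Submodule.span ℝ (PE sd S α)

lemma PE_ten (h : CS sd S) {y : (α → ι) → ℂ} (hy : y ∈ PE sd S α) {y' : (β → ι) → ℂ}
    (hy' : y' ∈ PE sd S β) : ten y y' ∈ PE sd S (α ⊕ β) := by
  obtain ⟨r, hr, a, ha, b, hb, hab, hy⟩ := hy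
  obtain ⟨r', hr', a', ha', b', hb', hab', hy'⟩ := hy'
  refine ⟨r * r', mul_pos hr hr', ten a a' - ten b b', Submodule.sub_mem _ (h.sys.ten ha ha')
    (h.sys.ten hb hb'), ten a b' + ten b a', Submodule.add_mem _ (h.sys.ten ha hb')
    (h.sys.ten hb ha'), ?_, ?_⟩
  · rw [hab, hab']
    funext l
    simp only [ten, Pi.smul_apply, Pi.add_apply, Pi.sub_apply, smul_eq_mul]
    linear_combination ((b fun x => l (Sum.inl x)) * (b' fun x => l (Sum.inr x))) *
      Complex.I_mul_I
  · have h1 : ((r * r' : ℝ) : ℂ) • ten y y' = ten ((r : ℂ) • y) ((r' : ℂ) • y') := by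
      funext l
      simp only [ten, Pi.smul_apply, smul_eq_mul]
      push_cast
      ring
    rw [h1, ← hy, ← hy', cj_sub, cj_add, cj_ten, cj_ten, cj_ten, cj_ten]
    funext l
    simp only [ten, Pi.smul_apply, Pi.add_apply, Pi.sub_apply, smul_eq_mul]
    linear_combination (-((cj sd b fun x => l (Sum.inl x)) * (cj sd b' fun x => l (Sum.inr x)))) *
      Complex.I_mul_I

lemma PE_re (h : CS sd S) (e : α ≃ β) {y : (α → ι) → ℂ} (hy : y ∈ PE sd S α) :
    re e y ∈ PE sd S β := by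
  obtain ⟨r, hr, a, ha, b, hb, hab, hy⟩ := hy
  refine ⟨r, hr, re e a, h.sys.re e ha, re e b, h.sys.re e hb, by rw [hab]; rfl, ?_⟩
  rw [cj_re, cj_re]
  have h1 : (r : ℂ) • re e y = re e ((r : ℂ) • y) := rfl
  rw [h1, ← hy]
  rfl

lemma PE_ctr (h : CS sd S) {y : (Bool ⊕ β → ι) → ℂ} (hy : y ∈ PE sd S (Bool ⊕ β)) :
    ctr sd y ∈ PE sd S β := by
  obtain ⟨r, hr, a, ha, b, hb, hab, hy⟩ := hy
  refine ⟨r, hr, ctr sd a, h.sys.ctr ha, ctr sd b, h.sys.ctr hb, ?_, ?_⟩
  · rw [hab, ctr_add, ctr_smul]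
  · rw [cj_ctr, cj_ctr, ← ctr_smul, ← ctr_smul, ← ctr_add, hy]

lemma PE_fix (hS : 0 ∈ S α) {y : (α → ι) → ℂ} (hy : y ∈ S α) (hc : cj sd y = y) :
    y ∈ PE sd S α := by
  refine ⟨1, one_pos, y, hy, 0, hS, by simp, ?_⟩
  rw [hc, cj_zero]
  simp

lemma span_bilin {γ : Type} [Fintype γ] [DecidableEq γ]
    (f : ((α → ι) → ℂ) → ((β → ι) → ℂ) → ((γ → ι) → ℂ))
    (hf1 : ∀ x x' y, f (x + x') y = f x y + f x' y) (hf2 : ∀ (r : ℝ) x y, f (r • x) y = r • f x y)
    (hf3 : ∀ x y y', f x (y + y') = f x y + f x y') (hf4 : ∀ (r : ℝ) x y, f x (r • y) = r • f x y)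
    (hf : ∀ x ∈ PE sd S α, ∀ y ∈ PE sd S β, f x y ∈ PE sd S γ) {x : (α → ι) → ℂ}
    (hx : x ∈ ES sd S α) {y : (β → ι) → ℂ} (hy : y ∈ ES sd S β) : f x y ∈ ES sd S γ := by
  have hf5 : ∀ y, f 0 y = 0 := fun y => by
    have := hf2 0 0 y
    simpa using this
  have hf6 : ∀ x, f x 0 = 0 := fun x => by
    have := hf4 0 x 0
    simpa using this
  refine Submodule.span_induction (p := fun x _ => f x y ∈ ES sd S γ) ?_ ?_ ?_ ?_ hx
  · intro x hx
    refine Submodule.span_induction (p := fun y _ => f x y ∈ ES sd S γ) ?_ ?_ ?_ ?_ hy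
    · intro y hy
      exact Submodule.subset_span (hf x hx y hy)
    · rw [hf6]; exact Submodule.zero_mem _
    · intro a b _ _ h1 h2
      rw [hf3]; exact Submodule.add_mem _ h1 h2
    · intro r a _ h1
      rw [hf4]; exact Submodule.smul_mem _ _ h1
  · rw [hf5]; exact Submodule.zero_mem _
  · intro a b _ _ h1 h2
    rw [hf1]; exact Submodule.add_mem _ h1 h2
  · intro r a _ h1
    rw [hf2]; exact Submodule.smul_mem _ _ h1

lemma isSys_ES (h : CS sd S) : IsSys sd ℝ (fun α _ _ => ES sd S α) where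
  one := by
    apply Submodule.subset_span
    apply PE_fix (Submodule.zero_mem _) h.sys.one
    funext l
    simp [cj]
  re {α β _ _ _ _} e x hx := by
    refine Submodule.span_induction (p := fun x _ => re e x ∈ ES sd S β) ?_ ?_ ?_ ?_ hx
    · intro y hy
      exact Submodule.subset_span (PE_re h e hy)
    · exact Submodule.zero_mem _
    · intro a b _ _ h1 h2
      exact Submodule.add_mem _ h1 h2
    · intro r a _ h1
      exact Submodule.smul_mem _ _ h1
  ten {α β _ _ _ _ x y} hx hy := by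
    refine span_bilin (fun x y => H24FD.ten x y) (fun x x' y => ten_add_left x x' y)
      (fun r x y => ten_smul_left r x y) (fun x y y' => ten_add_right x y y')
      (fun r x y => ten_smul_right r x y) (fun x hx y hy => PE_ten h hx hy) hx hy
  ctr {β _ _ x} hx := by
    refine Submodule.span_induction (p := fun x _ => H24FD.ctr sd x ∈ ES sd S β) ?_ ?_ ?_ ?_ hx
    · intro y hy
      exact Submodule.subset_span (PE_ctr h hy)
    · have : H24FD.ctr sd (0 : (Bool ⊕ β → ι) → ℂ) = 0 := by funext l; simp [H24FD.ctr]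
      rw [this]
      exact Submodule.zero_mem _
    · intro a b _ _ h1 h2
      rw [ctr_add]
      exact Submodule.add_mem _ h1 h2
    · intro r a _ h1
      rw [ctr_smul]
      exact Submodule.smul_mem _ _ h1
  cp p := by
    apply Submodule.subset_span
    exact PE_fix (Submodule.zero_mem _) (h.sys.cp p) (cj_cp sd p)

lemma ES_I {x : (α → ι) → ℂ} (hx : x ∈ ES sd S α) : I • x ∈ ES sd S α := by
  refine Submodule.span_induction (p := fun x _ => I • x ∈ ES sd S α) ?_ ?_ ?_ ?_ hx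
  · intro y hy
    exact Submodule.subset_span (PE_smul hy I)
  · rw [smul_zero]; exact Submodule.zero_mem _
  · intro a b _ _ h1 h2
    rw [smul_add]
    exact Submodule.add_mem _ h1 h2
  · intro r a _ h1
    rw [smul_comm]
    exact Submodule.smul_mem _ _ h1

lemma ES_sum {x : (α → ι) → ℂ} (hx : x ∈ ES sd S α) : ∃ (κ : Type) (_ : Fintype κ)
    (y : κ → (α → ι) → ℂ), (∀ k, y k ∈ PE sd S α) ∧ x = ∑ k, y k := by
  refine Submodule.span_induction (p := fun x _ => ∃ (κ : Type) (_ : Fintype κ)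
    (y : κ → (α → ι) → ℂ), (∀ k, y k ∈ PE sd S α) ∧ x = ∑ k, y k) ?_ ?_ ?_ ?_ hx
  · intro y hy
    exact ⟨Unit, inferInstance, fun _ => y, fun _ => hy, by simp⟩
  · exact ⟨Empty, inferInstance, fun k => k.elim, fun k => k.elim, by simp⟩
  · rintro a b _ _ ⟨κ, _, y, hy, rfl⟩ ⟨κ', _, y', hy', rfl⟩
    refine ⟨κ ⊕ κ', inferInstance, Sum.elim y y', ?_, ?_⟩
    · rintro (k | k)
      · exact hy k
      · exact hy' k
    · rw [Fintype.sum_sum_type]
      rfl
  · rintro r a _ ⟨κ, _, y, hy, rfl⟩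
    refine ⟨κ, inferInstance, fun k => (r : ℂ) • y k, fun k => PE_smul (hy k) _, ?_⟩
    rw [Finset.smul_sum]
    apply Finset.sum_congr rfl
    intro k _
    rw [real_smul_eq]

lemma CS.psum_of_mem (h : CS sd S) {w : CA S α} (hw : w.1 ∈ ES sd S α) : PSum (h.th α) w := by
  obtain ⟨κ, _, y, hy, hsum⟩ := ES_sum hw
  choose r hr a ha b hb hab hc using hy
  refine ⟨κ, inferInstance, fun k => ⟨y k, a k, ha k, b k, hb k, hab k⟩, r, fun k => ?_, ?_⟩
  · refine ⟨hr k, Subtype.ext ?_⟩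
    rw [h.th_spec (ha k) (hb k) (hab k), hc k]
    rfl
  · apply Subtype.ext
    rw [hsum]
    simp

lemma CS.mem_of_psum (h : CS sd S) {w : CA S α} (hw : PSum (h.th α) w) : w.1 ∈ ES sd S α := by
  obtain ⟨κ, _, y, r, hy, hsum⟩ := hw
  rw [hsum]
  have h1 : ((∑ k, y k : CA S α) : (α → ι) → ℂ) = ∑ k, (y k).1 := by simp
  rw [h1]
  apply Submodule.sum_mem
  intro k _
  apply Submodule.subset_span
  obtain ⟨a, ha, b, hb, hab⟩ := (y k).2
  refine ⟨r k, (hy k).1, a, ha, b, hb, hab, ?_⟩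
  have h2 := congrArg Subtype.val (hy k).2
  rw [h.th_spec ha hb hab] at h2
  rw [h2]
  rfl

/-- **Positivity on all generators' types implies positivity.** -/
theorem CS.pos (h : CS sd S) {I' : Type} {A : I' → Type} [∀ i, Fintype (A i)]
    [∀ i, DecidableEq (A i)] {v : ∀ i, (A i → ι) → ℂ} (hv : ∀ i, v i ∈ S (A i))
    (hgen : ∀ (α : Type) [Fintype α] [DecidableEq α], ∀ x ∈ S α, x ∈ gen sd ℝ v α)
    (hpos : ∀ i, ∀ x ∈ S (A i), 0 ≤ (bf sd x x).re) (α : Type) [Fintype α] [DecidableEq α]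
    (x : (α → ι) → ℂ) (hx : x ∈ S α) : 0 ≤ (bf sd x x).re := by
  have h1 : ∀ i, v i ∈ ES sd S (A i) := by
    intro i
    have h2 : PSum (h.th (A i)) ⟨v i, v i, hv i, 0, Submodule.zero_mem _, by simp⟩ := by
      apply spec1 (core (CA S (A i))) (h.th (A i)) h.th_symm _ h.th_inj
      intro w
      obtain ⟨a, ha, b, hb, hw⟩ := w.2
      rw [h.inner_th ha hb ha hb hw hw]
      have h3 := hpos i a ha
      have h4 := hpos i b hb
      unfold br'
      simp
      linarith
    exact h.mem_of_psum h2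
  have h2 : ∀ (α : Type) [Fintype α] [DecidableEq α], ∀ x ∈ S α, x ∈ ES sd S α :=
    fun α _ _ x hx => gen_le (isSys_ES h) h1 (hgen α x hx)
  have h3 : ∀ w : CA S α, PSum (h.th α) w := by
    intro w
    apply h.psum_of_mem
    obtain ⟨a, ha, b, hb, hw⟩ := w.2
    rw [hw]
    exact Submodule.add_mem _ (h2 α a ha) (ES_I (h2 α b hb))
  have h4 := spec2 (core (CA S α)) (h.th α) h.th_symm h3
    ⟨x, x, hx, 0, Submodule.zero_mem _, by simp⟩
  rw [h.inner_th hx (Submodule.zero_mem _) hx (Submodule.zero_mem _) (by simp) (by simp)] at h4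
  unfold br' at h4
  simpa [bf_zero_left] using h4

end Pos

end Pool.Agent.H24FD
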