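import Pool.Agent.H24FD.Fun

/-!
# The projections to a nondegenerate system of tensors
-/

set_option autoImplicit false
set_option linter.unusedSectionVars false

namespace Pool.Agent.H24FD

section Ctr

variable {ι : Type} [Fintype ι] [DecidableEq ι] (sd : Std ι) {R : Type*} [CommRing R]
  {β : Type} [Fintype β] [DecidableEq β]

/-- The tensor dual to the form. -/
def cc : (Bool → ι) → R := cp sd false + cp sd true

lemma cc_apply (k : Bool → ι) : (cc sd k : R) =
    if k true = sd.st (k false) then (sd.sg (k false) : R) else 0 := by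
  unfold cc cp
  rw [Pi.add_apply]
  by_cases h : k true = sd.st (k false)
  · cases h1 : sd.par (k false) <;> simp [h]
  · simp [h]

lemma bf_cc (x : (β → ι) → R) (z : (Bool ⊕ β → ι) → R) :
    bf sd (ten (cc sd) x) z = bf sd x (ctr sd z) := by
  unfold bf
  rw [sum_sum, Finset.sum_comm]
  apply Finset.sum_congr rfl
  intro k _
  rw [← (Equiv.boolArrowEquivProd ι).symm.sum_comp, Fintype.sum_prod_type]
  unfold ctr
  rw [Finset.mul_sum, Finset.mul_sum]
  have hst : Function.Bijective sd.st := ⟨fun i j h => by rw [← sd.st_st i, h, sd.st_st],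
    fun i => ⟨sd.st i, sd.st_st i⟩⟩
  rw [← (Equiv.ofBijective sd.st hst).sum_comp]
  apply Finset.sum_congr rfl
  intro i _
  rw [Finset.sum_eq_single i]
  · rw [Fintype.prod_sum_type, Fintype.prod_bool]
    simp only [Sum.elim_inl, Sum.elim_inr, Equiv.boolArrowEquivProd_symm_apply, if_true,
      Bool.false_eq_true, if_false, Equiv.ofBijective_apply]
    rw [ten_apply, cc_apply, if_pos]
    · have h1 : (fun a => sd.st (Sum.elim ((Equiv.boolArrowEquivProd ι).symm (sd.st i, i)) k a)) =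
          cons2 i (sd.st i) (fun b => sd.st (k b)) := by
        funext c
        rcases c with (_ | _) | b
        · simp [cons2, sd.st_st]
        · simp [cons2]
        · rfl
      have h3 : (Equiv.boolArrowEquivProd ι).symm (sd.st i, i) false = sd.st i := by simp
      have h2 : (sd.sg (sd.st i) : R) * (sd.sg (sd.st i) : R) = 1 := by
        exact_mod_cast congrArg (Int.cast : ℤ → R) (sd.sg_sq (sd.st i))
      rw [h1, h3]
      push_cast
      linear_combination ((sd.sg i : R) * (∏ x, (sd.sg (k x) : R)) * x k *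
        z (cons2 i (sd.st i) (fun b => sd.st (k b)))) * h2
    · simp [sd.st_st]
  · intro j _ hj
    rw [ten_apply, cc_apply, if_neg]
    · simp
    · simp only [Equiv.boolArrowEquivProd_symm_apply, if_true, Bool.false_eq_true, if_false,
        Equiv.ofBijective_apply, sd.st_st]
      exact hj
  · intro h
    exact absurd (Finset.mem_univ _) h

end Ctr

section Pair

variable {ι : Type} [Fintype ι] [DecidableEq ι] (sd : Std ι)

/-- The first component. -/
def f1 {α : Type} (x : (α → ι) → ℂ × ℂ) : (α → ι) → ℂ := fun l => (x l).1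

/-- The second component. -/
def f2 {α : Type} (x : (α → ι) → ℂ × ℂ) : (α → ι) → ℂ := fun l => (x l).2

/-- A nondegenerate system of pairs of tensors with the same contractions. -/
structure NPair (P : ∀ (α : Type) [Fintype α] [DecidableEq α],
    Submodule ℝ ((α → ι) → ℂ × ℂ)) : Prop where
  sys : IsSys sd ℝ P
  real : ∀ x ∈ P Empty, ∃ r : ℝ, x = fun _ => ((r : ℂ), (r : ℂ))
  nd : ∀ (α : Type) [Fintype α] [DecidableEq α], ∀ x ∈ P α,
    (∀ y ∈ P α, bf sd (f1 x) (f1 y) = 0) → x = 0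
  symm : ∀ (α : Type) [Fintype α] [DecidableEq α], ∀ x ∈ P α, ∀ y ∈ P α,
    bf sd (f1 x) (f1 y) = bf sd (f1 y) (f1 x)

variable {sd} {P : ∀ (α : Type) [Fintype α] [DecidableEq α], Submodule ℝ ((α → ι) → ℂ × ℂ)}

lemma bf_f1 {α : Type} [Fintype α] [DecidableEq α] (x y : (α → ι) → ℂ × ℂ) :
    (bf sd x y).1 = bf sd (f1 x) (f1 y) := map_bf (AlgHom.fst ℝ ℂ ℂ) x y

lemma bf_f2 {α : Type} [Fintype α] [DecidableEq α] (x y : (α → ι) → ℂ × ℂ) :
    (bf sd x y).2 = bf sd (f2 x) (f2 y) := map_bf (AlgHom.snd ℝ ℂ ℂ) x y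

lemma NPair.bf_eq (h : NPair sd P) {α : Type} [Fintype α] [DecidableEq α]
    {x y : (α → ι) → ℂ × ℂ} (hx : x ∈ P α) (hy : y ∈ P α) :
    ∃ r : ℝ, bf sd (f1 x) (f1 y) = r ∧ bf sd (f2 x) (f2 y) = r := by
  obtain ⟨r, hr⟩ := h.real _ (h.sys.bf hx hy)
  have h1 : bf sd x y = ((r : ℂ), (r : ℂ)) := congrFun hr Empty.elim
  exact ⟨r, by rw [← bf_f1, h1], by rw [← bf_f2, h1]⟩

/-- The complex span of the second components. -/
def NPair.Sp (h : NPair sd P) (α : Type) [Fintype α] [DecidableEq α] :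
    Submodule ℂ ((α → ι) → ℂ) where
  carrier := {w | ∃ a ∈ P α, ∃ b ∈ P α, w = f2 a + Complex.I • f2 b}
  add_mem' := by
    rintro _ _ ⟨a, ha, b, hb, rfl⟩ ⟨a', ha', b', hb', rfl⟩
    refine ⟨a + a', Submodule.add_mem _ ha ha', b + b', Submodule.add_mem _ hb hb', ?_⟩
    funext l
    simp [f2]
    ring
  zero_mem' := ⟨0, Submodule.zero_mem _, 0, Submodule.zero_mem _, by funext l; simp [f2]⟩
  smul_mem' := by
    rintro c _ ⟨a, ha, b, hb, rfl⟩
    refine ⟨c.re • a - c.im • b, Submodule.sub_mem _ (Submodule.smul_mem _ _ ha)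
      (Submodule.smul_mem _ _ hb), c.im • a + c.re • b, Submodule.add_mem _
      (Submodule.smul_mem _ _ ha) (Submodule.smul_mem _ _ hb), ?_⟩
    funext l
    simp only [f2, Pi.smul_apply, Pi.add_apply, Pi.sub_apply, smul_eq_mul, Prod.snd_add,
      Prod.snd_sub, Prod.smul_snd, Complex.real_smul]
    conv_lhs => rw [← Complex.re_add_im c]
    linear_combination ((c.im : ℂ) * (b l).2) * Complex.I_mul_I

lemma NPair.mem_Sp (h : NPair sd P) {α : Type} [Fintype α] [DecidableEq α] {w : (α → ι) → ℂ} :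
    w ∈ h.Sp α ↔ ∃ a ∈ P α, ∃ b ∈ P α, w = f2 a + Complex.I • f2 b := Iff.rfl

lemma NPair.f2_mem (h : NPair sd P) {α : Type} [Fintype α] [DecidableEq α]
    {x : (α → ι) → ℂ × ℂ} (hx : x ∈ P α) : f2 x ∈ h.Sp α :=
  ⟨x, hx, 0, Submodule.zero_mem _, by funext l; simp [f2]⟩

lemma NPair.eq_zero (h : NPair sd P) {α : Type} [Fintype α] [DecidableEq α] {w : (α → ι) → ℂ}
    (hw : w ∈ h.Sp α) (hw0 : ∀ x ∈ P α, bf sd (f2 x) w = 0) : w = 0 := by
  obtain ⟨a, ha, b, hb, rfl⟩ := hw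
  have key : ∀ x ∈ P α, bf sd (f1 x) (f1 a) = 0 ∧ bf sd (f1 x) (f1 b) = 0 := by
    intro x hx
    obtain ⟨r, hr1, hr2⟩ := h.bf_eq hx ha
    obtain ⟨s, hs1, hs2⟩ := h.bf_eq hx hb
    have h1 := hw0 x hx
    rw [bf_add_right, bf_smul_right, hr2, hs2] at h1
    have h2 := congrArg Complex.re h1
    have h3 := congrArg Complex.im h1
    simp at h2 h3
    rw [hr1, hs1, h2, h3]
    simp
  have ha0 : a = 0 := h.nd α a ha fun y hy => by rw [h.symm α a ha y hy]; exact (key y hy).1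
  have hb0 : b = 0 := h.nd α b hb fun y hy => by rw [h.symm α b hb y hy]; exact (key y hy).2
  rw [ha0, hb0]
  funext l
  simp [f2]

lemma NPair.uniq (h : NPair sd P) {α : Type} [Fintype α] [DecidableEq α] {w w' : (α → ι) → ℂ}
    (hw : w ∈ h.Sp α) (hw' : w' ∈ h.Sp α) (hww : ∀ x ∈ P α, bf sd (f2 x) w = bf sd (f2 x) w') :
    w = w' := by
  rw [← sub_eq_zero]
  apply h.eq_zero (Submodule.sub_mem _ hw hw')
  intro x hx
  have h1 : w - w' = w + (-1 : ℂ) • w' := by rw [neg_one_smul, sub_eq_add_neg]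
  rw [h1, bf_add_right, bf_smul_right, hww x hx]
  ring

/-- The real form on a system. -/
noncomputable def NPair.form (h : NPair sd P) (α : Type) [Fintype α] [DecidableEq α] :
    P α →ₗ[ℝ] Module.Dual ℝ (P α) :=
  LinearMap.mk₂ ℝ (fun a x => (bf sd (f1 x.1) (f1 a.1)).re)
    (fun a a' x => by
      have : f1 ((a + a' : P α) : (α → ι) → ℂ × ℂ) = f1 a.1 + f1 a'.1 := rfl
      rw [this, bf_add_right, Complex.add_re])
    (fun r a x => by
      have : f1 ((r • a : P α) : (α → ι) → ℂ × ℂ) = (r : ℂ) • f1 a.1 := by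
        funext l
        simp [f1]
      rw [this, bf_smul_right, Complex.re_ofReal_mul, smul_eq_mul])
    (fun a x x' => by
      have : f1 ((x + x' : P α) : (α → ι) → ℂ × ℂ) = f1 x.1 + f1 x'.1 := rfl
      rw [this, bf_add_left, Complex.add_re])
    (fun r a x => by
      have : f1 ((r • x : P α) : (α → ι) → ℂ × ℂ) = (r : ℂ) • f1 x.1 := by
        funext l
        simp [f1]
      rw [this, bf_smul_left, Complex.re_ofReal_mul, smul_eq_mul])

lemma NPair.form_surj (h : NPair sd P) (α : Type) [Fintype α] [DecidableEq α] :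
    Function.Surjective (h.form α) := by
  have hinj : Function.Injective (h.form α) := by
    rw [injective_iff_map_eq_zero]
    intro a ha
    apply Subtype.ext
    apply h.nd α a.1 a.2
    intro y hy
    have h1 := LinearMap.congr_fun ha ⟨y, hy⟩
    obtain ⟨r, hr, -⟩ := h.bf_eq hy a.2
    have h2 : (bf sd (f1 y) (f1 a.1)).re = 0 := h1
    rw [h.symm α a.1 a.2 y hy, hr]
    rw [hr, Complex.ofReal_re] at h2
    rw [h2, Complex.ofReal_zero]
  exact (LinearMap.injective_iff_surjective_of_finrank_eq_finrank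
    (Subspace.dual_finrank_eq (K := ℝ) (V := P α)).symm).1 hinj

lemma NPair.exists_q (h : NPair sd P) {α : Type} [Fintype α] [DecidableEq α]
    (y : (α → ι) → ℂ) : ∃ w ∈ h.Sp α, ∀ x ∈ P α, bf sd (f2 x) w = bf sd (f1 x) y := by
  let φ : Complex.I = Complex.I → P α →ₗ[ℝ] ℂ := fun _ =>
    { toFun := fun x => bf sd (f1 x.1) y
      map_add' := fun x x' => by
        have : f1 ((x + x' : P α) : (α → ι) → ℂ × ℂ) = f1 x.1 + f1 x'.1 := rfl
        rw [this, bf_add_left]
      map_smul' := fun r x => by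
        have : f1 ((r • x : P α) : (α → ι) → ℂ × ℂ) = (r : ℂ) • f1 x.1 := by
          funext l
          simp [f1]
        rw [this, bf_smul_left, RingHom.id_apply, Complex.real_smul] }
  obtain ⟨a, ha⟩ := h.form_surj α (Complex.reLm ∘ₗ φ rfl)
  obtain ⟨b, hb⟩ := h.form_surj α (Complex.imLm ∘ₗ φ rfl)
  refine ⟨f2 a.1 + Complex.I • f2 b.1, ⟨a.1, a.2, b.1, b.2, rfl⟩, ?_⟩
  intro x hx
  obtain ⟨r, hr1, hr2⟩ := h.bf_eq hx a.2
  obtain ⟨s, hs1, hs2⟩ := h.bf_eq hx b.2
  have h1 : (bf sd (f1 x) (f1 a.1)).re = (bf sd (f1 x) y).re := LinearMap.congr_fun ha ⟨x, hx⟩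
  have h2 : (bf sd (f1 x) (f1 b.1)).re = (bf sd (f1 x) y).im := LinearMap.congr_fun hb ⟨x, hx⟩
  rw [hr1, Complex.ofReal_re] at h1
  rw [hs1, Complex.ofReal_re] at h2
  rw [bf_add_right, bf_smul_right, hr2, hs2, h1, h2, mul_comm, Complex.re_add_im]

/-- The map of a pair of systems. -/
noncomputable def NPair.Q (h : NPair sd P) (α : Type) [Fintype α] [DecidableEq α] :
    ((α → ι) → ℂ) →ₗ[ℂ] ((α → ι) → ℂ) where
  toFun y := (h.exists_q y).choose
  map_add' y y' := by
    apply h.uniq (h.exists_q _).choose_spec.1 (Submodule.add_mem _ (h.exists_q _).choose_spec.1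
      (h.exists_q _).choose_spec.1)
    intro x hx
    rw [(h.exists_q (y + y')).choose_spec.2 x hx, bf_add_right, bf_add_right,
      (h.exists_q y).choose_spec.2 x hx, (h.exists_q y').choose_spec.2 x hx]
  map_smul' r y := by
    apply h.uniq (h.exists_q _).choose_spec.1 (Submodule.smul_mem _ _
      (h.exists_q _).choose_spec.1)
    intro x hx
    rw [(h.exists_q (r • y)).choose_spec.2 x hx, RingHom.id_apply, bf_smul_right, bf_smul_right,
      (h.exists_q y).choose_spec.2 x hx]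

lemma NPair.Q_mem (h : NPair sd P) {α : Type} [Fintype α] [DecidableEq α] (y : (α → ι) → ℂ) :
    h.Q α y ∈ h.Sp α := (h.exists_q y).choose_spec.1

lemma NPair.bf_Q (h : NPair sd P) {α : Type} [Fintype α] [DecidableEq α] {x : (α → ι) → ℂ × ℂ}
    (hx : x ∈ P α) (y : (α → ι) → ℂ) : bf sd (f2 x) (h.Q α y) = bf sd (f1 x) y :=
  (h.exists_q y).choose_spec.2 x hx

lemma map_pc {R R' : Type*} [CommRing R] [CommRing R'] [Algebra ℝ R] [Algebra ℝ R']
    (φ : R →ₐ[ℝ] R') {α β : Type} [Fintype α] [DecidableEq α]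
    (x : (α ⊕ β → ι) → R) (y : (α → ι) → R) :
    (fun l => φ (pc sd x y l)) = pc sd (fun l => φ (x l)) (fun l => φ (y l)) := by
  funext l
  unfold pc
  rw [map_sum]
  apply Finset.sum_congr rfl
  intro i _
  rw [map_mul, map_intCast, map_mul]

lemma NPair.qfam (h : NPair sd P) :
    QFam (fun α _ _ => {p | ∃ x ∈ P α, p = (f1 x, f2 x)}) (fun α _ _ => h.Q α) where
  one := by
    apply h.uniq (h.Q_mem _) (h.f2_mem h.sys.one)
    intro x hx
    rw [h.bf_Q hx]
    obtain ⟨r, h1, h2⟩ := h.bf_eq hx h.sys.one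
    exact h1.trans h2.symm
  re {α β _ _ _ _} e y := by
    apply h.uniq (h.Q_mem _)
    · obtain ⟨a, ha, b, hb, hab⟩ := h.Q_mem y
      rw [hab]
      exact ⟨_, h.sys.re e ha, _, h.sys.re e hb, rfl⟩
    · intro x hx
      have h1 := h.sys.re e.symm hx
      have h2 : x = H24FD.re e (H24FD.re e.symm x) := by
        funext l; simp [H24FD.re]
      rw [h.bf_Q hx]
      have h3 : f1 x = H24FD.re e (f1 (H24FD.re e.symm x)) := by
        conv_lhs => rw [h2]
        rfl
      have h4 : f2 x = H24FD.re e (f2 (H24FD.re e.symm x)) := by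
        conv_lhs => rw [h2]
        rfl
      rw [h3, h4, bf_re, bf_re, h.bf_Q h1]
  ten {α β _ _ _ _ x x'} y hx := by
    obtain ⟨u, hu, hxu⟩ := hx
    obtain ⟨rfl, rfl⟩ := Prod.mk.inj hxu
    apply h.uniq (h.Q_mem _)
    · obtain ⟨a, ha, b, hb, hab⟩ := h.Q_mem y
      rw [hab]
      refine ⟨_, h.sys.ten hu ha, _, h.sys.ten hu hb, ?_⟩
      rw [ten_add_right, ten_smul_right]
      rfl
    · intro z hz
      have h1 := h.sys.pc hz hu
      have h2 : f1 (H24FD.pc sd z u) = H24FD.pc sd (f1 z) (f1 u) :=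
        map_pc (AlgHom.fst ℝ ℂ ℂ) z u
      have h3 : f2 (H24FD.pc sd z u) = H24FD.pc sd (f2 z) (f2 u) :=
        map_pc (AlgHom.snd ℝ ℂ ℂ) z u
      rw [h.bf_Q hz, bf_ten, bf_ten, ← h2, ← h3, h.bf_Q h1]

lemma NPair.Q_ctr (h : NPair sd P) {β : Type} [Fintype β] [DecidableEq β]
    (z : (Bool ⊕ β → ι) → ℂ) : ctr sd (h.Q (Bool ⊕ β) z) = h.Q β (ctr sd z) := by
  apply h.uniq _ (h.Q_mem _)
  · intro x hx
    have hc : (cc sd : (Bool → ι) → ℂ × ℂ) ∈ P Bool :=
      Submodule.add_mem _ (h.sys.cp false) (h.sys.cp true)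
    have h1 := h.sys.ten hc hx
    have h2 : f1 (ten (cc sd) x) = ten (cc sd) (f1 x) := by
      have h3 : f1 (cc sd : (Bool → ι) → ℂ × ℂ) = cc sd := by
        unfold cc
        rw [← map_cp (AlgHom.fst ℝ ℂ ℂ) false, ← map_cp (AlgHom.fst ℝ ℂ ℂ) true]
        rfl
      rw [← h3]
      rfl
    have h3 : f2 (ten (cc sd) x) = ten (cc sd) (f2 x) := by
      have h3 : f2 (cc sd : (Bool → ι) → ℂ × ℂ) = cc sd := by
        unfold cc
        rw [← map_cp (AlgHom.snd ℝ ℂ ℂ) false, ← map_cp (AlgHom.snd ℝ ℂ ℂ) true]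
        rfl
      rw [← h3]
      rfl
    rw [h.bf_Q hx, ← bf_cc, ← bf_cc, ← h2, ← h3, h.bf_Q h1]
  · obtain ⟨a, ha, b, hb, hab⟩ := h.Q_mem z
    rw [hab]
    refine ⟨_, h.sys.ctr ha, _, h.sys.ctr hb, ?_⟩
    rw [ctr_add, ctr_smul]
    have h1 : f2 (ctr sd a) = ctr sd (f2 a) := map_ctr (AlgHom.snd ℝ ℂ ℂ) a
    have h2 : f2 (ctr sd b) = ctr sd (f2 b) := map_ctr (AlgHom.snd ℝ ℂ ℂ) b
    rw [h1, h2]

/-- The map of the system of pairs is the given isomorphism on the system. -/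
lemma NPair.Q_f1 (h : NPair sd P) {α : Type} [Fintype α] [DecidableEq α]
    {x : (α → ι) → ℂ × ℂ} (hx : x ∈ P α) : h.Q α (f1 x) = f2 x := by
  apply h.uniq (h.Q_mem _) (h.f2_mem hx)
  intro y hy
  rw [h.bf_Q hy]
  obtain ⟨r, h1, h2⟩ := h.bf_eq hy hx
  exact h1.trans h2.symm

lemma NPair.Q_eq_zero (h : NPair sd P) {α : Type} [Fintype α] [DecidableEq α]
    {y : (α → ι) → ℂ} (hy : ∀ x ∈ P α, bf sd (f1 x) y = 0) : h.Q α y = 0 := by
  apply h.eq_zero (h.Q_mem _)
  intro x hx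
  rw [h.bf_Q hx, hy x hx]

end Pair

end Pool.Agent.H24FD
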