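import Pool.Agent.H24FD.Cj

/-!
# Realizations of the nondegenerate quotient of a system of tensors
-/

set_option autoImplicit false
set_option linter.unusedSectionVars false
set_option linter.style.haveILetI false

namespace Pool.Agent.H24FD

open MvPolynomial

section Big

variable {ι : Type} [Fintype ι] [DecidableEq ι] {sd : Std ι} {R : Type*} [CommRing R]
  {k : Type*} [CommRing k] [Algebra k R]
  {S : ∀ (α : Type) [Fintype α] [DecidableEq α], Submodule k ((α → ι) → R)}

/-- The tensor product of a family of tensors. -/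
def bigten {τ : Type} [Fintype τ] {B : τ → Type} (x : ∀ t, (B t → ι) → R) :
    ((Σ t, B t) → ι) → R := fun l => ∏ t, x t (fun a => l ⟨t, a⟩)

lemma IsSys.bigten (h : IsSys sd k S) : ∀ (τ : Type) [Fintype τ], ∀ [DecidableEq τ]
    (B : τ → Type) [∀ t, Fintype (B t)] [∀ t, DecidableEq (B t)] (x : ∀ t, (B t → ι) → R),
    (∀ t, x t ∈ S (B t)) → bigten x ∈ S (Σ t, B t) := by
  intro τ _
  refine Fintype.induction_empty_option (P := fun (τ : Type) [Fintype τ] => ∀ [DecidableEq τ]
    (B : τ → Type) [∀ t, Fintype (B t)] [∀ t, DecidableEq (B t)] (x : ∀ t, (B t → ι) → R),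
    (∀ t, x t ∈ S (B t)) → H24FD.bigten x ∈ S (Σ t, B t)) ?_ ?_ ?_ τ
  · intro τ τ' _ e ih _ B _ _ x hx
    letI : Fintype τ := Fintype.ofEquiv τ' e.symm
    letI : DecidableEq τ := Classical.decEq τ
    have h1 := ih (fun t => B (e t)) (fun t => x (e t)) (fun t => hx (e t))
    have h2 := h.re (Equiv.sigmaCongrLeft e) h1
    convert h2 using 1
    funext l
    unfold H24FD.bigten H24FD.re
    rw [← e.prod_comp]
    rfl
  · intro _ B _ _ x hx
    have e : Empty ≃ Σ t : PEmpty.{1}, B t :=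
      ⟨Empty.elim, fun c => c.1.elim, fun c => c.elim, fun c => c.1.elim⟩
    have h1 := h.re e h.one
    convert h1 using 1
    funext l
    unfold H24FD.bigten H24FD.re
    simp
  · intro τ _ ih inst B _ _ x hx
    letI : DecidableEq τ := Classical.decEq τ
    obtain rfl : inst = Option.instDecidableEq := Subsingleton.elim _ _
    have h1 := ih (fun t => B (some t)) (fun t => x (some t)) (fun t => hx _)
    let e : B none ⊕ (Σ t : τ, B (some t)) ≃ Σ t : Option τ, B t :=
      { toFun := Sum.elim (fun a => ⟨none, a⟩) (fun c => ⟨some c.1, c.2⟩)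
        invFun := fun c => match c with
          | ⟨none, a⟩ => Sum.inl a
          | ⟨some t, a⟩ => Sum.inr ⟨t, a⟩
        left_inv := by rintro (a | ⟨t, a⟩) <;> rfl
        right_inv := by rintro ⟨_ | t, a⟩ <;> rfl }
    have h2 := h.re e (h.ten (hx none) h1)
    convert h2 using 1
    funext l
    unfold H24FD.bigten H24FD.re H24FD.ten
    rw [Fintype.prod_option]
    rfl

end Big

section Rz

variable {ι : Type} [Fintype ι] [DecidableEq ι] (sd : Std ι)
  {I : Type} [Fintype I] [DecidableEq I] {A : I → Type} [∀ i, Fintype (A i)]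
  [∀ i, DecidableEq (A i)] (v : ∀ i, (A i → ι) → ℂ)

/-- The tensor product of the given tensors. -/
def vp {τ : Type} [Fintype τ] (p : τ → Σ i, (A i → ι)) : ((Σ t : τ, A (p t).1) → ι) → ℂ :=
  bigten (fun t => v (p t).1)

/-- The index of a product of variables. -/
def Jp {τ : Type} (p : τ → Σ i, (A i → ι)) : (Σ t : τ, A (p t).1) → ι :=
  fun c => (p c.1).2 c.2

/-- The values of the functional. -/
noncomputable def Ph {γ : Type} [Fintype γ] [DecidableEq γ] (z : (γ → ι) → ℂ) (l : γ → ι)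
    (τ : Type) [Fintype τ] [DecidableEq τ] (p : τ → Σ i, (A i → ι)) : ℂ :=
  (npair_br sd).Q ((Σ t : τ, A (p t).1) ⊕ γ) (ten (vp v p) z) (Sum.elim (Jp p) l)

lemma Q_re {α β : Type} [Fintype α] [DecidableEq α] [Fintype β] [DecidableEq β] (e : α ≃ β)
    (y : (α → ι) → ℂ) (l : β → ι) :
    (npair_br sd).Q α y (fun a => l (e a)) = (npair_br sd).Q β (re e y) l := by
  rw [(npair_br sd).qfam.re e y]
  rfl

lemma Q_re' {α β : Type} [Fintype α] [DecidableEq α] [Fintype β] [DecidableEq β] (e : α ≃ β)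
    {y : (α → ι) → ℂ} {y' : (β → ι) → ℂ} {m : α → ι} {l : β → ι} (hy : re e y = y')
    (hl : (fun a => l (e a)) = m) :
    (npair_br sd).Q α y m = (npair_br sd).Q β y' l := by
  rw [← hl, Q_re, hy]

lemma exists_F {γ : Type} [Fintype γ] [DecidableEq γ] (z : (γ → ι) → ℂ) (l : γ → ι) :
    ∃ F : MvPolynomial (Σ i, (A i → ι)) ℂ →ₗ[ℂ] ℂ, ∀ (τ : Type) [Fintype τ] [DecidableEq τ]
      (p : τ → Σ i, (A i → ι)), F (∏ t, X (p t)) = Ph sd v z l τ p := by
  apply exists_functional
  intro τ τ' _ _ _ _ e p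
  let E : (Σ t : τ, A (p (e t)).1) ≃ Σ t : τ', A (p t).1 :=
    Equiv.sigmaCongrLeft (β := fun t => A (p t).1) e
  refine Q_re' sd (Equiv.sumCongr E (Equiv.refl γ)) ?_ ?_
  · funext m
    unfold re ten vp bigten
    congr 1
    rw [← e.prod_comp]
    rfl
  · funext c
    rcases c with a | b <;> rfl

/-- The functional. -/
noncomputable def Fn {γ : Type} [Fintype γ] [DecidableEq γ] (z : (γ → ι) → ℂ) (l : γ → ι) :
    MvPolynomial (Σ i, (A i → ι)) ℂ →ₗ[ℂ] ℂ := (exists_F sd v z l).choose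

lemma Fn_prod {γ : Type} [Fintype γ] [DecidableEq γ] (z : (γ → ι) → ℂ) (l : γ → ι) (τ : Type)
    [Fintype τ] [DecidableEq τ] (p : τ → Σ i, (A i → ι)) :
    Fn sd v z l (∏ t, X (p t)) = Ph sd v z l τ p := (exists_F sd v z l).choose_spec τ p

lemma Fn_re {γ δ : Type} [Fintype γ] [DecidableEq γ] [Fintype δ] [DecidableEq δ] (e : γ ≃ δ)
    {z : (γ → ι) → ℂ} {z' : (δ → ι) → ℂ} {l : γ → ι} {l' : δ → ι} (hz : re e z = z')
    (hl : (fun c => l' (e c)) = l) : Fn sd v z l = Fn sd v z' l' := by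
  apply functional_ext
  intro τ _ _ p
  rw [Fn_prod, Fn_prod]
  refine Q_re' sd (Equiv.sumCongr (Equiv.refl _) e) ?_ ?_
  · rw [← hz]; rfl
  · rw [← hl]
    funext c
    rcases c with a | b <;> rfl

lemma Fn_add {γ : Type} [Fintype γ] [DecidableEq γ] (z z' : (γ → ι) → ℂ) (l : γ → ι) :
    Fn sd v (z + z') l = Fn sd v z l + Fn sd v z' l := by
  apply functional_ext
  intro τ _ _ p
  rw [LinearMap.add_apply, Fn_prod, Fn_prod, Fn_prod]
  unfold Ph
  rw [ten_add_right, map_add, Pi.add_apply]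

lemma Fn_smul {γ : Type} [Fintype γ] [DecidableEq γ] (r : ℂ) (z : (γ → ι) → ℂ) (l : γ → ι) :
    Fn sd v (r • z) l = r • Fn sd v z l := by
  apply functional_ext
  intro τ _ _ p
  rw [LinearMap.smul_apply, Fn_prod, Fn_prod]
  unfold Ph
  rw [ten_smul_right, map_smul, Pi.smul_apply]

/-- The tensors `x` over the product of the complex numbers and of the polynomial ring for which the
multiplication by the entries of the second component is given by the first component. -/
noncomputable def US (α : Type) [Fintype α] [DecidableEq α] :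
    Submodule ℝ ((α → ι) → ℂ × MvPolynomial (Σ i, (A i → ι)) ℂ) where
  carrier := {x | ∀ (γ : Type) [Fintype γ] [DecidableEq γ] (z : (γ → ι) → ℂ) (l : γ → ι)
    (k : α → ι) (m : MvPolynomial (Σ i, (A i → ι)) ℂ),
      Fn sd v z l (m * (x k).2) = Fn sd v (ten (fun k => (x k).1) z) (Sum.elim k l) m}
  add_mem' {x y} hx hy := by
    intro γ _ _ z l k m
    rw [Pi.add_apply, Prod.snd_add, mul_add, map_add, hx, hy]
    have : (fun k => ((x + y) k).1) = (fun k => (x k).1) + fun k => (y k).1 := rfl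
    rw [this, ten_add_left, Fn_add, LinearMap.add_apply]
  zero_mem' := by
    intro γ _ _ z l k m
    have : (fun k => ((0 : (α → ι) → ℂ × MvPolynomial (Σ i, (A i → ι)) ℂ) k).1) =
        (0 : ℂ) • (fun _ => (0 : ℂ)) := by funext l; simp
    rw [this, ten_smul_left, Fn_smul]
    simp
  smul_mem' r x hx := by
    intro γ _ _ z l k m
    have : (fun k => ((r • x) k).1) = (r : ℂ) • (fun k => (x k).1) := by
      funext l; simp
    rw [this, ten_smul_left, Fn_smul, LinearMap.smul_apply, ← hx γ z l k m, ← map_smul]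
    congr 1
    rw [Pi.smul_apply, Prod.smul_snd, mul_smul_comm]
    rfl

/-- The generic tensors. -/
noncomputable def gv (i : I) : (A i → ι) → ℂ × MvPolynomial (Σ i, (A i → ι)) ℂ :=
  fun k => (v i k, X ⟨i, k⟩)

lemma gv_mem (i : I) : gv v i ∈ US sd v (A i) := by
  intro γ _ _ z l k m
  suffices hs : Fn sd v z l ∘ₗ (LinearMap.mulRight ℂ (X ⟨i, k⟩)) =
      Fn sd v (ten (v i) z) (Sum.elim k l) from LinearMap.congr_fun hs m
  apply functional_ext
  intro τ _ _ p
  rw [LinearMap.comp_apply, LinearMap.mulRight_apply, Fn_prod]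
  have h1 : (∏ t, X (p t)) * X ⟨i, k⟩ = (∏ t : τ ⊕ Unit, X (Sum.elim p (fun _ => ⟨i, k⟩) t) :
      MvPolynomial (Σ i, (A i → ι)) ℂ) := by
    rw [Fintype.prod_sum_type]
    simp
  rw [h1, Fn_prod]
  let p' : τ ⊕ Unit → Σ i, (A i → ι) := Sum.elim p (fun _ => ⟨i, k⟩)
  let e : (Σ t : τ ⊕ Unit, A (p' t).1) ⊕ γ ≃ (Σ t : τ, A (p t).1) ⊕ (A i ⊕ γ) :=
    { toFun := Sum.elim (fun c => match c with
        | ⟨Sum.inl t, a⟩ => Sum.inl ⟨t, a⟩
        | ⟨Sum.inr _, a⟩ => Sum.inr (Sum.inl a)) (fun c => Sum.inr (Sum.inr c))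
      invFun := Sum.elim (fun c => Sum.inl ⟨Sum.inl c.1, c.2⟩)
        (Sum.elim (fun a => Sum.inl ⟨Sum.inr (), a⟩) (fun c => Sum.inr c))
      left_inv := by rintro (⟨t | _, a⟩ | c) <;> rfl
      right_inv := by rintro (⟨t, a⟩ | (a | c)) <;> rfl }
  refine Q_re' sd e ?_ ?_
  · funext n
    unfold re ten vp bigten
    rw [Fintype.prod_sum_type, Fintype.prod_unique (ι := Unit), mul_assoc]
    rfl
  · funext c
    rcases c with ⟨t | _, a⟩ | c <;> rfl

lemma isSys_US : IsSys sd ℝ (fun α _ _ => US sd v α) where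
  one := by
    intro γ _ _ z l k m
    rw [Prod.snd_one, mul_one]
    exact LinearMap.congr_fun (Fn_re sd v (Equiv.emptySum Empty γ).symm (by
      funext n
      unfold re ten
      simp) (by funext c; rfl)) m
  re {α β _ _ _ _} e x hx := by
    intro γ _ _ z l k m
    change Fn sd v z l (m * (x (fun a => k (e a))).2) = _
    rw [hx γ z l _ m]
    exact LinearMap.congr_fun (Fn_re sd v (Equiv.sumCongr e (Equiv.refl γ)) rfl
      (by funext c; rcases c with a | b <;> rfl)) m
  ten {α β _ _ _ _ x y} hx hy := by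
    intro γ _ _ z l k m
    change Fn sd v z l (m * ((x fun a => k (Sum.inl a)) * (y fun b => k (Sum.inr b))).2) = _
    rw [Prod.snd_mul, ← mul_assoc, hy, hx]
    exact LinearMap.congr_fun (Fn_re sd v (Equiv.sumAssoc α β γ).symm
      (by
        funext n
        unfold re H24FD.ten
        simp only [Prod.fst_mul]
        rw [mul_assoc]
        rfl)
      (by funext c; rcases c with a | (b | c) <;> rfl)) m
  ctr {β _ _ x} hx := by
    intro γ _ _ z l k m
    have h1 : (H24FD.ctr sd x k).2 = ∑ i, (sd.sg i : ℂ) • (x (cons2 i (sd.st i) k)).2 := by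
      unfold H24FD.ctr
      rw [Prod.snd_sum]
      apply Finset.sum_congr rfl
      intro i _
      rw [Prod.snd_mul]
      change ((sd.sg i : ℤ) : MvPolynomial (Σ i, (A i → ι)) ℂ) * _ = _
      rw [smul_eq_C_mul]
      simp
    have h2 : (fun k => (H24FD.ctr sd x k).1) = H24FD.ctr sd (fun k => (x k).1) :=
      map_ctr (AlgHom.fst ℝ ℂ (MvPolynomial (Σ i, (A i → ι)) ℂ)) x
    rw [h1, h2, Finset.mul_sum, map_sum]
    simp only [mul_smul_comm, map_smul]
    rw [Finset.sum_congr rfl (fun i _ => by rw [hx γ z l _ m])]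
    suffices hs : ∑ i, (sd.sg i : ℂ) • Fn sd v (H24FD.ten (fun k => (x k).1) z)
        (Sum.elim (cons2 i (sd.st i) k) l) =
        Fn sd v (H24FD.ten (H24FD.ctr sd (fun k => (x k).1)) z) (Sum.elim k l) by
      rw [← hs, LinearMap.sum_apply]
      rfl
    apply functional_ext
    intro τ _ _ p
    rw [LinearMap.sum_apply]
    simp only [LinearMap.smul_apply, Fn_prod]
    unfold Ph
    set B := Σ t : τ, A (p t).1 with hB
    let e : B ⊕ ((Bool ⊕ β) ⊕ γ) ≃ Bool ⊕ (B ⊕ (β ⊕ γ)) :=
      { toFun := Sum.elim (fun b => Sum.inr (Sum.inl b)) (Sum.elim (Sum.elim (fun t => Sum.inl t)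
          (fun b => Sum.inr (Sum.inr (Sum.inl b)))) (fun c => Sum.inr (Sum.inr (Sum.inr c))))
        invFun := Sum.elim (fun t => Sum.inr (Sum.inl (Sum.inl t))) (Sum.elim (fun b => Sum.inl b)
          (Sum.elim (fun b => Sum.inr (Sum.inl (Sum.inr b))) (fun c => Sum.inr (Sum.inr c))))
        left_inv := by rintro (b | ((t | b) | c)) <;> rfl
        right_inv := by rintro (t | (b | (b | c))) <;> rfl }
    have h3 : H24FD.ctr sd (re e (H24FD.ten (vp v p) (H24FD.ten (fun k => (x k).1) z))) =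
        H24FD.ten (vp v p) (H24FD.ten (H24FD.ctr sd (fun k => (x k).1)) z) := by
      funext n
      unfold H24FD.ctr re H24FD.ten
      rw [Finset.sum_mul, Finset.mul_sum]
      apply Finset.sum_congr rfl
      intro i _
      have h4 : (fun a => cons2 i (sd.st i) n (e (Sum.inr (Sum.inl a)))) =
          cons2 i (sd.st i) (fun b => n (Sum.inr (Sum.inl b))) := by
        funext c
        rcases c with t | b <;> rfl
      beta_reduce
      rw [h4]
      change (sd.sg i : ℂ) * (vp v p (fun b => n (Sum.inl b)) * ((x (cons2 i (sd.st i)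
        (fun b => n (Sum.inr (Sum.inl b))))).1 * z (fun c => n (Sum.inr (Sum.inr c))))) = _
      ring
    rw [← h3, ← (npair_br sd).Q_ctr]
    conv_rhs => unfold H24FD.ctr
    apply Finset.sum_congr rfl
    intro i _
    rw [smul_eq_mul]
    congr 1
    refine Q_re' sd e rfl ?_
    funext c
    rcases c with b | ((t | b) | c) <;> rfl
  cp p := by
    intro γ _ _ z l k m
    have h1 : (H24FD.cp sd p k : ℂ × MvPolynomial (Σ i, (A i → ι)) ℂ).2 =
        C (H24FD.cp sd p k : ℂ) := by
      unfold H24FD.cp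
      split_ifs
      · change ((sd.sg (k false) : ℤ) : MvPolynomial (Σ i, (A i → ι)) ℂ) = _
        simp
      · simp
    have h2 : (fun k => (H24FD.cp sd p k : ℂ × MvPolynomial (Σ i, (A i → ι)) ℂ).1) =
        H24FD.cp sd p :=
      map_cp (AlgHom.fst ℝ ℂ (MvPolynomial (Σ i, (A i → ι)) ℂ)) p
    rw [h1, h2, mul_comm, ← smul_eq_C_mul, map_smul]
    suffices hs : (H24FD.cp sd p k : ℂ) • Fn sd v z l =
        Fn sd v (H24FD.ten (H24FD.cp sd p) z) (Sum.elim k l) from LinearMap.congr_fun hs m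
    apply functional_ext
    intro τ _ _ q
    rw [LinearMap.smul_apply, Fn_prod, Fn_prod]
    unfold Ph
    set B := Σ t : τ, A (q t).1 with hB
    let e : B ⊕ (Bool ⊕ γ) ≃ Bool ⊕ (B ⊕ γ) :=
      { toFun := Sum.elim (fun b => Sum.inr (Sum.inl b)) (Sum.elim (fun t => Sum.inl t)
          (fun c => Sum.inr (Sum.inr c)))
        invFun := Sum.elim (fun t => Sum.inr (Sum.inl t)) (Sum.elim (fun b => Sum.inl b)
          (fun c => Sum.inr (Sum.inr c)))
        left_inv := by rintro (b | (t | c)) <;> rfl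
        right_inv := by rintro (t | (b | c)) <;> rfl }
    have h3 : re e (H24FD.ten (vp v q) (H24FD.ten (H24FD.cp sd p) z)) =
        H24FD.ten (H24FD.cp sd p) (H24FD.ten (vp v q) z) := by
      funext n
      unfold re H24FD.ten
      change vp v q _ * (H24FD.cp sd p _ * z _) = H24FD.cp sd p _ * (vp v q _ * z _)
      rw [mul_left_comm]
      rfl
    have h4 : (npair_br sd).Q (B ⊕ (Bool ⊕ γ)) (H24FD.ten (vp v q) (H24FD.ten (H24FD.cp sd p) z))
        (Sum.elim (Jp q) (Sum.elim k l)) = (npair_br sd).Q (Bool ⊕ (B ⊕ γ))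
          (H24FD.ten (H24FD.cp sd p) (H24FD.ten (vp v q) z))
          (Sum.elim k (Sum.elim (Jp q) l)) := by
      refine Q_re' sd e h3 ?_
      funext c
      rcases c with b | (t | c) <;> rfl
    rw [h4]
    have h5 := (npair_br sd).qfam.ten (β := B ⊕ γ) (x := H24FD.cp sd p) (x' := H24FD.cp sd p)
      (H24FD.ten (vp v q) z) ⟨H24FD.cp sd p, (npair_br sd).sys.cp p, by
        rw [← map_cp (AlgHom.fst ℝ ℂ ℂ) p]
        refine Prod.ext rfl ?_
        rw [map_cp (AlgHom.fst ℝ ℂ ℂ) p]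
        exact (map_cp (AlgHom.snd ℝ ℂ ℂ) p).symm⟩
    rw [h5, ten_apply, smul_eq_mul]

end Rz

end Pool.Agent.H24FD
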