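import Pool.Agent.H24FD.Min

/-!
# The stabilizer of a family of minimal length
-/

set_option autoImplicit false
set_option linter.unusedSectionVars false

namespace Pool.Agent.H24FD

open Filter Topology Matrix
open scoped ComplexOrder

section Stab

variable {ι : Type} [Fintype ι] [DecidableEq ι] {sd : Std ι}
  {I : Type} [Fintype I] {A : I → Type} [∀ i, Fintype (A i)] [∀ i, DecidableEq (A i)]
  {v : ∀ i, (A i → ι) → ℂ}

/-- The hermitian form. -/
noncomputable def hs (v w : ∀ i, (A i → ι) → ℂ) : ℂ := ∑ i, ∑ l, v i l * starRingEnd ℂ (w i l)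

lemma hs_self (v : ∀ i, (A i → ι) → ℂ) : hs v v = (NN v : ℂ) := by
  unfold hs NN nrm
  push_cast
  apply Finset.sum_congr rfl
  intro i _
  apply Finset.sum_congr rfl
  intro l _
  rw [Complex.mul_conj, Complex.normSq_eq_norm_sq]
  push_cast
  rfl

lemma hs_conj (v w : ∀ i, (A i → ι) → ℂ) : starRingEnd ℂ (hs v w) = hs w v := by
  unfold hs
  rw [map_sum]
  apply Finset.sum_congr rfl
  intro i _
  rw [map_sum]
  apply Finset.sum_congr rfl
  intro l _
  rw [map_mul, Complex.conj_conj, mul_comm]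

lemma hs_act (g : Matrix ι ι ℂ) (v w : ∀ i, (A i → ι) → ℂ) :
    hs (acts g v) w = hs v (acts gᴴ w) := by
  unfold hs acts act
  apply Finset.sum_congr rfl
  intro i _
  simp only [Finset.sum_mul, map_sum, Finset.mul_sum]
  rw [Finset.sum_comm]
  apply Finset.sum_congr rfl
  intro l _
  apply Finset.sum_congr rfl
  intro k _
  rw [map_mul, map_prod]
  simp only [Matrix.conjTranspose_apply, RCLike.star_def, Complex.conj_conj]
  ring

lemma NN_sub (v w : ∀ i, (A i → ι) → ℂ) : NN (v - w) = NN v + NN w - 2 * (hs v w).re := by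
  have h : ∀ a b : ℂ, ‖a - b‖ ^ 2 = ‖a‖ ^ 2 + ‖b‖ ^ 2 - 2 * (a * starRingEnd ℂ b).re := by
    intro a b
    rw [← Complex.normSq_eq_norm_sq, ← Complex.normSq_eq_norm_sq, ← Complex.normSq_eq_norm_sq,
      Complex.normSq_sub]
  unfold NN nrm hs
  simp only [Pi.sub_apply, h, Complex.re_sum, Finset.sum_sub_distrib, Finset.sum_add_distrib,
    Finset.mul_sum]

lemma NN_eq_zero {v : ∀ i, (A i → ι) → ℂ} (h : NN v ≤ 0) : v = 0 := by
  have h1 : NN v = 0 := le_antisymm h (NN_nonneg v)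
  unfold NN at h1
  rw [Finset.sum_eq_zero_iff_of_nonneg (fun _ _ => nrm_nonneg _)] at h1
  funext i
  exact nrm_eq_zero.1 (h1 i (Finset.mem_univ i))

/-- The stabilizer of a family of minimal length is stable under conjugate transposition. -/
lemma stab_conjTranspose (hmin : ∀ h, InG sd h → NN v ≤ NN (acts h v)) {g : Matrix ι ι ℂ}
    (hg : InG sd g) (hgv : acts g v = v) : acts gᴴ v = v := by
  obtain ⟨q, hq, hqp, hqq⟩ := (hg.conjTranspose.mul hg).sqrt
    (Matrix.posSemidef_conjTranspose_mul_self g)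
  obtain ⟨s, hs', hsp, hss⟩ := hq.sqrt hqp
  have h1 : hs (acts q v) v = (NN (acts s v) : ℂ) := by
    rw [← hss, acts_mul, hs_act, hsp.isHermitian.eq, hs_self]
  have h2 : NN (acts q v) = NN v := by
    have h3 : hs (acts q v) (acts q v) = hs v v := by
      rw [hs_act, hqp.isHermitian.eq, ← acts_mul, hqq, acts_mul, ← hs_act, hgv]
    rw [hs_self, hs_self] at h3
    exact_mod_cast h3
  have h3 : acts q v = v := by
    rw [← sub_eq_zero]
    apply NN_eq_zero
    rw [NN_sub, h2, h1, Complex.ofReal_re]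
    linarith [hmin s hs']
  have h4 : acts (gᴴ * g) v = v := by
    rw [← hqq, acts_mul, h3, h3]
  rw [acts_mul, hgv] at h4
  exact h4

/-- The diagonal family. -/
def dg (v : ∀ i, (A i → ι) → ℂ) : ∀ i, (A i → ι) → ℂ × ℂ := fun i l => (v i l, v i l)

lemma f1_dg (i : I) : f1 (dg v i) = v i := rfl

lemma f2_dg (i : I) : f2 (dg v i) = v i := rfl

lemma npair_dg (hv : Good sd v) : NPair sd (fun α _ _ => gen sd ℝ (dg v) α) := by
  refine npair_lim (g := fun _ => 1) hv (fun _ => InG.one sd) f1_dg (fun i => ?_)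
  simp only [act_one]
  exact tendsto_const_nhds

lemma f2_dg_act {g : Matrix ι ι ℂ} (hg : InG sd g) (hgv : acts g v = v) {α : Type}
    [Fintype α] [DecidableEq α] {z : (α → ι) → ℂ × ℂ} (hz : z ∈ gen sd ℝ (dg v) α) :
    f2 z = act g (f1 z) :=
  gen_le hg.isSys_gr (fun i => (congrFun hgv i).symm) hz

lemma f2_dg_eq {α : Type} [Fintype α] [DecidableEq α] {z : (α → ι) → ℂ × ℂ}
    (hz : z ∈ gen sd ℝ (dg v) α) : f2 z = f1 z := by
  rw [f2_dg_act (InG.one sd) (acts_one v) hz, act_one]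

lemma act_fix {g : Matrix ι ι ℂ} (hg : InG sd g) (hgv : acts g v = v) {α : Type}
    [Fintype α] [DecidableEq α] {y : (α → ι) → ℂ} (hy : y ∈ gen sd ℝ v α) : act g y = y := by
  obtain ⟨z, hz, rfl⟩ := f1_lift (w := dg v) f1_dg hy
  rw [← f2_dg_act hg hgv hz, f2_dg_eq hz]

lemma qfam_dg (hv : Good sd v) : QFam (fun α _ _ => {p : ((α → ι) → ℂ) × ((α → ι) → ℂ) |
    p.1 ∈ {y | y ∈ gen sd ℝ v α} ∧ p.2 = p.1}) (fun α _ _ => (npair_dg hv).Q α) := by
  refine ⟨(npair_dg hv).qfam.one, (npair_dg hv).qfam.re, ?_⟩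
  rintro α β _ _ _ _ y y' u ⟨h1, h2⟩
  dsimp only at h1 h2
  subst h2
  obtain ⟨z, hz, h3⟩ := f1_lift (w := dg v) f1_dg h1
  refine (npair_dg hv).qfam.ten u ⟨z, hz, ?_⟩
  rw [f2_dg_eq hz, h3]

lemma InG.tau {g : Matrix ι ι ℂ} (hg : InG sd g) : InG sd (tau sd g) := by
  intro p
  conv_lhs => rw [← hg.conjTranspose p]
  rw [← act_mul, tau_mul ((inG_iff sd g).1 hg).1, act_one]

lemma cj_fix (hmin : ∀ h, InG sd h → NN v ≤ NN (acts h v))
    {β : Type} [Fintype β] [DecidableEq β] {x : (β → ι) → ℂ} (hx : x ∈ gen sd ℝ v β)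
    {g : Matrix ι ι ℂ} (hgG : InG sd g) (hgv : acts g v = v) : act g (cj sd x) = cj sd x := by
  have h1 := stab_conjTranspose hmin hgG hgv
  have h2 := tau_mul ((inG_iff sd g).1 hgG).1
  have h4 : acts (H24FD.tau sd g) v = v := by
    conv_lhs => rw [← h1]
    rw [← acts_mul, h2, acts_one]
  have h5 := cj_act (sd := sd) (H24FD.tau sd g) x
  rw [act_fix hgG.tau h4 hx, tau_tau hgG] at h5
  exact h5.symm

/-- The system generated by a family of minimal length is stable under the real structure. -/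
theorem cj_mem (hv : Good sd v) (hmin : ∀ h, InG sd h → NN v ≤ NN (acts h v))
    {β : Type} [Fintype β] [DecidableEq β] {x : (β → ι) → ℂ} (hx : x ∈ gen sd ℝ v β) :
    ∃ a ∈ gen sd ℝ v β, ∃ b ∈ gen sd ℝ v β, cj sd x = a + Complex.I • b := by
  have hcp : ∀ p, cp sd p ∈ gen sd ℝ v Bool := fun p =>
    (isSys_gen (sd := sd) (k := ℝ) (v := v)).cp p
  have key := (qfam_dg hv).dc (sd := sd) hcp (w := cj sd x) (by
      intro g hg
      exact cj_fix hmin hx (fun p => hg Bool _ (hcp p)) (funext fun i => hg (A i) _ (gen_self i)))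
  rw [← key]
  obtain ⟨a, ha, b, hb, hab⟩ := (npair_dg hv).Q_mem (cj sd x)
  exact ⟨f2 a, f2_mem f2_dg ha, f2 b, f2_mem f2_dg hb, hab⟩

end Stab

end Pool.Agent.H24FD
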