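import Pool.Agent.H24FD.Tn

/-!
# Systems of tensors stable under the tensor operations
-/

set_option autoImplicit false
set_option linter.unusedSectionVars false
set_option linter.style.haveILetI false

universe v v' w

namespace Pool.Agent.H24FD

section Sys

variable {ι : Type} [Fintype ι] [DecidableEq ι] (sd : Std ι) {R : Type v} [CommRing R]
  (k : Type w) [CommRing k] [Algebra k R]

/-- Systems of tensors, stable under change of names of the slots, tensor products and
contractions. -/
structure IsSys (S : ∀ (α : Type) [Fintype α] [DecidableEq α], Submodule k ((α → ι) → R)) :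
    Prop where
  one : (fun _ => (1 : R)) ∈ S Empty
  re : ∀ {α β : Type} [Fintype α] [DecidableEq α] [Fintype β] [DecidableEq β] (e : α ≃ β)
    {x : (α → ι) → R}, x ∈ S α → re e x ∈ S β
  ten : ∀ {α β : Type} [Fintype α] [DecidableEq α] [Fintype β] [DecidableEq β]
    {x : (α → ι) → R} {y : (β → ι) → R}, x ∈ S α → y ∈ S β → ten x y ∈ S (α ⊕ β)
  ctr : ∀ {β : Type} [Fintype β] [DecidableEq β] {x : (Bool ⊕ β → ι) → R},
    x ∈ S (Bool ⊕ β) → ctr sd x ∈ S β
  cp : ∀ p : Bool, cp sd p ∈ S Bool

variable {sd k}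

omit [DecidableEq ι] in
lemma re_re {α β γ : Type} (e : α ≃ β) (f : β ≃ γ) (x : (α → ι) → R) :
    re f (re e x) = re (e.trans f) x := rfl

omit [DecidableEq ι] in
lemma re_add {α β : Type} (e : α ≃ β) (x y : (α → ι) → R) : re e (x + y) = re e x + re e y := rfl

omit [DecidableEq ι] in
lemma re_smul {k : Type w} [CommRing k] [Algebra k R] {α β : Type} (e : α ≃ β) (r : k)
    (x : (α → ι) → R) : re e (r • x) = r • re e x := rfl

omit [DecidableEq ι] in
lemma ctr_add {β : Type} (x y : (Bool ⊕ β → ι) → R) :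
    ctr sd (x + y) = ctr sd x + ctr sd y := by
  funext k
  unfold ctr
  rw [Pi.add_apply, ← Finset.sum_add_distrib]
  apply Finset.sum_congr rfl
  intro i _
  rw [Pi.add_apply]; ring

omit [DecidableEq ι] in
lemma ctr_smul {k : Type w} [CommRing k] [Algebra k R] {β : Type} (r : k)
    (x : (Bool ⊕ β → ι) → R) : ctr sd (r • x) = r • ctr sd x := by
  funext l
  unfold ctr
  rw [Pi.smul_apply, Finset.smul_sum]
  apply Finset.sum_congr rfl
  intro i _
  rw [Pi.smul_apply, Algebra.mul_smul_comm]

omit [DecidableEq ι] in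
lemma ten_add_left {α β : Type} (x x' : (α → ι) → R) (y : (β → ι) → R) :
    ten (x + x') y = ten x y + ten x' y := by
  funext l; simp [ten, add_mul]

omit [DecidableEq ι] in
lemma ten_add_right {α β : Type} (x : (α → ι) → R) (y y' : (β → ι) → R) :
    ten x (y + y') = ten x y + ten x y' := by
  funext l; simp [ten, mul_add]

omit [DecidableEq ι] in
lemma ten_smul_left {k : Type w} [CommRing k] [Algebra k R] {α β : Type} (r : k)
    (x : (α → ι) → R) (y : (β → ι) → R) : ten (r • x) y = r • ten x y := by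
  funext l; simp [ten]

omit [DecidableEq ι] in
lemma ten_smul_right {k : Type w} [CommRing k] [Algebra k R] {α β : Type} (r : k)
    (x : (α → ι) → R) (y : (β → ι) → R) : ten x (r • y) = r • ten x y := by
  funext l; simp [ten]

lemma IsSys.ctrs {S : ∀ (α : Type) [Fintype α] [DecidableEq α], Submodule k ((α → ι) → R)}
    (h : IsSys sd k S) : ∀ (α : Type) [Fintype α], ∀ [DecidableEq α] (β : Type) [Fintype β]
      [DecidableEq β] (x : ((α ⊕ α) ⊕ β → ι) → R), x ∈ S ((α ⊕ α) ⊕ β) → ctrs sd x ∈ S β := by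
  intro α _
  refine Fintype.induction_empty_option (P := fun (α : Type) [Fintype α] => ∀ [DecidableEq α]
    (β : Type) [Fintype β] [DecidableEq β] (x : ((α ⊕ α) ⊕ β → ι) → R),
      x ∈ S ((α ⊕ α) ⊕ β) → H24FD.ctrs sd x ∈ S β) ?_ ?_ ?_ α
  · intro α α' _ e ih _ β _ _ x hx
    letI : Fintype α := Fintype.ofEquiv α' e.symm
    letI : DecidableEq α := Classical.decEq α
    have h1 := ih β (H24FD.re (Equiv.sumCongr (Equiv.sumCongr e.symm e.symm) (Equiv.refl β)) x)
      (h.re _ hx)
    have h2 : H24FD.ctrs sd (H24FD.re (Equiv.sumCongr (Equiv.sumCongr e.symm e.symm)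
        (Equiv.refl β)) x) = H24FD.ctrs sd x := by
      funext l
      unfold H24FD.ctrs H24FD.re
      rw [sum_re e]
      apply Finset.sum_congr rfl
      intro i _
      rw [← e.prod_comp]
      simp only [Equiv.symm_apply_apply]
      congr 1
      apply congrArg
      funext c
      rcases c with (a | a) | b
      · simp
      · simp
      · rfl
    rwa [h2] at h1
  · intro _ β _ _ x hx
    let e : (PEmpty.{1} ⊕ PEmpty.{1}) ⊕ β ≃ β :=
      ⟨Sum.elim (Sum.elim PEmpty.elim PEmpty.elim) id, Sum.inr,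
        by rintro ((a | a) | b); exacts [a.elim, a.elim, rfl], fun _ => rfl⟩
    have h1 := h.re e hx
    convert h1 using 1
    funext l
    unfold H24FD.ctrs H24FD.re
    rw [Fintype.sum_unique]
    simp only [Finset.univ_eq_empty, Finset.prod_empty, Int.cast_one, one_mul]
    apply congrArg
    funext c
    rcases c with (a | a) | b
    · exact a.elim
    · exact a.elim
    · rfl
  · intro α _ ih inst β _ _ x hx
    letI : DecidableEq α := Classical.decEq α
    obtain rfl : inst = Option.instDecidableEq := Subsingleton.elim _ _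
    rw [ctrs_option]
    exact ih β _ (h.ctr (h.re _ hx))

lemma IsSys.pc {S : ∀ (α : Type) [Fintype α] [DecidableEq α], Submodule k ((α → ι) → R)}
    (h : IsSys sd k S) {α β : Type} [Fintype α] [DecidableEq α] [Fintype β] [DecidableEq β]
    {x : (α ⊕ β → ι) → R} {y : (α → ι) → R} (hx : x ∈ S (α ⊕ β)) (hy : y ∈ S α) :
    pc sd x y ∈ S β := by
  rw [pc_eq]
  exact h.ctrs α β _ (h.re _ (h.ten hx hy))

/-- The value of a scalar. -/
lemma bf_empty (x y : (Empty → ι) → R) : bf sd x y = x Empty.elim * y Empty.elim := by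
  unfold bf
  rw [Fintype.sum_unique]
  have h1 : (default : Empty → ι) = Empty.elim := by funext a; exact a.elim
  have h2 : (fun a => sd.st ((default : Empty → ι) a)) = Empty.elim := by funext a; exact a.elim
  rw [h1, show (fun a : Empty => sd.st ((Empty.elim : Empty → ι) a)) = Empty.elim by
    funext a; exact a.elim]
  simp

lemma IsSys.bf {S : ∀ (α : Type) [Fintype α] [DecidableEq α], Submodule k ((α → ι) → R)}
    (h : IsSys sd k S) {α : Type} [Fintype α] [DecidableEq α] {x y : (α → ι) → R}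
    (hx : x ∈ S α) (hy : y ∈ S α) : (fun _ => H24FD.bf sd x y) ∈ S Empty := by
  let e : α ≃ α ⊕ Empty := (Equiv.sumEmpty α Empty).symm
  have h1 := h.pc (h.re e hx) hy
  convert h1 using 1
  funext l
  unfold H24FD.bf H24FD.pc H24FD.re
  apply Finset.sum_congr rfl
  intro i _
  rfl

variable (sd k)

/-- The system generated by tensors. -/
def gen {I : Type} {A : I → Type} [∀ i, Fintype (A i)] [∀ i, DecidableEq (A i)]
    (v : ∀ i, (A i → ι) → R) (α : Type) [Fintype α] [DecidableEq α] :
    Submodule k ((α → ι) → R) :=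
  sInf {M | ∃ S : ∀ (α : Type) [Fintype α] [DecidableEq α], Submodule k ((α → ι) → R),
    IsSys sd k S ∧ (∀ i, v i ∈ S (A i)) ∧ M = S α}

variable {sd k}

section Gen

variable {I : Type} {A : I → Type} [∀ i, Fintype (A i)] [∀ i, DecidableEq (A i)]
  {v : ∀ i, (A i → ι) → R}

lemma mem_gen {α : Type} [Fintype α] [DecidableEq α] {x : (α → ι) → R} :
    x ∈ gen sd k v α ↔ ∀ S : ∀ (α : Type) [Fintype α] [DecidableEq α],
      Submodule k ((α → ι) → R), IsSys sd k S → (∀ i, v i ∈ S (A i)) → x ∈ S α := by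
  unfold gen
  rw [Submodule.mem_sInf]
  constructor
  · intro h S hS hv
    exact h _ ⟨S, hS, hv, rfl⟩
  · rintro h M ⟨S, hS, hv, rfl⟩
    exact h S hS hv

lemma isSys_gen : IsSys sd k (fun α _ _ => gen sd k v α) where
  one := mem_gen.2 fun _ hS _ => hS.one
  re e _ hx := mem_gen.2 fun S hS hv => hS.re e (mem_gen.1 hx S hS hv)
  ten hx hy := mem_gen.2 fun S hS hv => hS.ten (mem_gen.1 hx S hS hv) (mem_gen.1 hy S hS hv)
  ctr hx := mem_gen.2 fun S hS hv => hS.ctr (mem_gen.1 hx S hS hv)
  cp p := mem_gen.2 fun _ hS _ => hS.cp p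

lemma gen_self (i : I) : v i ∈ gen sd k v (A i) := mem_gen.2 fun _ _ hv => hv i

lemma gen_le {S : ∀ (α : Type) [Fintype α] [DecidableEq α], Submodule k ((α → ι) → R)}
    (hS : IsSys sd k S) (hv : ∀ i, v i ∈ S (A i)) {α : Type} [Fintype α] [DecidableEq α]
    {x : (α → ι) → R} (hx : x ∈ gen sd k v α) : x ∈ S α := mem_gen.1 hx S hS hv

end Gen

section Map

variable {R' : Type v'} [CommRing R'] [Algebra k R'] (φ : R →ₐ[k] R')

omit [DecidableEq ι] in
lemma map_ctr {β : Type} (x : (Bool ⊕ β → ι) → R) :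
    (fun l => φ (ctr sd x l)) = ctr sd (fun l => φ (x l)) := by
  funext l
  unfold ctr
  rw [map_sum]
  apply Finset.sum_congr rfl
  intro i _
  rw [map_mul, map_intCast]

omit [Fintype ι] in
lemma map_cp (p : Bool) : (fun l => φ (cp (R := R) sd p l)) = cp sd p := by
  funext l
  unfold cp
  split_ifs <;> simp

omit [DecidableEq ι] in
lemma map_bf {α : Type} [Fintype α] [DecidableEq α] (x y : (α → ι) → R) :
    φ (bf sd x y) = bf sd (fun l => φ (x l)) (fun l => φ (y l)) := by
  unfold bf
  rw [map_sum]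
  apply Finset.sum_congr rfl
  intro i _
  rw [map_mul, map_intCast, map_mul]

/-- The preimage of a system. -/
lemma isSys_comap {S : ∀ (α : Type) [Fintype α] [DecidableEq α], Submodule k ((α → ι) → R')}
    (h : IsSys sd k S) : IsSys sd k (fun α _ _ => (S α).comap (φ.toLinearMap.compLeft (α → ι))) where
  one := by
    rw [Submodule.mem_comap]
    convert h.one using 1
    funext l
    simp
  re e x hx := h.re e hx
  ten {α β _ _ _ _ x y} hx hy := by
    rw [Submodule.mem_comap] at hx hy ⊢
    convert h.ten hx hy using 1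
    funext l
    simp [ten]
  ctr {β _ _ x} hx := by
    rw [Submodule.mem_comap] at hx ⊢
    have h1 := h.ctr hx
    have h2 := map_ctr (sd := sd) φ x
    convert h1 using 1
    exact h2
  cp p := by
    rw [Submodule.mem_comap]
    have h2 := map_cp (sd := sd) φ p
    convert h.cp p using 1
    exact h2

/-- The image of a system. -/
lemma isSys_map {S : ∀ (α : Type) [Fintype α] [DecidableEq α], Submodule k ((α → ι) → R)}
    (h : IsSys sd k S) : IsSys sd k (fun α _ _ => (S α).map (φ.toLinearMap.compLeft (α → ι))) where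
  one := ⟨_, h.one, by funext l; simp⟩
  re e x hx := by
    obtain ⟨y, hy, rfl⟩ := hx
    exact ⟨_, h.re e hy, rfl⟩
  ten {α β _ _ _ _ x y} hx hy := by
    obtain ⟨x, hx, rfl⟩ := hx
    obtain ⟨y, hy, rfl⟩ := hy
    exact ⟨_, h.ten hx hy, by funext l; simp [ten]⟩
  ctr {β _ _ x} hx := by
    obtain ⟨x, hx, rfl⟩ := hx
    exact ⟨_, h.ctr hx, map_ctr (sd := sd) φ x⟩
  cp p := ⟨_, h.cp p, map_cp (sd := sd) φ p⟩

lemma map_gen {I : Type} {A : I → Type} [∀ i, Fintype (A i)] [∀ i, DecidableEq (A i)]
    {v : ∀ i, (A i → ι) → R} {α : Type} [Fintype α] [DecidableEq α] {x : (α → ι) → R}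
    (hx : x ∈ gen sd k v α) : (fun l => φ (x l)) ∈ gen sd k (fun i l => φ (v i l)) α :=
  gen_le (isSys_comap φ isSys_gen) (fun i => gen_self (v := fun i l => φ (v i l)) i) hx

lemma of_map_gen {I : Type} {A : I → Type} [∀ i, Fintype (A i)] [∀ i, DecidableEq (A i)]
    {v : ∀ i, (A i → ι) → R} {α : Type} [Fintype α] [DecidableEq α] {y : (α → ι) → R'}
    (hy : y ∈ gen sd k (fun i l => φ (v i l)) α) :
    ∃ x ∈ gen sd k v α, (fun l => φ (x l)) = y :=
  gen_le (isSys_map φ isSys_gen) (fun i => ⟨v i, gen_self i, rfl⟩) hy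

end Map

end Sys

end Pool.Agent.H24FD
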