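import Pool.Agent.H24FD.FDK

/-!
# Closure properties of systems of tensors for a form with blocks
-/

set_option autoImplicit false
set_option linter.unusedSectionVars false

universe v w

namespace Pool.Agent.H24FD

section SysG

variable {K : Type v} [CommRing K] {ι κ : Type} [Fintype ι] [DecidableEq ι] [DecidableEq κ]
  (G : GD K ι κ) {α β γ : Type} [Fintype α] [DecidableEq α] [Fintype β] [DecidableEq β]
  [Fintype γ] [DecidableEq γ]

/-- The contraction of pairs of slots. -/
def ctrsG (x : ((α ⊕ α) ⊕ β → ι) → K) : (β → ι) → K :=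
  fun k => ∑ i : α → ι, ∑ j : α → ι, (∏ a, G.g (i a) (j a)) * x (Sum.elim (Sum.elim i j) k)

/-- The contraction of two tensors. -/
def pcG (x : (α ⊕ β → ι) → K) (y : (α ⊕ γ → ι) → K) : (β ⊕ γ → ι) → K :=
  fun k => ∑ i : α → ι, ∑ j : α → ι, (∏ a, G.g (i a) (j a)) *
    (x (Sum.elim i (fun b => k (Sum.inl b))) * y (Sum.elim j (fun c => k (Sum.inr c))))

/-- Reordering of the slots. -/
def swpG (α β γ : Type) : (α ⊕ β) ⊕ (α ⊕ γ) ≃ (α ⊕ α) ⊕ (β ⊕ γ) where
  toFun := Sum.elim (Sum.elim (fun a => Sum.inl (Sum.inl a)) (fun b => Sum.inr (Sum.inl b)))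
    (Sum.elim (fun a => Sum.inl (Sum.inr a)) (fun c => Sum.inr (Sum.inr c)))
  invFun := Sum.elim (Sum.elim (fun a => Sum.inl (Sum.inl a)) (fun a => Sum.inr (Sum.inl a)))
    (Sum.elim (fun b => Sum.inl (Sum.inr b)) (fun c => Sum.inr (Sum.inr c)))
  left_inv := by rintro ((a | b) | (a | c)) <;> rfl
  right_inv := by rintro ((a | a) | (b | c)) <;> rfl

lemma pcG_eq (x : (α ⊕ β → ι) → K) (y : (α ⊕ γ → ι) → K) :
    pcG G x y = ctrsG G (re (swpG α β γ) (ten x y)) := by
  funext k
  unfold pcG ctrsG re
  apply Finset.sum_congr rfl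
  intro i _
  apply Finset.sum_congr rfl
  intro j _
  congr 1
  unfold ten
  congr 2
  · funext c
    rcases c with a | b <;> rfl
  · funext c
    rcases c with a | b <;> rfl

lemma ctrsG_option (x : ((Option α ⊕ Option α) ⊕ β → ι) → K) :
    ctrsG G x = ctrsG G (ctrG G (re (swpO α β) x)) := by
  funext k
  unfold ctrsG ctrG re
  rw [sum_option]
  apply Finset.sum_congr rfl
  intro i _
  simp only [sum_option]
  rw [Finset.sum_comm]
  apply Finset.sum_congr rfl
  intro j _
  rw [Finset.mul_sum]
  apply Finset.sum_congr rfl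
  intro i0 _
  rw [Finset.mul_sum]
  apply Finset.sum_congr rfl
  intro j0 _
  rw [Fintype.prod_option]
  simp only [Option.elim]
  rw [mul_comm (G.g i0 j0), mul_assoc]
  congr 2
  apply congrArg
  funext c
  rcases c with (o | o) | b
  · cases o <;> rfl
  · cases o <;> rfl
  · rfl

variable [Algebra ℚ K] {G} {S : ∀ (α : Type) [Fintype α] [DecidableEq α],
  Submodule ℚ ((α → ι) → K)}

lemma IsSysG.ctrs (h : IsSysG G S) : ∀ (α : Type) [Fintype α], ∀ [DecidableEq α] (β : Type)
    [Fintype β] [DecidableEq β] (x : ((α ⊕ α) ⊕ β → ι) → K), x ∈ S ((α ⊕ α) ⊕ β) →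
      ctrsG G x ∈ S β := by
  intro α _
  refine Fintype.induction_empty_option (P := fun (α : Type) [Fintype α] => ∀ [DecidableEq α]
    (β : Type) [Fintype β] [DecidableEq β] (x : ((α ⊕ α) ⊕ β → ι) → K),
      x ∈ S ((α ⊕ α) ⊕ β) → ctrsG G x ∈ S β) ?_ ?_ ?_ α
  · intro α α' _ e ih _ β _ _ x hx
    let _ : Fintype α := Fintype.ofEquiv α' e.symm
    let _ : DecidableEq α := Classical.decEq α
    have h1 := ih β (H24FD.re (Equiv.sumCongr (Equiv.sumCongr e.symm e.symm) (Equiv.refl β)) x)
      (h.re _ hx)
    have h2 : ctrsG G (H24FD.re (Equiv.sumCongr (Equiv.sumCongr e.symm e.symm)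
        (Equiv.refl β)) x) = ctrsG G x := by
      funext l
      unfold ctrsG H24FD.re
      rw [sum_re e]
      apply Finset.sum_congr rfl
      intro i _
      rw [sum_re e]
      apply Finset.sum_congr rfl
      intro j _
      rw [← e.prod_comp]
      simp only [Equiv.symm_apply_apply]
      congr 1
      apply congrArg
      funext c
      rcases c with (a | a) | b
      · simp
      · simp
      · rfl
    rwa [h2] at h1
  · intro _ β _ _ x hx
    let e : (PEmpty.{1} ⊕ PEmpty.{1}) ⊕ β ≃ β :=
      ⟨Sum.elim (Sum.elim PEmpty.elim PEmpty.elim) id, Sum.inr,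
        by rintro ((a | a) | b); exacts [a.elim, a.elim, rfl], fun _ => rfl⟩
    have h1 := h.re e hx
    convert h1 using 1
    funext l
    unfold ctrsG H24FD.re
    rw [Fintype.sum_unique, Fintype.sum_unique]
    simp only [Finset.univ_eq_empty, Finset.prod_empty, one_mul]
    apply congrArg
    funext c
    rcases c with (a | a) | b
    · exact a.elim
    · exact a.elim
    · rfl
  · intro α _ ih inst β _ _ x hx
    let _ : DecidableEq α := Classical.decEq α
    obtain rfl : inst = Option.instDecidableEq := Subsingleton.elim _ _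
    rw [ctrsG_option]
    exact ih β _ (h.ctr (h.re _ hx))

lemma IsSysG.pc (h : IsSysG G S) {x : (α ⊕ β → ι) → K} {y : (α ⊕ γ → ι) → K}
    (hx : x ∈ S (α ⊕ β)) (hy : y ∈ S (α ⊕ γ)) : pcG G x y ∈ S (β ⊕ γ) := by
  rw [pcG_eq]
  exact h.ctrs α _ _ (h.re _ (h.ten hx hy))

/-- The slots except `a`. -/
def sloE (a : α) : α ≃ Unit ⊕ {b : α // b ≠ a} where
  toFun b := if h : b = a then Sum.inl () else Sum.inr ⟨b, h⟩
  invFun := Sum.elim (fun _ => a) (fun b => b.1)
  left_inv b := by
    by_cases h : b = a
    · simp [h]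
    · simp [h]
  right_inv := by
    rintro (_ | ⟨b, hb⟩)
    · simp
    · simp [hb]

lemma sloE_self (a : α) : sloE a a = Sum.inl () := by simp [sloE]

lemma sloE_ne {a b : α} (h : b ≠ a) : sloE a b = Sum.inr ⟨b, h⟩ := by simp [sloE, h]

/-- The index of a tensor with two slots. -/
def two (i j : ι) : Bool → ι := fun b => if b then j else i

/-- The bool and unit as a sum. -/
def booE : Bool ≃ Unit ⊕ Unit where
  toFun b := if b then Sum.inl () else Sum.inr ()
  invFun := Sum.elim (fun _ => true) (fun _ => false)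
  left_inv := by rintro (_ | _) <;> rfl
  right_inv := by rintro (_ | _) <;> rfl

lemma sum_unit {M : Type*} [AddCommMonoid M] (f : (Unit → ι) → M) :
    ∑ i, f i = ∑ i : ι, f (fun _ => i) := by
  rw [← (Equiv.funUnique Unit ι).symm.sum_comp]
  rfl

lemma sum_bool {M : Type*} [AddCommMonoid M] (f : (Bool → ι) → M) :
    ∑ i, f i = ∑ i : ι, ∑ j : ι, f (two i j) := by
  let e : (Bool → ι) ≃ ι × ι :=
    { toFun := fun k => (k false, k true)
      invFun := fun p => two p.1 p.2
      left_inv := fun k => by funext o; cases o <;> rfl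
      right_inv := fun p => rfl }
  rw [← e.symm.sum_comp, Fintype.sum_prod_type]
  rfl

/-- A slot transformed by a tensor with two slots. -/
lemma IsSysG.slot (h : IsSysG G S) {x : (α → ι) → K} (hx : x ∈ S α) (a : α)
    {u : (Bool → ι) → K} (hu : u ∈ S Bool) :
    (fun r : α → ι => ∑ i, ∑ j, G.g i j * (x (Function.update r a i) * u (two (r a) j))) ∈ S α := by
  have h1 := h.pc (h.re (sloE a) hx) (h.re booE hu)
  have h2 := h.re ((Equiv.sumComm _ _).trans (sloE a).symm) h1
  convert h2 using 1
  funext r
  unfold H24FD.re pcG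
  rw [sum_unit]
  apply Finset.sum_congr rfl
  intro i _
  rw [sum_unit]
  apply Finset.sum_congr rfl
  intro j _
  rw [Fintype.prod_unique]
  congr 2
  · apply congrArg
    funext b
    by_cases hb : b = a
    · subst hb
      rw [sloE_self, Function.update_self]
      rfl
    · rw [sloE_ne hb, Function.update_of_ne hb]
      rfl
  · apply congrArg
    funext b
    cases b
    · rfl
    · rfl


/-- The projection of a slot to a block. -/
lemma IsSysG.blk (h : IsSysG G S) (hinv : ∀ i k, ∑ j, G.g i j * G.c k j = if i = k then 1 else 0)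
    {x : (α → ι) → K} (hx : x ∈ S α) (a : α) (q : κ) :
    (fun r : α → ι => if G.blk (r a) = q then x r else 0) ∈ S α := by
  have h1 := h.slot hx a (h.cp q)
  convert h1 using 1
  funext r
  simp only [cpG, two, Bool.false_eq_true, if_false, if_true]
  by_cases hq : G.blk (r a) = q
  · simp only [if_pos hq]
    have h2 : ∀ i, ∑ j, G.g i j * (x (Function.update r a i) * G.c (r a) j) =
        if i = r a then x r else 0 := by
      intro i
      have h3 : ∑ j, G.g i j * (x (Function.update r a i) * G.c (r a) j) =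
          x (Function.update r a i) * ∑ j, G.g i j * G.c (r a) j := by
        rw [Finset.mul_sum]
        apply Finset.sum_congr rfl
        intro j _
        ring
      rw [h3, hinv]
      by_cases hi : i = r a
      · rw [if_pos hi, if_pos hi, mul_one, hi, Function.update_eq_self]
      · rw [if_neg hi, if_neg hi, mul_zero]
    rw [Finset.sum_congr rfl (fun i _ => h2 i), Finset.sum_ite_eq' Finset.univ (r a)]
    simp
  · simp only [if_neg hq, mul_zero, Finset.sum_const_zero]

lemma IsSysG.blks (h : IsSysG G S) (hinv : ∀ i k, ∑ j, G.g i j * G.c k j = if i = k then 1 else 0)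
    {x : (α → ι) → K} (hx : x ∈ S α) (q : α → κ) (s : Finset α) :
    (fun r : α → ι => if ∀ a ∈ s, G.blk (r a) = q a then x r else 0) ∈ S α := by
  induction s using Finset.induction_on with
  | empty => simpa using hx
  | insert a s ha ih =>
    have h1 := h.blk hinv ih a (q a)
    convert h1 using 1
    funext r
    simp only [Finset.forall_mem_insert, ite_and]

/-- The coefficients multiplied with a function of the blocks. -/
lemma IsSysG.wt [Fintype κ] (h : IsSysG G S)
    (hinv : ∀ i k, ∑ j, G.g i j * G.c k j = if i = k then 1 else 0)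
    {x : (α → ι) → K} (hx : x ∈ S α) (w : (α → κ) → ℚ) :
    (fun r : α → ι => algebraMap ℚ K (w (fun a => G.blk (r a))) * x r) ∈ S α := by
  have h1 : (fun r : α → ι => algebraMap ℚ K (w (fun a => G.blk (r a))) * x r) =
      ∑ q : α → κ, w q • (fun r : α → ι => if ∀ a ∈ Finset.univ, G.blk (r a) = q a
        then x r else 0) := by
    funext r
    rw [Finset.sum_apply, Finset.sum_eq_single (fun a => G.blk (r a))]
    · rw [Pi.smul_apply, if_pos (fun a _ => rfl), Algebra.smul_def]
    · intro q _ hq
      rw [Pi.smul_apply, if_neg, smul_zero]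
      intro h2
      apply hq
      funext a
      exact (h2 a (Finset.mem_univ a)).symm
    · intro h0
      exact absurd (Finset.mem_univ _) h0
  rw [h1]
  exact Submodule.sum_mem _ fun q _ => Submodule.smul_mem _ _ (h.blks hinv hx q _)

/-- The index of a tensor with three slots. -/
def thr (i j k : ι) : Fin 3 → ι := ![i, j, k]

/-- Three slots. -/
def finE : Fin 3 ≃ Bool ⊕ Unit where
  toFun := ![Sum.inl false, Sum.inl true, Sum.inr ()]
  invFun := Sum.elim (fun b => if b then 1 else 0) (fun _ => 2)
  left_inv := by intro a; fin_cases a <;> rfl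
  right_inv := by rintro ((_ | _) | _) <;> rfl

/-- The slots in the merging of two slots. -/
def sloO (a : α) : Option α ≃ Bool ⊕ {b : α // b ≠ a} where
  toFun o := o.elim (Sum.inl false) (fun b => if h : b = a then Sum.inl true else Sum.inr ⟨b, h⟩)
  invFun := Sum.elim (fun b => if b then some a else none) (fun b => some b.1)
  left_inv o := by
    cases o with
    | none => rfl
    | some b =>
      by_cases h : b = a
      · simp [h]
      · simp [h]
  right_inv := by
    rintro ((_ | _) | ⟨b, hb⟩)
    · rfl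
    · simp
    · simp [hb]

lemma sloO_none (a : α) : sloO a none = Sum.inl false := rfl

lemma sloO_self (a : α) : sloO a (some a) = Sum.inl true := by simp [sloO]

lemma sloO_ne {a b : α} (h : b ≠ a) : sloO a (some b) = Sum.inr ⟨b, h⟩ := by simp [sloO, h]

/-- The merging of two slots by means of a tensor with three slots. -/
lemma IsSysG.merge (h : IsSysG G S) {x : (Option α → ι) → K} (hx : x ∈ S (Option α)) (a : α)
    {m : (Fin 3 → ι) → K} (hm : m ∈ S (Fin 3)) :
    (fun r : α → ι => ∑ i, ∑ j, (∑ p, ∑ q, G.g i p * G.g j q * m (thr p q (r a))) *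
      x (fun o => o.elim i (Function.update r a j))) ∈ S α := by
  have h1 := h.pc (h.re (sloO a) hx) (h.re finE hm)
  have h2 := h.re ((Equiv.sumComm _ _).trans (sloE a).symm) h1
  convert h2 using 1
  funext r
  unfold H24FD.re pcG
  rw [sum_bool]
  apply Finset.sum_congr rfl
  intro i _
  apply Finset.sum_congr rfl
  intro j _
  rw [sum_bool, Finset.sum_mul]
  apply Finset.sum_congr rfl
  intro p _
  rw [Finset.sum_mul]
  apply Finset.sum_congr rfl
  intro q _
  rw [Fintype.prod_bool]
  have e1 : (fun o : Option α => o.elim i (Function.update r a j)) =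
      (fun o => (Sum.elim (two i j) (fun b => r (((Equiv.sumComm {b : α // b ≠ a} Unit).trans
        (sloE a).symm) (Sum.inl b))) : Bool ⊕ {b : α // b ≠ a} → ι) (sloO a o)) := by
    funext o
    cases o with
    | none => rfl
    | some b =>
      by_cases hb : b = a
      · subst hb
        rw [sloO_self, Option.elim_some, Function.update_self]
        rfl
      · rw [sloO_ne hb, Option.elim_some, Function.update_of_ne hb]
        rfl
  have e2 : thr p q (r a) = (fun c => (Sum.elim (two p q) (fun b => r
      (((Equiv.sumComm {b : α // b ≠ a} Unit).trans (sloE a).symm) (Sum.inr b))) :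
        Bool ⊕ Unit → ι) (finE c)) := by
    funext c
    fin_cases c <;> rfl
  rw [e1, e2]
  simp only [two, Bool.false_eq_true, if_false, if_true]
  ring

/-- The contraction of a slot with a vector. -/
lemma IsSysG.psh (h : IsSysG G S) {x : (Option α → ι) → K} (hx : x ∈ S (Option α))
    {t : (Fin 1 → ι) → K} (ht : t ∈ S (Fin 1)) :
    (fun r : α → ι => ∑ i, (∑ j, G.g i j * t (fun _ => j)) * x (fun o => o.elim i r)) ∈ S α := by
  let e1 : Option α ≃ Unit ⊕ α :=
    { toFun := fun o => o.elim (Sum.inl ()) Sum.inr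
      invFun := Sum.elim (fun _ => none) some
      left_inv := by rintro (_ | _) <;> rfl
      right_inv := by rintro (_ | _) <;> rfl }
  let e2 : Fin 1 ≃ Unit ⊕ Empty :=
    { toFun := fun _ => Sum.inl ()
      invFun := fun _ => 0
      left_inv := fun a => (Fin.eq_zero a).symm
      right_inv := by rintro (_ | a); exacts [rfl, a.elim] }
  have h1 := h.pc (h.re e1 hx) (h.re e2 ht)
  have h2 := h.re (Equiv.sumEmpty α Empty) h1
  convert h2 using 1
  funext r
  unfold H24FD.re pcG
  rw [sum_unit]
  apply Finset.sum_congr rfl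
  intro i _
  rw [sum_unit, Finset.sum_mul]
  apply Finset.sum_congr rfl
  intro j _
  rw [Fintype.prod_unique, mul_assoc, mul_comm (t _)]
  congr 2
  apply congrArg
  funext o
  cases o <;> rfl

/-- The form on the tensors of a system. -/
lemma IsSysG.bf (h : IsSysG G S) {x y : (α → ι) → K} (hx : x ∈ S α) (hy : y ∈ S α) :
    (fun _ => bfG G x y) ∈ S Empty := by
  have h1 := h.pc (h.re (Equiv.sumEmpty α Empty).symm hx) (h.re (Equiv.sumEmpty α Empty).symm hy)
  have h2 := h.re (Equiv.sumEmpty Empty Empty) h1
  exact h2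

end SysG

end Pool.Agent.H24FD
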