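import Mathlib

/-!
# Tensors with slots in a finite type, and the operations on them
-/

set_option autoImplicit false

universe v

namespace Pool.Agent.H24FD

/-- A standard bilinear form on the free module with basis `ι`: the basis vector `i` is paired with
the basis vector `st i`, with the sign `sg i`; the form is symmetric on the even and alternating on
the odd part. -/
structure Std (ι : Type) where
  /-- the dual basis vector -/
  st : ι → ι
  /-- the sign -/
  sg : ι → ℤ
  /-- the parity -/
  par : ι → Bool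
  st_st : ∀ i, st (st i) = i
  sg_sq : ∀ i, sg i * sg i = 1
  par_st : ∀ i, par (st i) = par i
  sg_st : ∀ i, sg (st i) = (if par i then -1 else 1) * sg i

section Ops

variable {ι : Type} [Fintype ι] [DecidableEq ι] (sd : Std ι) {R : Type v} [CommRing R]
  {α β γ : Type} [Fintype α] [DecidableEq α] [Fintype β] [DecidableEq β] [Fintype γ]
  [DecidableEq γ]

/-- The tensor product. -/
def ten (x : (α → ι) → R) (y : (β → ι) → R) : (α ⊕ β → ι) → R :=
  fun k => x (fun a => k (Sum.inl a)) * y (fun b => k (Sum.inr b))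

/-- Change of the names of the slots. -/
def re (e : α ≃ β) (x : (α → ι) → R) : (β → ι) → R := fun k => x (fun a => k (e a))

/-- The index with two more entries. -/
def cons2 (i j : ι) (k : β → ι) : Bool ⊕ β → ι := Sum.elim (fun b => if b then j else i) k

/-- The contraction of the first two slots. -/
def ctr (x : (Bool ⊕ β → ι) → R) : (β → ι) → R :=
  fun k => ∑ i, (sd.sg i : R) * x (cons2 i (sd.st i) k)

/-- The tensors dual to the even and to the odd part of the form. -/
def cp (p : Bool) : (Bool → ι) → R :=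
  fun k => if sd.par (k false) = p ∧ k true = sd.st (k false) then (sd.sg (k false) : R) else 0

/-- The form on the tensors. -/
def bf (x y : (α → ι) → R) : R :=
  ∑ i : α → ι, ((∏ a, sd.sg (i a) : ℤ) : R) * (x i * y (fun a => sd.st (i a)))

/-- The partial contraction. -/
def pc (x : (α ⊕ β → ι) → R) (y : (α → ι) → R) : (β → ι) → R :=
  fun k => ∑ i : α → ι, ((∏ a, sd.sg (i a) : ℤ) : R) *
    (x (Sum.elim i k) * y (fun a => sd.st (i a)))

/-- The contraction of pairs of slots. -/
def ctrs (x : ((α ⊕ α) ⊕ β → ι) → R) : (β → ι) → R :=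
  fun k => ∑ i : α → ι, ((∏ a, sd.sg (i a) : ℤ) : R) *
    x (Sum.elim (Sum.elim i (fun a => sd.st (i a))) k)

/-- The action of matrices. -/
def act (g : Matrix ι ι R) (x : (α → ι) → R) : (α → ι) → R :=
  fun i => ∑ j, (∏ a, g (i a) (j a)) * x j

omit [Fintype ι] [DecidableEq ι] [Fintype α] [DecidableEq α] [Fintype β] [DecidableEq β] in
@[simp] lemma ten_apply (x : (α → ι) → R) (y : (β → ι) → R) (i : α → ι) (k : β → ι) :
    ten x y (Sum.elim i k) = x i * y k := rfl

omit [DecidableEq ι] in
lemma sum_sum (f : (α ⊕ β → ι) → R) :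
    ∑ k, f k = ∑ i : α → ι, ∑ j : β → ι, f (Sum.elim i j) := by
  rw [← (Equiv.sumArrowEquivProdArrow α β ι).symm.sum_comp, Fintype.sum_prod_type]
  rfl

omit [DecidableEq ι] in
lemma sum_re (e : α ≃ β) (f : (β → ι) → R) :
    ∑ k : β → ι, f k = ∑ i : α → ι, f (fun b => i (e.symm b)) := by
  rw [← (e.arrowCongr (Equiv.refl ι)).sum_comp]
  rfl

omit [DecidableEq ι] in
lemma bf_ten (z : (α ⊕ β → ι) → R) (x : (α → ι) → R) (y : (β → ι) → R) :
    bf sd z (ten x y) = bf sd (pc sd z x) y := by
  unfold bf pc
  rw [sum_sum, Finset.sum_comm]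
  apply Finset.sum_congr rfl
  intro k _
  rw [Finset.sum_mul, Finset.mul_sum]
  apply Finset.sum_congr rfl
  intro i _
  rw [Fintype.prod_sum_type]
  simp only [Sum.elim_inl, Sum.elim_inr]
  have : ten x y (fun a => sd.st (Sum.elim i k a)) =
      x (fun a => sd.st (i a)) * y (fun b => sd.st (k b)) := rfl
  rw [this]
  push_cast
  ring

omit [DecidableEq ι] in
lemma bf_ten_ten (x x' : (α → ι) → R) (y y' : (β → ι) → R) :
    bf sd (ten x y) (ten x' y') = bf sd x x' * bf sd y y' := by
  unfold bf
  rw [sum_sum, Finset.sum_mul_sum]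
  apply Finset.sum_congr rfl
  intro i _
  apply Finset.sum_congr rfl
  intro k _
  rw [Fintype.prod_sum_type]
  simp only [Sum.elim_inl, Sum.elim_inr]
  have : ten x' y' (fun a => sd.st (Sum.elim i k a)) =
      x' (fun a => sd.st (i a)) * y' (fun b => sd.st (k b)) := rfl
  rw [this, ten_apply]
  push_cast
  ring

omit [DecidableEq ι] in
lemma bf_re (e : α ≃ β) (x y : (α → ι) → R) : bf sd (re e x) (re e y) = bf sd x y := by
  unfold bf re
  rw [sum_re e]
  apply Finset.sum_congr rfl
  intro i _
  rw [← e.prod_comp]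
  simp

omit [DecidableEq ι] in
lemma bf_add_left (x x' y : (α → ι) → R) : bf sd (x + x') y = bf sd x y + bf sd x' y := by
  unfold bf
  rw [← Finset.sum_add_distrib]
  apply Finset.sum_congr rfl
  intro i _
  rw [Pi.add_apply]; ring

omit [DecidableEq ι] in
lemma bf_smul_left (r : R) (x y : (α → ι) → R) : bf sd (r • x) y = r * bf sd x y := by
  unfold bf
  rw [Finset.mul_sum]
  apply Finset.sum_congr rfl
  intro i _
  rw [Pi.smul_apply, smul_eq_mul]; ring

omit [DecidableEq ι] in
lemma bf_add_right (x y y' : (α → ι) → R) : bf sd x (y + y') = bf sd x y + bf sd x y' := by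
  unfold bf
  rw [← Finset.sum_add_distrib]
  apply Finset.sum_congr rfl
  intro i _
  rw [Pi.add_apply]; ring

omit [DecidableEq ι] in
lemma bf_smul_right (r : R) (x y : (α → ι) → R) : bf sd x (r • y) = r * bf sd x y := by
  unfold bf
  rw [Finset.mul_sum]
  apply Finset.sum_congr rfl
  intro i _
  rw [Pi.smul_apply, smul_eq_mul]; ring

omit [DecidableEq ι] in
lemma bf_zero_left (y : (α → ι) → R) : bf sd 0 y = 0 := by simp [bf]

omit [DecidableEq ι] in
lemma bf_zero_right (x : (α → ι) → R) : bf sd x 0 = 0 := by simp [bf]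

/-- The partial contraction in terms of the contraction of pairs. -/
def swp (α β : Type) : (α ⊕ β) ⊕ α ≃ (α ⊕ α) ⊕ β where
  toFun := Sum.elim (Sum.elim (fun a => Sum.inl (Sum.inl a)) (fun b => Sum.inr b))
    (fun a => Sum.inl (Sum.inr a))
  invFun := Sum.elim (Sum.elim (fun a => Sum.inl (Sum.inl a)) (fun a => Sum.inr a))
    (fun b => Sum.inl (Sum.inr b))
  left_inv := by rintro ((a | b) | a) <;> rfl
  right_inv := by rintro ((a | b) | a) <;> rfl

omit [DecidableEq ι] [Fintype β] [DecidableEq β] in
lemma pc_eq (x : (α ⊕ β → ι) → R) (y : (α → ι) → R) :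
    pc sd x y = ctrs sd (re (swp α β) (ten x y)) := by
  funext k
  unfold pc ctrs re
  apply Finset.sum_congr rfl
  intro i _
  congr 1
  unfold ten
  congr 2
  funext c
  rcases c with a | b <;> rfl

/-- The slots for the induction. -/
def swpO (α β : Type) : (Option α ⊕ Option α) ⊕ β ≃ Bool ⊕ ((α ⊕ α) ⊕ β) where
  toFun := Sum.elim (Sum.elim (fun o => o.elim (Sum.inl false) (fun a => Sum.inr (Sum.inl
      (Sum.inl a)))) (fun o => o.elim (Sum.inl true) (fun a => Sum.inr (Sum.inl (Sum.inr a)))))
    (fun b => Sum.inr (Sum.inr b))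
  invFun := Sum.elim (fun b => if b then Sum.inl (Sum.inr none) else Sum.inl (Sum.inl none))
    (Sum.elim (Sum.elim (fun a => Sum.inl (Sum.inl (some a))) (fun a => Sum.inl (Sum.inr
      (some a)))) (fun b => Sum.inr b))
  left_inv := by rintro (((_ | a) | (_ | a)) | b) <;> rfl
  right_inv := by rintro ((_ | _) | ((a | a) | b)) <;> rfl

omit [DecidableEq ι] in
lemma sum_option (f : (Option α → ι) → R) :
    ∑ k, f k = ∑ i : α → ι, ∑ j : ι, f (fun o => o.elim j i) := by
  let e : (Option α → ι) ≃ (α → ι) × ι :=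
    { toFun := fun k => (fun a => k (some a), k none)
      invFun := fun p o => o.elim p.2 p.1
      left_inv := fun k => by funext o; cases o <;> rfl
      right_inv := fun p => rfl }
  rw [← e.symm.sum_comp, Fintype.sum_prod_type]
  rfl

omit [DecidableEq ι] [Fintype β] [DecidableEq β] in
lemma ctrs_option (x : ((Option α ⊕ Option α) ⊕ β → ι) → R) :
    ctrs sd x = ctrs sd (ctr sd (re (swpO α β) x)) := by
  funext k
  unfold ctrs ctr re
  rw [sum_option]
  apply Finset.sum_congr rfl
  intro i _
  rw [Finset.mul_sum]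
  apply Finset.sum_congr rfl
  intro j _
  rw [Fintype.prod_option]
  simp only [Option.elim]
  push_cast
  rw [mul_comm (sd.sg j : R), mul_assoc]
  congr 2
  apply congrArg
  funext c
  rcases c with (o | o) | b
  · cases o <;> rfl
  · cases o <;> rfl
  · rfl

end Ops

end Pool.Agent.H24FD
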